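import Pool.Agent.H211.HY.Defs

/-!
# Statements, part 1: following, good scales, solving; the sphere; the family; the functionals
-/

set_option autoImplicit false

open Topology Filter Metric Set MeasureTheory Polynomial

namespace Pool.Agent.H211.HY

open Pool.Agent.H790R3.RB

/-- **Good scales** (elementary counting).

Proof. `q i n = p i n / x i n`. Let `c₁ = log 2 / log μ`, `θ' > 0` small (say `θ' ≤ min 1 (θ / (16 (k+1) (c₁+1)))`).
For `r = 2 ^ (-m)` let `N i m` be the least `n` with `r q i n > θ'` (it exists since `q i n ≥ c μ ^ n`), and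
`N i m ≤ c₁ m + c₂`. (1) Let `V i m = ∑_{n < N i m} 2^(-m) q i n`; all terms are `≤ θ'`. Exchanging the
sums (geometric series in `m`) `∑_{m < T} V i m ≤ ∑_{n ≤ c₁ T + c₂} 2 θ'`, so the number of the `m < T` with
`V i m > θ` is `≤ 2 θ' (c₁ T + c₂ + 1) / θ`, less than `T / (4 (k+1))` for large `T`. (2) Call `n` close (for `i`) if
`x i n < S`. Since `c μ ^ n ≤ p i n ≤ C ^ n S ^ (number of the close j < n)` there are at most
`(n log C + log (1/c)) / log (1/S)` close times `< n`. For every close `n` there are at most `log₂ (A/θ') + 2` numbers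
`m` with `θ' < 2^(-m) q i n ≤ A`. So for `S` small (depending on `A`, `θ'`, `C`, `c₁`, `k`) the number of the `m < T` for which
`N i m` is close and `2^(-m) q i (N i m) ≤ A` is less than `T / (4 (k+1))` for large `T`. Hence for `T` large there is
`m < T` with `2^(-m) < r₀` which is bad in neither way for any `i`. With `ε = θ' S`: if `x i N ≥ S` then
`r p i N = r q i N x i N > θ' S`; otherwise `r q i N > A`. -/
def S_SCALE : Prop :=
  ∀ (k : ℕ) (C c μ : ℝ) (p x : Fin k → ℕ → ℝ), 1 ≤ C → 0 < c → 1 < μ →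
    (∀ i, p i 0 = 1) → (∀ i n, c * μ ^ n ≤ p i n) → (∀ i n, 0 < x i n ∧ x i n ≤ 1) →
    (∀ i n, p i (n + 1) ≤ C * x i n * p i n) →
    ∀ θ > (0 : ℝ), ∀ A > (0 : ℝ), ∃ ε > (0 : ℝ), ∀ r₀ > (0 : ℝ), ∃ r : ℝ, 0 < r ∧ r < r₀ ∧
      ∀ i, ∃ N : ℕ, ∑ n ∈ Finset.range N, r * p i n / x i n ≤ θ ∧
        (ε ≤ r * p i N ∨ A * x i N ≤ r * p i N)

/-- **Following the orbit of a critical value.**

Proof. `D n = DD f z n`, `w n (s) = fderiv v 0 s + ∑_{j<n} fderiv (f j · (z j)) 0 s / D (j+1)` (linear in `s`,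
bounded by `K₀ ‖s‖` for all `n`, since the sequences for the basis vectors converge), `u n = YY n s - z n`,
`e n = u n / D n - w n (s)`. `u (n+1) = [f n s (z n) - f n 0 (z n)] + [f n s (y n) - f n s (z n)]`; the first bracket is
`fderiv (f n · (z n)) 0 s + O(‖s‖²)` with a uniform constant (Cauchy estimates, from `fb`, `fd`), the
second is `deriv (f n 0) (z n) * u n` up to `C |deriv (f n 0) (z n)| ((‖s‖ + |u n|) / x n) |u n|` (mean value
inequality on the segment, from `ds`). So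
`|e (n+1)| ≤ |e n| + C ((‖s‖ + |u n|) / x n) |u n| / |D n| + C' ‖s‖² / |D (n+1)|`. Inductively `|u n| ≤ K r |D n|`,
`K = K₀ + 1`; as `|D n| ≥ c` we have `‖s‖ ≤ r ≤ r |D n| / c`, so the middle term is at most
`C K (1/c + K) r (r |D n| / x n)`, with sum `≤ C K (1/c + K) θ r`, and `∑ 1 / |D (n+1)| < ∞` by `gr`. So
`|e n| ≤ ε r / 2` for all `n ≤ N` if `θ`, `r₀` are small; `|u n| ≤ K θ x n` for `n < N` is small, as needed. At the end
`|w N (s) - κ s i| ≤ ε r / 2` for `N ≥ N₀`. Differentiability: composition (`fd`). -/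
def S_FOL : Prop :=
  ∀ (k : ℕ) (i : Fin k) (f : ℕ → (Fin k → ℂ) → ℂ → ℂ) (v : (Fin k → ℂ) → ℂ) (z : ℕ → ℂ)
    (x : ℕ → ℝ) (ρ C c μ : ℝ) (κ : ℂ), Good i f v z x ρ C c μ κ → ∀ ε > (0 : ℝ),
      ∃ θ > (0 : ℝ), ∃ r₀ > (0 : ℝ), ∃ N₀ : ℕ, ∀ (r : ℝ) (N : ℕ), 0 < r → r ≤ r₀ → N₀ ≤ N →
        ∑ n ∈ Finset.range N, r * ‖DD f z n‖ / x n ≤ θ →
          DifferentiableOn ℂ (YY f v N) (ball 0 r) ∧ ∀ s ∈ ball (0 : Fin k → ℂ) r,
            (∀ n < N, ‖YY f v n s - z n‖ < ρ) ∧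
            ‖YY f v N s - z N - κ * DD f z N * s i‖ ≤ ε * r * ‖DD f z N‖

/-- **Solving the equations.** (Assume `S_SCALE` and `S_FOL`.)

Proof. Let `κ₀ = min ‖κ i‖` (`k = 0` is trivial), `ε = κ₀ / 64` in `S_FOL`, `θ`, `r₀`, `N₀` uniform in `i`.
Let `η, A, ρ₁, L` be given by the first target hypothesis; apply `S_SCALE` with
`p i n = ‖DD (f i) (z i) n‖` (`dx` gives the recursion), `θ` and `A' = 64 A / κ₀`; it gives `ε₁`; put
`ε₂ = min ε₁ (A' η)`. The second target hypothesis with `κ₀ ε₂ / 64` gives `ρ₁'`, `L'`. For `r` small, in both cases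
of `S_SCALE` there is a target `q i` at the time `N i` with `‖q i 0 - z i N‖ ≤ κ₀ r ‖D i N‖ / 64` (if
`A' x i N ≤ r ‖D i N‖` and `x i N ≤ η` use the first kind of targets, otherwise `r ‖D i N‖ ≥ ε₂`).
`N i → ∞` as `r → 0` (for bounded `N` both `ε₁ ≤ r p i N` and `A' x i N ≤ r p i N` fail for small `r`), so we may
assume `N i ≥ N₀` and `‖D i N‖ ≥ c μ ^ N ≥ 64 (L + L') / κ₀`. The map
`Φ(s) i = s i - (YY (f i) (v i) (N i) s - q i s) / (κ i * D i)` on the closed ball of radius `r / 2`: `‖Φ(s)‖ ≤ r / 2`; the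
error `e i (s) = YY .. - z - κ D s i` is holomorphic on `ball 0 r`, bounded by `κ₀ r ‖D‖ / 64`, so by the Schwarz /
Cauchy estimate (on the complex line through `s, s'`) it has the Lipschitz constant
`≤ κ₀ ‖D‖ / 8` on `closedBall 0 (r / 2)`. So `Φ` is a contraction; its fixed point solves the equations. -/
def S_SOLVE : Prop :=
  ∀ (k : ℕ) (f : Fin k → ℕ → (Fin k → ℂ) → ℂ → ℂ) (v : Fin k → (Fin k → ℂ) → ℂ)
    (z : Fin k → ℕ → ℂ) (x : Fin k → ℕ → ℝ) (ρ C c μ : ℝ) (κ : Fin k → ℂ),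
    (∀ i, Good i (f i) (v i) (z i) (x i) ρ C c μ (κ i)) →
    ∀ Tg : Fin k → ℕ → ℝ → ((Fin k → ℂ) → ℂ) → Prop,
      (∃ η > (0 : ℝ), ∃ A > (0 : ℝ), ∃ ρ₁ > (0 : ℝ), ∃ L : ℝ, ∀ i n, x i n ≤ η →
        ∃ q, Tg i n ρ₁ q ∧ IsT q ρ₁ L ∧ ‖q 0 - z i n‖ ≤ A * x i n) →
      (∀ ε > (0 : ℝ), ∃ ρ₁ > (0 : ℝ), ∃ L : ℝ, ∀ i n,
        ∃ q, Tg i n ρ₁ q ∧ IsT q ρ₁ L ∧ ‖q 0 - z i n‖ ≤ ε) →
      ∀ r₁ > (0 : ℝ), ∃ s : Fin k → ℂ, ‖s‖ < r₁ ∧ ∀ i, ∃ (N : ℕ) (ρ₁ : ℝ) (q : (Fin k → ℂ) → ℂ),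
        Tg i N ρ₁ q ∧ ‖s‖ < ρ₁ ∧ YY (f i) (v i) N s = q s ∧
          ∀ n < N, ‖YY (f i) (v i) n s - z i n‖ < ρ

/-! ### The sphere -/

/-- **Speed and chordal distance** (basic facts).

Proof. Euler: `fderiv (hF x) p p = d • hF x p`; with the third part of `StWR` (theorem in
`Pool/Graph/R_seed8/H790R3/RB/TWR.lean`): `d * cr (fderiv (hF x) p v) (hF x p) = wr x p * cr v p`, so
`spd (hF x ∘ h) z = sd x (h z) * spd h z`, and the iterates by induction. Triangle inequality: for unit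
vectors `cho` is the sine of the angle; (or `cho p q = ‖P_p - P_q‖` for the orthogonal projections; or
`cr p r • q = cr q r • p + cr p q • r` gives `‖cr p r‖ |q| ≤ ‖cr q r‖ |p| + ‖cr p q‖ |r|`, which is exactly it).
Lipschitz: for `‖cho‖` and the iterates: `cho (hF x p) (hF x q) ≤ K cho p q`: for unit `p, q` near each other choose
representatives with `|p - q| ≤ 2 cho p q`, `cr (hF x p) (hF x q)` is a polynomial which vanishes for `q = p`;
`N2 (hF x p)` is bounded from below on the unit sphere by `ND`. -/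
def S_CHO : Prop :=
  (∀ p q r : ℂ × ℂ, p ≠ 0 → q ≠ 0 → r ≠ 0 → cho p r ≤ cho p q + cho q r) ∧
  (∀ p q : ℂ × ℂ, cho p q = cho q p ∧ 0 ≤ cho p q ∧ cho p q ≤ 1) ∧
  (∀ p q : ℂ × ℂ, p ≠ 0 → q ≠ 0 → (cho p q = 0 ↔ cr p q = 0)) ∧
  (∀ (p q : ℂ × ℂ) (a b : ℂ), a ≠ 0 → b ≠ 0 → cho (a • p) (b • q) = cho p q) ∧
  ∀ (d : ℕ) (x : CV d), 2 ≤ d → ND x →
    (∀ (h : ℂ → ℂ × ℂ) (z : ℂ) (n : ℕ), DifferentiableAt ℂ h z → h z ≠ 0 →
      spd (fun w => (hF x)^[n] (h w)) z = sdn x n (h z) * spd h z) ∧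
    (∀ (n : ℕ) (p : ℂ × ℂ) (a : ℂ), a ≠ 0 → p ≠ 0 → sdn x n (a • p) = sdn x n p) ∧
    (∀ (n : ℕ) (p q : ℂ × ℂ), cr p q = 0 → cr ((hF x)^[n] p) ((hF x)^[n] q) = 0) ∧
    (∀ (n : ℕ) (p : ℂ × ℂ), p ≠ 0 → (hF x)^[n] p ≠ 0) ∧
    ∃ K : ℝ, ∀ p q : ℂ × ℂ, p ≠ 0 → q ≠ 0 → cho (hF x p) (hF x q) ≤ K * cho p q

/-- **Landau / Montel / Marty.**

Proof. Normalise `N2 a = N2 b = N2 c = 1`. `g z = cr (h z) a * cr b c / (cr (h z) b * cr a c)` is holomorphic on the
ball and omits `0` and `1`. By Schottky (`S_schottky` in `Pool/Graph/R_seed8/Lev/Stm.lean`, proved in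
`Lev/J_schottky.lean`) and Cauchy, `|g'(v)| ≤ C / δ` if `|g v| ≤ 1`, and the same for `1 / g` otherwise; so
`|g'(v)| / (1 + |g v| ^ 2) ≤ C / δ`. And `g = T h` for a linear map `T` of `ℂ²` with
`‖T p‖ ≤ 2 ‖p‖`, `|det T| ≥ σ ^ 3`, so `spd (T h) v ≥ |det T| / (4 ..) * spd h v`. -/
def S_MM : Prop :=
  ∀ σ > (0 : ℝ), ∃ K > (0 : ℝ), ∀ (h : ℂ → ℂ × ℂ) (v : ℂ) (δ : ℝ) (a b c : ℂ × ℂ), 0 < δ →
    DifferentiableOn ℂ h (ball v δ) → (∀ z ∈ ball v δ, h z ≠ 0) → a ≠ 0 → b ≠ 0 → c ≠ 0 →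
    σ ≤ cho a b → σ ≤ cho b c → σ ≤ cho a c →
    (∀ z ∈ ball v δ, cr (h z) a ≠ 0 ∧ cr (h z) b ≠ 0 ∧ cr (h z) c ≠ 0) → spd h v ≤ K / δ

/-- **Three separated preimages.**

Proof. By `CE` no critical point is mapped to a critical point by an iterate `n ≥ 1` (the factors of
`sdn x n (hF x c)` are positive). So every `p` with `cr ((hF x)^[3] p) a = 0` has at most one critical point
among `p, hF x p, hF x (hF x p)`, so the local degree of the third iterate at `p` is at most `d`, so there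
are at least `d ^ 3 / d ≥ 4` different directions `p`. (Elementary version: `f⁻¹(a)` has two points or is one
critical point `c`; a point which is the forward image of a critical point under `f` or `f²` ... ; each
non-critical-value has `d` preimages: there is always a tree with at least three different leaves.)
Uniform separation: by compactness of the sphere of directions and openness (if `a_n → a` and
`b₁, b₂, b₃` are different preimages of `a`, there are preimages of `a_n` near them, since a nonconstant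
polynomial map is open / by continuity of the roots). -/
def S_TRIP : Prop :=
  ∀ (d : ℕ) (x : CV d), 2 ≤ d → ND x → CE x → ∃ σ > (0 : ℝ), ∀ a : ℂ × ℂ, a ≠ 0 →
    ∃ b : Fin 3 → ℂ × ℂ, (∀ i, b i ≠ 0 ∧ cr ((hF x)^[3] (b i)) a = 0) ∧
      ∀ i j, i ≠ j → σ ≤ cho (b i) (b j)

/-- **Density of the preimages of the critical points.** (Assume `S_CHO`, `S_MM`.)

Proof. Suppose there are `δ`, `p` such that no `q` with `cho p q < δ` is mapped to a critical point by an iterate.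
Let `E` be the set of the critical points and of their preimages under `f`. It has at least three
points: there are at least two critical points (the multiplicity is at most `d - 1`, the total
`2 d - 2`), and their preimages are not critical (`CE`), and at least two. The iterates omit `E` on
this disc, so by `S_MM` (in the chart: `h w = (hF x)^[n] (q + w q')`) the spherical derivatives of all iterates
are bounded by a constant on the disc of half the radius, so the iterates are equicontinuous at `p`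
(`cho` along a curve is at most the integral of the speed), contradiction to `Jul x p`. -/
def S_DCR : Prop :=
  ∀ (d : ℕ) (x : CV d), 2 ≤ d → ND x → CE x → (∀ p : ℂ × ℂ, p ≠ 0 → Jul x p) → DCR x

/-- **Topological exactness.** (Assume `S_CHO`, `S_MM`, `S_TRIP`.)

Proof. Let `δ > 0`, cover the sphere by finitely many discs of radius `δ / 2`; it is enough to treat one disc
`B(p, δ/2)`. By `DCR` there are `q` in it and `m` with `(hF x)^[m] q` critical (`m` minimal or not); put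
`v = (hF x)^[m+1] q`, a critical value. The image of the disc under the iterate `m + 1` contains a disc
`B(v, δ₁)` (open mapping; the map is a nonconstant rational map). On it (in a chart) let
`h w = (hF x)^[j] (v + w v')`; its speed at `v` is `sdn x j v * (speed of the chart) → ∞` by `CE`. By `S_MM` (with
`σ` of `S_TRIP`), for all `j ≥ j₀` it cannot omit the triple `b` of any `a`, so for every `a` there is a point of
the disc with `cr ((hF x)^[j+3] ·) a = 0`. -/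
def S_LEO : Prop :=
  ∀ (d : ℕ) (x : CV d), 2 ≤ d → ND x → CE x → DCR x → LEO x

/-- **Critical points mapped to critical points: hyperbolic.**

Proof. Starting with a critical point `c` we get critical points `c = c₀, c₁, c₂, …`, each mapped to the
next one by a positive iterate. There are finitely many critical directions (`StWR`: zeros of a nonzero
form, `wr x ≠ 0` for `ND x`), so two of them coincide: `c` is mapped by an iterate to a critical point
`c'` which is periodic: `(hF x)^[n] c' ∥ c'`, `n ≥ 1`. Then `c'` is a superattracting fixed point of the `n`-th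
iterate, in particular topologically attracting (in a chart at `c'` the derivative is zero), and the
orbit of `c` converges (under `n k`-th iterates) to a point of this cycle. See `StTOP`, `StSP`, `StINJL` (`TTOP`, `TSP`,
`TINJL` in `Pool/Graph/R_seed8/H790R3/RB/`): critical points of the sphere map are critical directions. -/
def S_HYPC : Prop :=
  ∀ (d : ℕ) (x : CV d), 2 ≤ d → ND x →
    (∀ c : ℂ × ℂ, c ≠ 0 → wr x c = 0 → ∃ n : ℕ, 1 ≤ n ∧ ∃ c' : ℂ × ℂ, c' ≠ 0 ∧ wr x c' = 0 ∧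
      cr ((hF x)^[n] c) c' = 0) → HypTop (sp x)

/-- **Normalisation.**

Proof. The critical orbits are countably many directions; choose a linear map `m` (close to the
identity, or any) of determinant `1` such that `m⁻¹ (1, 0)` is not one of them and not critical, and
conjugate: `y = cj m x` (`StCJ`, `TCJ.lean` in RB). All the hypotheses are invariant: `wr` of `m ∘ F ∘ m⁻¹` at
`m p` is `wr x p` (determinant `1`), `N2` changes by bounded factors (so `sdn` changes by a bounded factor: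
it telescopes), quartic forms are transformed to quartic forms. If `z` is close to `y` then `cj m⁻¹ z` is close
to `x` (linear), and `sp` are conjugate by a homeomorphism (`StMOB`, `TMOB.lean`), so `HypTop` is transported
(see the proofs at the end of `Pool/Graph/R_seed8/H790R3/RB/TALL.lean` or `TALLC.lean`). -/
def S_NORM : Prop :=
  ∀ (d : ℕ) (x : CV d), Hyp x →
    (∀ y : CV d, Hyp y → Nrm y → ∀ ε : ℝ, 0 < ε → ∃ z : CV d, ‖z - y‖ < ε ∧ ND z ∧ HypTop (sp z)) →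
    ∀ ε : ℝ, 0 < ε → ∃ z : CV d, ‖z - x‖ < ε ∧ ND z ∧ HypTop (sp z)

/-- **The critical points.**

Proof. `StWR` (`TWR.lean` in RB): `ζ ↦ wr x (ζ, 1)` is a polynomial with the coefficient `wr x (1, 0) ≠ 0` at the
degree `2 d - 2`; it splits; collect its roots. -/
def S_FACT : Prop :=
  ∀ (d : ℕ) (x : CV d), 2 ≤ d → wr x (1, 0) ≠ 0 → ∃ (k : ℕ) (c : Fin k → ℂ) (m : Fin k → ℕ),
    Fac x k c m

/-! ### Charts -/

/-- **Uniform domains.**

Proof. For a direction `p₀ ≠ 0` and `τ' = tau (hF x₀ p₀)` the denominator `dn τ' (hF x₀ (iot τ w))` is nonzero at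
`w = zc p₀`, with modulus `≥ δ₀` independent of `p₀` (`‖zc p‖ ≤ 1`, and `‖dn (tau q) q‖` is the maximum of
the two coordinates of `q`, `ND`, compactness). The expression is uniformly continuous in `(s, w)` for `‖w‖ ≤ 2`,
`‖s‖ ≤ ρ / 2`. -/
def S_UNIF : Prop :=
  ∀ (d k : ℕ) (x₀ : CV d) (X : (Fin k → ℂ) → CV d) (ρ : ℝ), 2 ≤ d → ND x₀ → 0 < ρ →
    DifferentiableOn ℂ X (ball 0 ρ) → X 0 = x₀ → ∃ ρ' > (0 : ℝ), ρ' ≤ ρ ∧ ∃ M : ℝ,
      ∀ p : ℂ × ℂ, p ≠ 0 → ∀ s ∈ ball (0 : Fin k → ℂ) ρ', ∀ w ∈ ball (zc p) ρ',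
        dn (tau (hF x₀ p)) (hF (X s) (iot (tau p) w)) ≠ 0 ∧
        cr (hF (X s) (iot (tau p) w))
          (iot (tau (hF x₀ p)) (GG (X s) (tau p) (tau (hF x₀ p)) w)) = 0 ∧
        ‖GG (X s) (tau p) (tau (hF x₀ p)) w‖ ≤ M ∧
        DifferentiableAt ℂ (fun q : (Fin k → ℂ) × ℂ => GG (X q.1) (tau p) (tau (hF x₀ p)) q.2)
          (s, w)

/-- **Derivatives in the charts.**

Proof. `GG` is a quotient of the two components of `hF`; `cr` of the derivative and the value divided by the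
square of the denominator; then Euler and `StWR` (third part) for the derivative in `w`:
`d * cr (fderiv (hF x) p e) (hF x p) = wr x p * cr e p` (`e = (1, 0)` or `(0, 1)`). -/
def S_DER : Prop :=
  ∀ (d k : ℕ) (τ τ' : Bool) (w : ℂ), 2 ≤ d →
    (∀ x : CV d, dn τ' (hF x (iot τ w)) ≠ 0 → HasDerivAt (GG x τ τ')
      (sg τ * sg τ' * wr x (iot τ w) / ((d : ℂ) * dn τ' (hF x (iot τ w)) ^ 2)) w) ∧
    ∀ (X : (Fin k → ℂ) → CV d) (c : (Fin k → ℂ) → ℂ) (b : Fin k → ℂ), DifferentiableAt ℂ X 0 →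
      DifferentiableAt ℂ c 0 →
      (dn τ' (hF (X 0) (iot τ w)) ≠ 0 → fderiv ℂ (fun s => GG (X s) τ τ' w) 0 b =
        sg τ' * cr (hF (fderiv ℂ X 0 b) (iot τ w)) (hF (X 0) (iot τ w)) /
          dn τ' (hF (X 0) (iot τ w)) ^ 2) ∧
      (dn τ' (hF (X 0) (c 0, 1)) ≠ 0 → wr (X 0) (c 0, 1) = 0 →
        fderiv ℂ (fun s => lc τ' (hF (X s) (c s, 1))) 0 b =
          sg τ' * cr (hF (fderiv ℂ X 0 b) (c 0, 1)) (hF (X 0) (c 0, 1)) /
            dn τ' (hF (X 0) (c 0, 1)) ^ 2)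

/-- **Distortion in the charts.** (Assume `S_DER`, `S_UNIF`.) The distance to the critical points is `xx`.

Proof. By `S_DER` the derivative in `w` is
`± wr (X s) (iot τ w) / (d dn²)`, and `wr (X s) (iot τ w)` is (by `fac` and homogeneity)
`wr (X s) (1, 0) * ∏ i (cr (iot τ w) (c i s, 1)) ^ m i`. Each factor: `|cr (iot τ w) (c i s, 1) - cr (iot τ z) (c i 0, 1)| ≤
C (‖s‖ + |w - z|)`, and `|cr (iot τ z) (c i 0, 1)| ≥ c xx`, so the ratio of the factors is
`1 + O((‖s‖ + |w - z|) / xx)`; the other factors `wr (X s) (1, 0)`, `dn ^ (-2)` are nonzero and Lipschitz with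
uniform constants, and `xx ≤ 1`. The bound `C * xx`: one of the factors is `≤ C xx`. -/
def S_DIST : Prop :=
  ∀ (d k : ℕ) (x₀ : CV d) (c₀ : Fin k → ℂ) (m : Fin k → ℕ) (X : (Fin k → ℂ) → CV d)
    (c : Fin k → (Fin k → ℂ) → ℂ) (ρ : ℝ), 2 ≤ d → ND x₀ → wr x₀ (1, 0) ≠ 0 → Fac x₀ k c₀ m →
    Fami x₀ k c₀ m X c ρ → ∃ ρ' > (0 : ℝ), ∃ K ≥ (1 : ℝ), ∀ (p : ℂ × ℂ) (xx : ℝ), p ≠ 0 →
      0 < xx → (∀ i, xx ≤ cho p (c₀ i, 1)) → (∃ i, cho p (c₀ i, 1) ≤ xx) →
        ‖deriv (GG x₀ (tau p) (tau (hF x₀ p))) (zc p)‖ ≤ K * xx ∧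
        deriv (GG x₀ (tau p) (tau (hF x₀ p))) (zc p) ≠ 0 ∧
        ∀ s ∈ ball (0 : Fin k → ℂ) ρ', ∀ w ∈ ball (zc p) ρ', ‖s‖ + ‖w - zc p‖ ≤ xx / K →
          ‖deriv (GG (X s) (tau p) (tau (hF x₀ p))) w -
            deriv (GG x₀ (tau p) (tau (hF x₀ p))) (zc p)‖ ≤
            K * ‖deriv (GG x₀ (tau p) (tau (hF x₀ p))) (zc p)‖ * ((‖s‖ + ‖w - zc p‖) / xx)

/-- **The derivatives along the critical orbits, and the functionals, in the charts.** (Assume
`S_DER`, `S_CHO`.) Here `O n = qo x₀ c (n + 1)` is the orbit of the critical value.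

Proof. `qo x₀ c (n+1) = t n • iot (τ n) (z n)`, `t n = dn (τ n) (O n)`. By `S_DER` the derivative of
`GG x₀ (τ n) (τ (n+1))` at `z n` is `sg sg wr x₀ (iot ..) / (d dn²)`, `wr x₀ (O n) = t n ^ (2 d - 2) wr x₀ (iot ..)`,
`t (n+1) = t n ^ d * dn (τ (n+1)) (hF x₀ (iot ..))`. Hence `DD f z n = sg (τ 0) sg (τ n) (t 0)² / (t n)² * Lam x₀ c n`,
and `|DD f z n| = sdn x₀ n (O 0) * N2 (iot (τ n) (z n)) / N2 (iot (τ 0) (z 0))` (telescoping; `N2` of both is between `1`
and `2`), which gives the growth. Each term of the sum in `fn` is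
`sg (τ 0) / (t 0)² * hst x₀ c (fderiv X 0 b) (j + 1)`, and `fderiv v 0 b` is `sg (τ 0) / (t 0)² * hst .. 0`. The series `HS`
converges absolutely: its terms are bounded by `C / sdn x₀ j (O 0)`. So `κ = sg (τ 0) / (t 0)²`. -/
def S_FUNC : Prop :=
  ∀ (d k : ℕ) (x₀ : CV d) (c : ℂ), 2 ≤ d → ND x₀ → CE x₀ → wr x₀ (c, 1) = 0 →
    (∀ b, Summable (hst x₀ c b)) ∧
    ∃ κ : ℂ, κ ≠ 0 ∧ ∃ K > (0 : ℝ), ∃ μ > (1 : ℝ),
      ∀ (X : (Fin k → ℂ) → CV d) (cc : (Fin k → ℂ) → ℂ), DifferentiableAt ℂ X 0 → X 0 = x₀ →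
        DifferentiableAt ℂ cc 0 → cc 0 = c →
        ∀ (f : ℕ → (Fin k → ℂ) → ℂ → ℂ) (v : (Fin k → ℂ) → ℂ) (z : ℕ → ℂ),
          (f = fun n s w => GG (X s) (tau (qo x₀ c (n + 1))) (tau (qo x₀ c (n + 2))) w) →
          (v = fun s => lc (tau (qo x₀ c 1)) (hF (X s) (cc s, 1))) →
          (z = fun n => zc (qo x₀ c (n + 1))) →
          (∀ n, K * μ ^ n ≤ ‖DD f z n‖) ∧
          ∀ b : Fin k → ℂ, Tendsto (fun n : ℕ => fderiv ℂ v 0 b +
            ∑ j ∈ Finset.range n, fderiv ℂ (fun s => f j s (z j)) 0 b / DD f z (j + 1)) atTop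
              (𝓝 (κ * HS x₀ c (fderiv ℂ X 0 b)))

/-- **Targets at critical points.** (elementary)

Proof. If `cho p (c₀ i, 1) ≤ η` is small then `(c₀ i, 1)` is in the domain of the chart `tau p`, with a denominator
bounded from below, also `(c i s, 1)` for small `s`, and the coordinate map is Lipschitz there. -/
def S_TG1 : Prop :=
  ∀ (d k : ℕ) (x₀ : CV d) (c₀ : Fin k → ℂ) (m : Fin k → ℕ) (X : (Fin k → ℂ) → CV d)
    (c : Fin k → (Fin k → ℂ) → ℂ) (ρ : ℝ), Fami x₀ k c₀ m X c ρ →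
    ∃ η > (0 : ℝ), ∃ A > (0 : ℝ), ∃ ρ₁ > (0 : ℝ), ρ₁ ≤ ρ ∧ ∃ L : ℝ, ∀ (p : ℂ × ℂ) (i : Fin k),
      p ≠ 0 → cho p (c₀ i, 1) ≤ η → ∃ q : (Fin k → ℂ) → ℂ, IsT q ρ₁ L ∧
        ‖q 0 - zc p‖ ≤ A * cho p (c₀ i, 1) ∧
        ∀ s ∈ ball (0 : Fin k → ℂ) ρ₁, cr (iot (tau p) (q s)) (c i s, 1) = 0

/-- **Targets everywhere.**

Proof. By `DCR` there is, near any point `iot τ z`, a point `iot τ z'` with `wr x₀ ((hF x₀)^[n] (iot τ z')) = 0`; take `n`
minimal, so that the points before are not critical, and `(hF x₀)^[n] (iot τ z') ∥ (c₀ j, 1)` (`Fac`; `∞` is not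
critical). The holomorphic equation `cr ((hF (X s))^[n] (iot τ w)) (c j s, 1) = 0` has a simple zero `w = z'` at
`s = 0` (chain rule: the derivative in `w` is, up to nonzero factors, the product of the `wr` at the noncritical
points), so by the implicit function theorem (Mathlib; or Rouché/Hurwitz) there is a solution
`w = q s`, holomorphic, so Lipschitz near `0`. By compactness finitely many `(τ, z')` suffice for all `z`. -/
def S_TG2 : Prop :=
  ∀ (d k : ℕ) (x₀ : CV d) (c₀ : Fin k → ℂ) (m : Fin k → ℕ) (X : (Fin k → ℂ) → CV d)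
    (c : Fin k → (Fin k → ℂ) → ℂ) (ρ : ℝ), 2 ≤ d → ND x₀ → DCR x₀ → wr x₀ (1, 0) ≠ 0 →
    Fac x₀ k c₀ m → Fami x₀ k c₀ m X c ρ → ∀ ε > (0 : ℝ), ∃ ρ₁ > (0 : ℝ), ρ₁ ≤ ρ ∧ ∃ L : ℝ,
      ∀ (τ : Bool) (z : ℂ), ‖z‖ ≤ 1 → ∃ q : (Fin k → ℂ) → ℂ, IsT q ρ₁ L ∧ ‖q 0 - z‖ ≤ ε ∧
        ∃ (n : ℕ) (j : Fin k), ∀ s ∈ ball (0 : Fin k → ℂ) ρ₁,
          cr ((hF (X s))^[n] (iot τ (q s))) (c j s, 1) = 0

/-! ### The family and the functionals -/

/-- **The stratum of `x₀`** is a manifold near `x₀`, with the expected tangent space.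

Proof. Let `W_x ζ = wr x (ζ, 1)`. Unknowns: `x ∈ CV d`, `c ∈ ℂ^k`; equations `W_x^{(l)}(c i) = 0` for `0 ≤ l < m i`
(`2 d - 2` equations); they say `∏ (ζ - c i)^(m i) ∣ W_x`, i.e. the conclusion `fac` (degrees). At `(x₀, c₀)` the
derivative is onto: let `u = Up x₀ δ` (numerator of the variation of `f = P / Q` for the variation `δ`). Since
`f' = W / (d Q²)`, `δW / d = Q² (u / Q²)' + 2 (W / d) δQ / Q`, so modulo `(ζ - c i)^(m i)`: `δW = d Q² (u / Q²)'`. The
`u` range over all polynomials of degree `≤ 2 d` (Bezout, `ND`), so by Hermite interpolation at the `c i` (total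
order `2 d - 2`) the values `(u / Q²)^{(l)} (c i)`, `0 ≤ l < m i`, are arbitrary, so `δW^{(l)} (c i)`, `l < m i - 1`, are arbitrary;
and the equation with `l = m i - 1` is taken care of by moving `c i`: `W^{(m i)} (c₀ i) ≠ 0`. Complete a linear
complement of the tangent space to coordinates and apply the implicit function theorem (holomorphic:
`HasStrictFDerivAt`, and `C¹` in the complex sense gives holomorphic) to get a family `X s`, `c s` with
`X 0 = x₀`, derivative `b l` in the direction `l` (the variation of `c` is determined): the hypothesis `Tng` on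
`Up x₀ (b l)` says exactly that `b l` can be completed to a tangent vector. `ND` is an open condition. -/
def S_FAM : Prop :=
  ∀ (d k : ℕ) (x₀ : CV d) (c₀ : Fin k → ℂ) (m : Fin k → ℕ) (b : Fin k → CV d), 2 ≤ d → ND x₀ →
    wr x₀ (1, 0) ≠ 0 → Fac x₀ k c₀ m → (∀ i, (pol x₀ 1).eval (c₀ i) ≠ 0) →
    (∀ l, Tng (pol x₀ 1) c₀ m (Up x₀ (b l))) →
    ∃ (ρ : ℝ) (X : (Fin k → ℂ) → CV d) (c : Fin k → (Fin k → ℂ) → ℂ), Fami x₀ k c₀ m X c ρ ∧
      ∀ l, fderiv ℂ X 0 (Pi.single l 1) = b l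

/-- **The orbits in the plane.** (Assume `S_CHO`, `S_FUNC`.)

Proof. `wr x (ζ, 1) = d * (P' Q - P Q')(ζ)`, `hF x (ζ, 1) = (P ζ, Q ζ)` (`StPQ`, `TPQ.lean`, in RB; Euler).
`v i j` is the plane coordinate of `qo x (c i) (j + 1)` (`Nrm`), `α i j` is the inverse of the derivative of `f^j` at
`v i 0`; `|α i j| (1 + |v i j|²) = (1 + |v i 0|²) / sdn x j (..)`. With `qo x (c i) j = t j • (x j, 1)` the terms of `HS` are
`t 1 ^ 2 = Q (c i) ^ 2` times the terms of `WF` (`t (j+1) = t j ^ d Q (x j)`). -/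
def S_ORBS : Prop :=
  ∀ (d k : ℕ) (x : CV d) (c : Fin k → ℂ) (m : Fin k → ℕ), 2 ≤ d → ND x → CE x → Nrm x →
    Fac x k c m → ∃ (v α : Fin k → ℕ → ℂ) (K μ : ℝ), Orbs (pol x 0) (pol x 1) d k c m v α K μ ∧
      ∀ (i : Fin k) (b : CV d), HS x (c i) b =
        (pol x 1).eval (c i) ^ 2 * WF (pol x 0) (pol x 1) c v α i (Up x b)

/-- **Dual vectors.**

Proof. The `S` of degree `≤ 2 d` with `Tng Q c m S` form a finite dimensional space, on which the linear
functionals `WF .. i` (linear: the series converge absolutely, `|S / W| |α| ≤ C (1 + |v|²) |α| ..`; this is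
`|S (v)| ≤ C (1 + |v|²)^d ≤ C' (|P|² + |Q|²)(v)` and the next derivative) are linearly independent by hypothesis,
so there are `S l` with `WF i (S l) = δ` (`Module`: a linearly independent finite family in the dual has a dual
family). Every polynomial `S` of degree `≤ 2 d` is `Up x b` for some `b` (Bezout: `P, Q` coprime of maximal
degree `d`; the map `(A, B) ↦ A Q - B P`, degrees `≤ d`, has the kernel `ℂ (P, Q)`; dimensions
`2 d + 2 - 1 = 2 d + 1`). Rescale by `Q (c i) ^ 2`. -/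
def S_DUAL : Prop :=
  ∀ (d k : ℕ) (x : CV d) (c : Fin k → ℂ) (m : Fin k → ℕ) (v α : Fin k → ℕ → ℂ) (K μ : ℝ), 2 ≤ d →
    ND x → Orbs (pol x 0) (pol x 1) d k c m v α K μ →
    (∀ β : Fin k → ℂ, (∀ S : ℂ[X], S.natDegree ≤ 2 * d → Tng (pol x 1) c m S →
      ∑ i, β i * WF (pol x 0) (pol x 1) c v α i S = 0) → β = 0) →
    ∃ b : Fin k → CV d, (∀ l, Tng (pol x 1) c m (Up x (b l))) ∧
      ∀ i l, (pol x 1).eval (c i) ^ 2 * WF (pol x 0) (pol x 1) c v α i (Up x (b l)) =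
        if l = i then 1 else 0

/-- **Invariance under the Ruelle operator, and vanishing moments.**

Proof. As `D2_inv`, `D1_pf` in `Pool/Graph/R_seed8/H792R2/CE/D1.lean`, `D2.lean` (namespace
`Pool.Agent.H792R2.CE`, `wr P Q` there is `Wp P Q` here; `D2_inv` is the case of one critical orbit, with
coefficient one, adapt its proof). For `z` outside a countable set: test with the polynomial `S = S_z` of
`D1_pf`: `Q ^ 3 / (P - z Q) = S + W ∑_w Q(w)^4 / W(w)^2 / (· - w)`. It satisfies `Tng`: modulo `(X - c i)^(m i)` we have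
`W = 0`, `P - z Q = (f (c i) - z) Q` (`f - f (c i)` vanishes to the order `m i + 1` at `c i`), so
`S = Q² / (f (c i) - z)`. Moments: test with `S = W`, `W X`, `W X ^ 2` (degree `≤ 2 d`, `Tng` with `a = 0`). The
almost everywhere summability of the Cauchy series at `z` and at the preimages `w` of `z`: `D3b_ae`
(`D3.lean`), and preimages of null sets are null / images of null sets under `f` are null. -/
def S_INV : Prop :=
  ∀ (P Q : ℂ[X]) (d k : ℕ) (c : Fin k → ℂ) (m : Fin k → ℕ) (v α : Fin k → ℕ → ℂ) (K μ : ℝ)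
    (β : Fin k → ℂ), Orbs P Q d k c m v α K μ →
    (∀ S : ℂ[X], S.natDegree ≤ 2 * d → Tng Q c m S → ∑ i, β i * WF P Q c v α i S = 0) →
    (∀ᵐ z : ℂ, HH v α β z = ∑ w ∈ (P - C z * Q).roots.toFinset,
      Q.eval w ^ 4 / (Wp P Q).eval w ^ 2 * HH v α β w) ∧
    (∑ i, β i * ∑' j, α i j = 0) ∧ (∑ i, β i * ∑' j, α i j * v i j = 0) ∧
    ∑ i, β i * ∑' j, α i j * v i j ^ 2 = 0

/-- **Integrability.**

Proof. Local bound: `∫_{ball y ρ} 1 / |z - p| ≤ 2 π ρ` for all `p` (or with some constant; `D3.lean`, and `scale` in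
`D6.lean`), so `∫_{ball y ρ} |H| ≤ C ρ ∑ |α|`. Near infinity, by the vanishing moments
`H z = ∑ β α v³ / (z³ (z - v))` (identity `1/(z-v) = 1/z + v/z² + v²/z³ + v³/(z³(z-v))`), and
`∫_{|z| > 1} |v|³ / (|z|³ |z - v|) dA ≤ C (1 + |v|²)` uniformly in `v` (split at `|z| = |v| / 2` and `|z| = 2 |v|`), and
`∑ |α| (1 + |v|²) < ∞` by `gr`. Measurability: as in `D3c_int`. The atomic form: enumerate
`Fin k × ℕ` by `ℕ` (if `k = 0` take `a = 0`), `a = β i α i j`, `p = v i j`. -/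
def S_L1 : Prop :=
  ∀ (P Q : ℂ[X]) (d k : ℕ) (c : Fin k → ℂ) (m : Fin k → ℕ) (v α : Fin k → ℕ → ℂ) (K μ : ℝ)
    (β : Fin k → ℂ), Orbs P Q d k c m v α K μ →
    (∑ i, β i * ∑' j, α i j = 0) → (∑ i, β i * ∑' j, α i j * v i j = 0) →
    (∑ i, β i * ∑' j, α i j * v i j ^ 2 = 0) →
    Measurable (HH v α β) ∧ ∫⁻ z : ℂ, ‖HH v α β z‖ₑ ≠ ⊤ ∧
    (∃ K' : ℝ, ∀ (y : ℂ) (ρ : ℝ), 0 < ρ →
      ∫⁻ z in ball y ρ, ‖HH v α β z‖ₑ ≤ ENNReal.ofReal (K' * ρ)) ∧
    ∃ a p : ℕ → ℂ, (Summable fun j => ‖a j‖) ∧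
      ∀ᵐ z : ℂ, (Summable fun j => ‖a j / (z - p j)‖) ∧ HH v α β z = ∑' j, a j / (z - p j)

/-- **The masses vanish.**

Proof. By `D6_unique` (`D6.lean`; for the sequence enumerated as in `S_L1`) all the total masses
`∑_{(i,j) : v i j = p} β i α i j` vanish. Let `S` have `natDegree ≤ 2 d` and `Tng Q c m S` with the constants `a i`; then
`∑ i β i ∑' j S(v i j) / W(v i j) α i j = 0` (group the absolutely convergent sum by the value of `v i j`), so the
hypothesis says `∑ i β i a i = 0` (as `S(c i) / Q(c i)² = a i`). By the Chinese remainder theorem (the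
polynomials `(X - c i)^(m i)` are coprime, total degree `2 d - 2`) there is, for every `i₀`, such an `S` of degree
`< 2 d - 2` with `S = Q²` modulo `(X - c i₀)^(m i₀)` and `S = 0` modulo the others. So `β i₀ = 0`. -/
def S_ZERO : Prop :=
  ∀ (P Q : ℂ[X]) (d k : ℕ) (c : Fin k → ℂ) (m : Fin k → ℕ) (v α : Fin k → ℕ → ℂ) (K μ : ℝ)
    (β : Fin k → ℂ), Orbs P Q d k c m v α K μ →
    (∀ S : ℂ[X], S.natDegree ≤ 2 * d → Tng Q c m S → ∑ i, β i * WF P Q c v α i S = 0) →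
    (∀ᵐ z : ℂ, HH v α β z = 0) → β = 0

/-- **The line field theorem** (part 2). -/
def S_LINE : Prop :=
  ∀ (d : ℕ) (x : CV d) (H : ℂ → ℂ) (K : ℝ), 2 ≤ d → ND x → CE x → Nrm x → LEO x → Fix x H K →
    ¬ (∀ᵐ z : ℂ, H z = 0) → Lat x

/-- **The main theorem, in terms of coefficient vectors.** -/
def S_MAIN : Prop :=
  ∀ (d : ℕ) (x : CV d), Hyp x → ∀ ε : ℝ, 0 < ε → ∃ z : CV d, ‖z - x‖ < ε ∧ ND z ∧ HypTop (sp z)

end Pool.Agent.H211.HY
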