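import Pool.Agent.H211.HY.Stm2

/-!
# Statements, part 3: if all critical points are Collet-Eckmann then the Julia set is the sphere
-/

set_option autoImplicit false

open Topology Filter Metric Set MeasureTheory Polynomial

namespace Pool.Agent.H211.HY

open Pool.Agent.H790R3.RB

/-- `g` is a branch of the inverse of the `n`-th iterate on a ball in the chart `τ` -/
def BrT {d : ℕ} (x : CV d) (n : ℕ) (τ : Bool) (y : ℂ) (R : ℝ) (g : ℂ → ℂ × ℂ) : Prop :=
  DifferentiableOn ℂ g (ball y R) ∧ ∀ w ∈ ball y R, g w ≠ 0 ∧ cr ((hF x)^[n] (g w)) (iot τ w) = 0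

/-- Discs around points of the Julia set are mapped onto the sphere. -/
def LEOJ {d : ℕ} (x : CV d) : Prop :=
  ∀ δ > (0 : ℝ), ∃ N : ℕ, ∀ n ≥ N, ∀ p a : ℂ × ℂ, p ≠ 0 → Jul x p → a ≠ 0 →
    ∃ q : ℂ × ℂ, q ≠ 0 ∧ cho p q < δ ∧ cr ((hF x)^[n] q) a = 0

/-- Orbits outside the Julia set stay away from it in the end. -/
def DEEP {d : ℕ} (x : CV d) : Prop :=
  ∃ ϱ > (0 : ℝ), ∀ η > (0 : ℝ), ∃ N : ℕ, ∀ n ≥ N, ∀ z : ℂ × ℂ, z ≠ 0 →
    (∀ q : ℂ × ℂ, q ≠ 0 → Jul x q → η < cho z q) →
    ∀ q : ℂ × ℂ, q ≠ 0 → Jul x q → ϱ ≤ cho ((hF x)^[n] z) q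

/-- **Basic facts on the Julia set.** (Assume `S_CHO`, proved in `Pool/Agent/H747/HY211/CHO.lean`.)

Proof. (iv) If `¬ Jul x p` take `ε = 1/4`: there is `δ` such that for `cho p q < δ` all
`cho ((hF x)^[n] p) ((hF x)^[n] q) < 1/4`. In the coordinate `cr (·) u / cr (·) u'` (`u` the unit vector of
`(hF x)^[n] p`, `u'` orthogonal to it) the `n`-th iterate is a bounded holomorphic function on the disc, so by
Cauchy its derivative is bounded on a smaller disc, and the spherical derivative is comparable. (i) By (iv) the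
iterates are equicontinuous at all points of a disc about a point which is not in the Julia set (`cho` along a
segment in a chart is at most the integral of the speed; see `cho_le_of_spd`, `param` in
`Pool/Agent/H263/HY211/DCR.lean`). (ii) Continuity and openness of `hF x` on directions (openness: `open1` in
`Pool/Agent/H400/HY211/TRIP.lean`). (iii) Clear. (v) If `¬ Jul x c` then `¬ Jul x (hF x c)` by (ii), and
`sdn x n (hF x c)` is bounded by (iv), contradiction to `CE`. -/
def S_JUL : Prop :=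
  ∀ (d : ℕ) (x : CV d), 2 ≤ d → ND x →
    (∀ p : ℂ × ℂ, p ≠ 0 → (∀ δ > (0 : ℝ), ∃ q : ℂ × ℂ, q ≠ 0 ∧ cho p q < δ ∧ Jul x q) → Jul x p) ∧
    (∀ p : ℂ × ℂ, p ≠ 0 → (Jul x (hF x p) ↔ Jul x p)) ∧
    (∀ p q : ℂ × ℂ, p ≠ 0 → q ≠ 0 → cr p q = 0 → Jul x p → Jul x q) ∧
    (∀ p : ℂ × ℂ, p ≠ 0 → ¬ Jul x p → ∃ δ > (0 : ℝ), ∃ K : ℝ, ∀ q : ℂ × ℂ, q ≠ 0 → cho p q < δ →
      ∀ n : ℕ, sdn x n q ≤ K) ∧
    (CE x → ∀ c : ℂ × ℂ, c ≠ 0 → wr x c = 0 → Jul x c)

/-- **Topological exactness on the Julia set.** (Assume `S_CHO`, `S_MM`, `S_TRIP`, `S_JUL`.)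

Proof. As `S_DCR` and `S_LEO` (proved in `Pool/Agent/H263/HY211/DCR.lean` and by helper746, `t_LEO`): for a
direction `p` in the Julia set every disc about it contains a point `q` with `(hF x)^[m] q` critical (otherwise the
iterates omit the critical points and their preimages on this disc, so they are equicontinuous at `p`). Then the
image of the disc under the iterate `m + 1` contains a disc about a critical value `v`, and the spherical
derivatives at `v` tend to infinity; by `S_MM` and `S_TRIP` all the iterates from some time on map the disc onto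
the sphere. Uniformity in `p`: the Julia set is closed (`S_JUL`), so finitely many discs of radius `δ / 2` about
points of the Julia set cover it. -/
def S_LEOJ : Prop := ∀ (d : ℕ) (x : CV d), 2 ≤ d → ND x → CE x → LEOJ x

/-- **Omitted points.** (Assume `S_CHO`, `S_JUL`.) As `S_OMIT` (`Pool/Agent/H51/HY211/OMIT.lean`), in any chart.

Proof. There are two different critical directions `c₁, c₂` (the multiplicity of a critical point is at most
`d - 1`, the total is `2 d - 2`), both in the Julia set by `S_JUL`; let `4 δ₀ = cho c₁ c₂`, so for every `a` one of them,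
`c`, has `cho c a ≥ 2 δ₀`. By `LEOJ` with `δ = δ₀` for `n ≥ N` there is `q` with `cho c q < δ₀` and
`(hF x)^[n] q` parallel to the point at infinity of the chart `τ` (`(1, 0)` resp. `(0, 1)`); `cho q a ≥ δ₀`. For the
finitely many `n < N` argue by compactness as in `S_OMIT`. -/
def S_OMITJ : Prop :=
  ∀ (d : ℕ) (x : CV d), 2 ≤ d → ND x → CE x → LEOJ x → ∃ δ₀ > (0 : ℝ), ∃ R₁ > (0 : ℝ),
    ∀ (n : ℕ) (τ : Bool) (y : ℂ) (a : ℂ × ℂ), a ≠ 0 →
      ∃ q : ℂ × ℂ, q ≠ 0 ∧ δ₀ ≤ cho q a ∧ ∀ w ∈ ball y R₁, cr ((hF x)^[n] q) (iot τ w) ≠ 0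

/-- **Univalent branches which touch the Julia set shrink.** (Assume `S_CHO`, `S_JUL`, `S_OMITJ`.)

Proof. As `S_SHR` (`Pool/Agent/H390/HY211/SHR.lean`). Let `R₁`, `δ₀` be given by `S_OMITJ` for the direction `a = g u`: there is
an omitted direction `q`, `cho q (g u) ≥ δ₀`; `h w = cr (g w) a* / cr (g w) q*` (unit vectors) is holomorphic and
injective on `ball y R`, `h u = 0`. By Koebe on `ball u (7 R / 8)` its image contains the disc of radius
`c |h' u| R`, so the image of `g` contains a chordal disc about `g u ∈ J` of radius `c' min 1 (|h' u| R)`. The point at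
infinity of the chart is not in `ball y R`, so by `LEOJ` this radius is `< η'` for `m ≥ T(η')`; and
`|h y| ≤ C |h' u| R` by Koebe, so `cho (g u) (g y) ≤ C' η'`. -/
def S_SHJ : Prop :=
  ∀ (d : ℕ) (x : CV d), 2 ≤ d → ND x → CE x → LEOJ x → ∃ R₁ > (0 : ℝ), ∀ η > (0 : ℝ), ∃ T : ℕ,
    ∀ m ≥ T, ∀ (τ : Bool) (y : ℂ) (R : ℝ) (g : ℂ → ℂ × ℂ), 0 < R → R ≤ R₁ → BrT x m τ y R g →
      ∀ u ∈ ball y (R / 8), Jul x (g u) → cho (g u) (g y) < η

/-- **Hit lemma with local degrees, in any chart.** (Assume `S_CHO`, `S_LIFT`, `S_OMITJ`.)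

Proof. As `S_HIT` (see `Pool/Agent/H734/HY211/HIT.lean`, adapt it): branches `g_j` on the balls of radius `RR R τ j` about
`y`, in the chart `τ` (the speed of `iot τ` at `w` is `1 / (1 + |w|²)`). If `w'` in the ball of radius `RR R τ (j+1)` has
`cr (g_j w') v = 0` for a critical value `v = hF x (c i, 1)`, then `cho ((hF x)^[j] v) (iot τ y) ≤ |w' - y| ≤ 2 R` and
`cho (g_j w) v ≤ C θ ^ j R / sdn x j v` on this ball (small, `R ≤ R₁`, as `sdn x j v ≥ c μ ^ j`, `θ < μ`). Near the critical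
value `v`: as `S_LSS` (`t_LSS`), but with local degrees: there are `C`, `s₀` such that for `z₁ ≠ 0`, `cho (hF x z₁) v < s₀`, either
there is a critical point `c i'` with `hF x (c i', 1)` parallel to `v` and `cho z₁ (c i', 1) ^ (m i' + 1) ≤ C cho (hF x z₁) v`
(hit with `i'`; note that `sdn x j (hF x (c i', 1)) = sdn x j v`, and `(hF x)^[j] (hF x (c i', 1))` is parallel to
`(hF x)^[j] v`), or maps into the disc of radius `s₀` about `v` can be lifted through `hF x` at `z₁`. -/
def S_HITL : Prop :=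
  ∀ (d k : ℕ) (x : CV d) (c : Fin k → ℂ) (m : Fin k → ℕ), 2 ≤ d → ND x → CE x → Nrm x →
    Fac x k c m → LEOJ x → ∃ μ > (1 : ℝ), ∃ c₀ > (0 : ℝ),
      (∀ (i : Fin k) (n : ℕ), c₀ * μ ^ n ≤ sdn x n (hF x (c i, 1))) ∧
      ∀ θ : ℝ, 1 < θ → θ < μ → ∃ C > (0 : ℝ), ∃ R₁ > (0 : ℝ), ∀ R : ℝ, 0 < R → R ≤ R₁ →
        ∀ (n : ℕ) (τ : Bool) (y : ℂ) (z : ℂ × ℂ), z ≠ 0 → cr ((hF x)^[n] z) (iot τ y) = 0 →
          (∃ g, BrT x n τ y R g ∧ cr (g y) z = 0) ∨
          ∃ j < n, ∃ i : Fin k, cho ((hF x)^[j] (hF x (c i, 1))) (iot τ y) ≤ 2 * R ∧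
            cho ((hF x)^[n - 1 - j] z) (c i, 1) ^ (m i + 1) * sdn x j (hF x (c i, 1)) ≤
              C * θ ^ j * R

/-- **Orbits outside the Julia set stay away from it.** (Assume `S_CHO`, `S_JUL`, `S_SHJ`, `S_HITL`.)

Proof. `ℓ i = m i + 1`, `L = max ℓ i`, `θ = √μ`, `κ = θ / μ`, `κ' = √κ`. Facts: (f1) `sd x z ≤ C₁ cho z (c i, 1) ^ m i` for
all `z ≠ 0` (the form `wr x` contains the factor `cr z (c i, 1) ^ m i`), so
`c₀ μ ^ (j+1) ≤ sdn x (j+1) v ≤ sdn x j v * C₁ cho ((hF x)^[j] v) (c l, 1) ^ m l` for a critical value `v`, all `l`.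
(f2) If `w ≠ 0` is in the chart `τ = tau w` with the coordinate `y = zc w` and `cho w q ≤ r` is small then `q` has in this
chart a coordinate `u` with `|u - y| ≤ A r`. Call `(m, l, R)` a state if `cho ((hF x)^[m] z) (c l, 1) ≤ R / (8 A)`,
`R ≤ R₁`. Apply `S_HITL` at the time `m` with the radius `R`. If there is a branch `g` on `ball y R` through `z` then the
coordinate `u` of `(c l, 1)` is in `ball y (R / 8)` and `g u` is in the Julia set (`S_JUL`: invariance, critical
points). Otherwise there is a hit `(j, i)`: `cho ((hF x)^[j] v) (c l, 1) ≤ 3 R`, `v = hF x (c i, 1)`, so by (f1)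
`sdn x j v ≥ c μ ^ (j+1) R ^ (- m l)`, and so `cho ((hF x)^[m-1-j] z) (c i, 1) ^ ℓ i ≤ C' κ ^ j R ^ ℓ l`: a new state
`(m - 1 - j, i, R')` with `R' ^ ℓ i = C'' κ ^ j R ^ ℓ l`. If `3 R < d_M = min {cho ((hF x)^[j] v) (c l, 1) : j < M}` (positive, since
critical values are never mapped to critical points: `sdn > 0`) then `j ≥ M`; fix `M` with
`C'' κ ^ j ≤ κ' ^ (j+1)` for `j ≥ M`: `R' ^ ℓ i ≤ κ' ^ (j+1) R ^ ℓ l`. Start: `q₀` in the Julia set with
`cho ((hF x)^[n] z) q₀ < ϱ`; apply `S_HITL` at the time `n` with `R = 8 A ϱ`: a branch `g` through `z` with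
`g u` in the Julia set, `u` the coordinate of `q₀`, or a first state `(n - 1 - j, i, R)`, `R ^ ℓ i ≤ C₅ κ' ^ (j+1) ϱ`. By strong
induction all states `(m, l, R)` which occur satisfy `R ^ ℓ l ≤ C₅ κ' ^ (n - m) ϱ`, so for `ϱ` small (fixed) all `R` are
small as required. The process ends (at the latest at the time `0`) with a branch at a state `(m, l, R)`, or at the
start. Given `η`: let `T` be given by `S_SHJ`; if `m ≥ T` then `cho z (g u) < η`, with `g u` in the Julia set. If
`m < T` then `R` is as small as we like for `n ≥ N`, and `(hF x)^[m] z` is `R`-close to the Julia set; by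
compactness (`Jul` is closed and completely invariant) `z` is `η`-close to the Julia set. -/
def S_DEEPJ : Prop :=
  ∀ (d k : ℕ) (x : CV d) (c : Fin k → ℂ) (m : Fin k → ℕ), 2 ≤ d → ND x → CE x → Nrm x →
    Fac x k c m → LEOJ x → DEEP x

/-- **The Julia set is the sphere.** (Assume `S_CHO`, `S_MM`, `S_JUL`, `S_LIFT`.)

Proof. Suppose some direction is not in the Julia set `J` (closed, `S_JUL`). `ϱ` from `DEEP`. Let
`e ∈ J` (a critical point), use a coordinate `ζ` of the sphere with `e = ∞`. `Ω = {dist(·, J) > ϱ / 2}` is open and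
bounded in this coordinate, `Γ = {dist(·, J) ≥ ϱ}` is compact, contained in `Ω`. By `DEEP` (with `η = ϱ / 2`), the
iterates `f^n`, `n ≥ N`, map `Ω` to `Γ`, and the orbit `w_n` of some point `z` outside `J` is in `Γ` for `n` large. Let
`w_{n_i} → q ∈ Γ`, `m_i = n_{i+1} - n_i → ∞`. By Montel for bounded functions (`montel` in
`Pool/Graph/R_seed8/Helper114/MontelSol.lean`) a subsequence of `f^{m_i}` converges locally uniformly on `Ω` to
`ψ : Ω → Γ`, and `ψ q = q`. By `S_EH` (`Pool/Agent/H211/AD/Stm5.lean`, proved in `Pool/Agent/H263/AD211/EH.lean`)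
`|ψ' q| < 1`, so for large `i` the map `f^m`, `m = m_i ≥ 1`, is a strict contraction of a small closed disc about `q` and has
a fixed point `p ∈ Ω`, with `λ = (f^m)' p`, `|λ| < 1`. No point outside `J` is critical, and the critical values are in
`J`; `J` is completely invariant; so by `S_LIFT` (repeatedly) there are branches `g_k` on a disc about `p` disjoint from `J`
of the inverse of `f^{m k}`, with `g_k p = p`, and values outside `J`. (In particular `λ ≠ 0`.) Then
`g_k' p = λ ^ (-k)` is unbounded, but by `S_MM` (three different points of `J`: critical points and a preimage of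
one of them, which is not critical) the speeds of the `g_k` at `p` are bounded: contradiction. -/
def S_NFE : Prop :=
  ∀ (d : ℕ) (x : CV d), 2 ≤ d → ND x → CE x → DEEP x → ∀ p : ℂ × ℂ, p ≠ 0 → Jul x p

/-- The hypotheses without the Julia set. -/
structure Hyp0 {d : ℕ} (x : CV d) : Prop where
  hd : 2 ≤ d
  nd : ND x
  ce : CE x
  lat : ¬ Lat x

/-- All critical points are mapped to critical points. -/
def PCF {d : ℕ} (x : CV d) : Prop :=
  ∀ c : ℂ × ℂ, c ≠ 0 → wr x c = 0 → ∃ n : ℕ, 1 ≤ n ∧ ∃ c' : ℂ × ℂ, c' ≠ 0 ∧ wr x c' = 0 ∧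
    cr ((hF x)^[n] c) c' = 0

/-- **Normalisation, second version**: as `S_NORM` (proved by helper922, adapt it), without the condition on the
Julia set, and with the additional property `PCF` (also invariant under linear conjugation). -/
def S_NORM2 : Prop :=
  ∀ (d : ℕ) (x : CV d), Hyp0 x →
    (∀ y : CV d, Hyp0 y → Nrm y → ∀ ε : ℝ, 0 < ε → ∃ z : CV d, ‖z - y‖ < ε ∧ ND z ∧
      HypTop (sp z) ∧ PCF z) →
    ∀ ε : ℝ, 0 < ε → ∃ z : CV d, ‖z - x‖ < ε ∧ ND z ∧ HypTop (sp z) ∧ PCF z

/-- **Critical directions are not points of local injectivity.**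

Proof. In coordinates: choose linear isomorphisms `A`, `B` of `ℂ²` with `A (0, 1) = p`, `B (hF x p) = (0, 1)`; the function
`ζ ↦ (B (hF x (A (ζ, 1)))).1 / (..).2` is holomorphic near `0`, with derivative zero at `0` (a multiple of `wr x p`;
Euler, third part of `StWR`), so it is not injective near `0` (a holomorphic function which is injective near a point has
nonzero derivative there: `deriv_ne_zero_of_injOn` in `Pool/Graph/R_seed8/Helper114/MontelSol.lean`), and `pr (A (ζ, 1))` is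
in any given neighbourhood of `pr p` for small `ζ` (`StSP`, `TSP.lean` in RB). -/
def S_NINJ : Prop :=
  ∀ (d : ℕ) (x : CV d) (p : ℂ × ℂ), 2 ≤ d → ND x → p ≠ 0 → wr x p = 0 →
    ¬ ∃ U ∈ 𝓝 (pr p), InjOn (sp x) U

end Pool.Agent.H211.HY
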