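import Pool.Agent.H211.HY.AsmD
import Pool.Agent.H211.HY.Stm3

/-! Assembly E: the main theorem with postcritically finite approximants, and without the
hypothesis on the Julia set -/

set_option autoImplicit false

open Topology Filter Metric Set MeasureTheory Polynomial

namespace Pool.Agent.H211.HY

open Pool.Agent.H790R3.RB

/-- **The main theorem**, second version. -/
def S_MAIN2 : Prop :=
  ∀ (d : ℕ) (x : CV d), Hyp0 x → ∀ ε : ℝ, 0 < ε → ∃ z : CV d, ‖z - x‖ < ε ∧ ND z ∧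
    HypTop (sp z) ∧ PCF z

theorem main_nrm2 (hSOLVE : S_SOLVE) (hDCR : S_DCR) (hLEO : S_LEO)
    (hFACT : S_FACT) (hUNIF : S_UNIF) (hDIST : S_DIST) (hFUNC : S_FUNC) (hTG1 : S_TG1)
    (hTG2 : S_TG2) (hFAM : S_FAM) (hORBS : S_ORBS) (hDUAL : S_DUAL) (hINV : S_INV) (hL1 : S_L1)
    (hZERO : S_ZERO) (hLINE : S_LINE) {d : ℕ} {x : CV d} (hx : Hyp x) (hn : Nrm x) {ε : ℝ}
    (hε : 0 < ε) : ∃ z : CV d, ‖z - x‖ < ε ∧ ND z ∧ PCF z := by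
  have hd := hx.hd
  have hdcr : DCR x := hDCR d x hd hx.nd hx.ce hx.jul
  have hleo : LEO x := hLEO d x hd hx.nd hx.ce hdcr
  obtain ⟨k, c₀, m, hf⟩ := hFACT d x hd hn.1
  obtain ⟨b, hb1, hb2⟩ := asm_dir hINV hL1 hZERO hLINE hORBS hDUAL hx hn hleo hf
  have hQ : ∀ i, (pol x 1).eval (c₀ i) ≠ 0 := by
    intro i
    have h1 := hn.2 (c₀ i, 1) (one_ne _) (hf.crit i) 1
    rw [Function.iterate_one, hF_pol] at h1
    exact h1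
  obtain ⟨ρ, X, c, hX, hXb⟩ := hFAM d k x c₀ m b hd hx.nd hn.1 hf hQ hb1
  obtain ⟨ρ', C, K, μ, κ, xx, hρ', hρ'ρ, hgood, hstep, hval, hxx⟩ :=
    good_of hUNIF hDIST hFUNC hx hn hf hX (fun i l => by rw [hXb l]; exact hb2 i l)
  set Tg : Fin k → ℕ → ℝ → ((Fin k → ℂ) → ℂ) → Prop := fun i n ρ₁ q =>
    ρ₁ ≤ ρ ∧ ∃ (l : ℕ) (j : Fin k), ∀ s ∈ ball (0 : Fin k → ℂ) ρ₁,
      cr ((hF (X s))^[l] (iot (tau (qo x (c₀ i) (n + 1))) (q s))) (c j s, 1) = 0 with hTg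
  have hT1 : ∃ η > (0 : ℝ), ∃ A > (0 : ℝ), ∃ ρ₁ > (0 : ℝ), ∃ L : ℝ, ∀ i n, xx i n ≤ η →
      ∃ q, Tg i n ρ₁ q ∧ IsT q ρ₁ L ∧ ‖q 0 - cz x (c₀ i) n‖ ≤ A * xx i n := by
    obtain ⟨η, hη, A, hA, ρ₁, hρ₁, hρ₁ρ, L, h⟩ := hTG1 d k x c₀ m X c ρ hX
    refine ⟨η, hη, A, hA, ρ₁, hρ₁, L, fun i n hin => ?_⟩
    obtain ⟨-, j, hj⟩ := hxx i n
    obtain ⟨q, hq1, hq2, hq3⟩ := h (qo x (c₀ i) (n + 1)) j (qo_ne hx.nd _ _) (hj.trans hin)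
    refine ⟨q, ⟨hρ₁ρ, 0, j, fun s hs => ?_⟩, hq1, hq2.trans (mul_le_mul_of_nonneg_left hj hA.le)⟩
    exact hq3 s hs
  have hT2 : ∀ ε > (0 : ℝ), ∃ ρ₁ > (0 : ℝ), ∃ L : ℝ, ∀ i n,
      ∃ q, Tg i n ρ₁ q ∧ IsT q ρ₁ L ∧ ‖q 0 - cz x (c₀ i) n‖ ≤ ε := by
    intro ε' hε'
    obtain ⟨ρ₁, hρ₁, hρ₁ρ, L, h⟩ := hTG2 d k x c₀ m X c ρ hd hx.nd hdcr hn.1 hf hX ε' hε'
    refine ⟨ρ₁, hρ₁, L, fun i n => ?_⟩
    obtain ⟨q, hq1, hq2, l, j, hq3⟩ := h (tau (qo x (c₀ i) (n + 1))) (cz x (c₀ i) n) norm_zc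
    exact ⟨q, ⟨hρ₁ρ, l, j, hq3⟩, hq1, hq2⟩
  -- closeness
  have h0ρ : (0 : Fin k → ℂ) ∈ ball (0 : Fin k → ℂ) ρ := mem_ball_self hX.ρ0
  have hXd : DifferentiableAt ℂ X 0 := hX.dif.differentiableAt (isOpen_ball.mem_nhds h0ρ)
  have hcl : ∀ᶠ s in 𝓝 (0 : Fin k → ℂ), ‖X s - x‖ < ε := by
    have h1 : Tendsto (fun s => ‖X s - x‖) (𝓝 0) (𝓝 ‖X 0 - x‖) :=
      (hXd.continuousAt.sub continuousAt_const).norm
    rw [hX.at0, sub_self, norm_zero] at h1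
    exact h1.eventually_lt_const hε
  obtain ⟨r, hr, hr'⟩ := Metric.eventually_nhds_iff_ball.1 hcl
  obtain ⟨s, hs, hsol⟩ := hSOLVE k (fun i => cf x X (c₀ i)) (fun i => cv x X (c₀ i) (c i))
    (fun i => cz x (c₀ i)) xx ρ' C K μ κ hgood Tg hT1 hT2 (min r ρ') (lt_min hr hρ')
  have hsr : s ∈ ball (0 : Fin k → ℂ) r := mem_ball_zero_iff.2 (hs.trans_le (min_le_left _ _))
  have hsρ' : s ∈ ball (0 : Fin k → ℂ) ρ' := mem_ball_zero_iff.2 (hs.trans_le (min_le_right _ _))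
  have hsρ : s ∈ ball (0 : Fin k → ℂ) ρ := ball_subset_ball hρ'ρ hsρ'
  refine ⟨X s, hr' s hsr, hX.nd s hsρ, fun p hp hw => ?_⟩
  obtain ⟨i, hi⟩ := crit_dir hd (hX.ne s hsρ) (hX.fac s hsρ) hp hw
  obtain ⟨N, ρ₁, q, ⟨hρ₁, l, j, hq⟩, hsρ₁, heq, hnear⟩ := hsol i
  have hNDs := hX.nd s hsρ
  -- the orbit in the charts
  have horb : ∀ n ≤ N, cr ((hF (X s))^[n + 1] (c i s, 1))
      (iot (tau (qo x (c₀ i) (n + 1))) (YY (cf x X (c₀ i)) (cv x X (c₀ i) (c i)) n s)) = 0 := by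
    intro n
    induction n with
    | zero => exact fun _ => hval i s hsρ'
    | succ n ih =>
      intro hn'
      have h1 := ih (by omega)
      have h2 : YY (cf x X (c₀ i)) (cv x X (c₀ i) (c i)) n s ∈ ball (cz x (c₀ i) n) ρ' := by
        rw [mem_ball_iff_norm]
        exact hnear n (by omega)
      have h3 := hstep i n s hsρ' _ h2
      have h4 := cr_iter (X s) 1 (hNDs.iter_ne (n + 1) (one_ne (c i s))) (iot_ne _ _) h1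
      rw [Function.iterate_one, ← Function.iterate_succ_apply' (hF (X s)) (n + 1)] at h4
      exact cr_trans (hNDs.iter_ne 1 (iot_ne _ _)) h4 h3
  have h1 := horb N le_rfl
  rw [heq] at h1
  have h2 := cr_iter (X s) l (hNDs.iter_ne (N + 1) (one_ne (c i s))) (iot_ne _ _) h1
  have h3 := hq s (mem_ball_zero_iff.2 hsρ₁)
  have h4 := cr_trans (hNDs.iter_ne l (iot_ne _ _)) h2 h3
  have h5 := cr_iter (X s) (l + (N + 1)) hp (one_ne (c i s)) hi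
  rw [← Function.iterate_add_apply] at h4
  refine ⟨l + (N + 1), by omega, (c j s, 1), one_ne _, ?_, ?_⟩
  · rw [hX.fac s hsρ]
    have h6 : ∏ i', (c j s - c i' s) ^ m i' = 0 := by
      refine Finset.prod_eq_zero (Finset.mem_univ j) ?_
      rw [sub_self, zero_pow]
      have := hf.pos j
      omega
    rw [h6, mul_zero]
  · exact cr_trans (hNDs.iter_ne _ (one_ne (c i s))) h5 h4


theorem asm_jul (hLEOJ : S_LEOJ) (hDEEPJ : S_DEEPJ) (hNFE : S_NFE)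
    (hFACT : S_FACT) {d : ℕ} {x : CV d} (hx : Hyp0 x) (hn : Nrm x) : Hyp x := by
  have hleoj : LEOJ x := hLEOJ d x hx.hd hx.nd hx.ce
  obtain ⟨k, c, m, hf⟩ := hFACT d x hx.hd hn.1
  have hdeep : DEEP x := hDEEPJ d k x c m hx.hd hx.nd hx.ce hn hf hleoj
  exact ⟨hx.hd, hx.nd, hx.ce, hNFE d x hx.hd hx.nd hx.ce hdeep, hx.lat⟩

theorem asm_main2 (hSOLVE : S_SOLVE) (hDCR : S_DCR) (hLEO : S_LEO) (hHYPC : S_HYPC)
    (hFACT : S_FACT) (hUNIF : S_UNIF) (hDIST : S_DIST) (hFUNC : S_FUNC)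
    (hTG1 : S_TG1) (hTG2 : S_TG2) (hFAM : S_FAM) (hORBS : S_ORBS) (hDUAL : S_DUAL)
    (hINV : S_INV) (hL1 : S_L1) (hZERO : S_ZERO) (hLINE : S_LINE)
    (hLEOJ : S_LEOJ) (hDEEPJ : S_DEEPJ) (hNFE : S_NFE) (hNORM2 : S_NORM2) : S_MAIN2 := by
  intro d x hx ε hε
  refine hNORM2 d x hx (fun y hy hny ε' hε' => ?_) ε hε
  have hy' : Hyp y := asm_jul hLEOJ hDEEPJ hNFE hFACT hy hny
  obtain ⟨z, h1, h2, h3⟩ := main_nrm2 hSOLVE hDCR hLEO hFACT hUNIF hDIST hFUNC hTG1 hTG2 hFAM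
    hORBS hDUAL hINV hL1 hZERO hLINE hy' hny hε'
  exact ⟨z, h1, h2, hHYPC d z hy.hd h2 h3, h3⟩

end Pool.Agent.H211.HY
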