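import Pool.Agent.H211.HY.Stm1

/-!
# Statements, part 2: the invariant line field
-/

set_option autoImplicit false

open Topology Filter Metric Set MeasureTheory Polynomial

namespace Pool.Agent.H211.HY

open Pool.Agent.H790R3.RB

/-- **Equality in the triangle inequality.**

Proof. `P = pol x 0`, `Q = pol x 1`, `W = Wp P Q`, `f = pf x = P / Q`, `f' = W / Q²`. The area formula `D4_area`
(`Pool/Graph/R_seed8/H792R2/CE/D4.lean`, `wr P Q` there is `Wp P Q`; `P, Q` are coprime by `StPQ`, `TPQ.lean` in RB)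
gives `∫_A ∑_w |Q⁴/W²| |H w| ≤ ∫_{f⁻¹ A} |H|`, so by `inv`: `∫_A |H| ≤ ∫_A ∑_w |..| |H w| ≤ ∫_{f⁻¹ A} |H|` for all
measurable `A`; adding the inequality for the complement (finite total) gives equalities everywhere. So for a.e.
`t`, `|∑_w T_w| = ∑_w |T_w|` with `T_w = Q(w)⁴/W(w)² H w`, `H t = ∑_w T_w`; hence `T_w = a_w H t` with `a_w ≥ 0`, and `a_w > 0` if
`H w ≠ 0`. Since preimages of null sets under `f` are null this holds for a.e. `w` with `t = f w` (a.e. `w` is in
the root set of `P - t Q`). That is the case `n = 1`; induction on `n` with the chain rule (for a.e. `w` the orbit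
avoids the zeros of `Q` and `W`: countably many exceptions). -/
def S_EQ : Prop :=
  ∀ (d : ℕ) (x : CV d) (H : ℂ → ℂ) (K : ℝ), 2 ≤ d → ND x → Fix x H K → Equ x H

/-- **Lifting.**

Proof. If `wr x` has no zero there is a contradiction (`2 d - 2 ≥ 2`, `StWR`; `wr x ≠ 0`); let `c` be a critical
point. By hypothesis `cr (hF x c) (g w) ≠ 0` on the ball. Choose a linear isomorphism `A` of `ℂ²` with
`A (1, 0) = c`, and consider `F w ζ = cr (hF x (A (ζ, 1))) (g w)`, a polynomial in `ζ` of degree `d` with leading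
coefficient `cr (hF x c) (g w) ≠ 0`. Its roots are simple (`deriv` in terms of `wr`, as in `S_DER`). Apply
`StROOT` (theorem `root_holds` in `Pool/Graph/R_seed8/H713R3/ZA/TROOT.lean`) over the ball, and put
`G w = A (Z w, 1)`. The point `q₀` is `A (ζ₀, 1)` up to a factor, since `q₀` is not parallel to `c`. See
`Pool/Agent/H97/AD211/RLIFT.lean` for the same argument in the plane. -/
def S_LIFT : Prop :=
  ∀ (d : ℕ) (x : CV d), 2 ≤ d → ND x → ∀ (g : ℂ → ℂ × ℂ) (y : ℂ) (R : ℝ), 0 < R →
    DifferentiableOn ℂ g (ball y R) → (∀ w ∈ ball y R, g w ≠ 0) →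
    (∀ w ∈ ball y R, ∀ q : ℂ × ℂ, q ≠ 0 → cr (hF x q) (g w) = 0 → wr x q ≠ 0) →
    ∀ q₀ : ℂ × ℂ, q₀ ≠ 0 → cr (hF x q₀) (g y) = 0 → ∃ G : ℂ → ℂ × ℂ,
      DifferentiableOn ℂ G (ball y R) ∧ (∀ w ∈ ball y R, G w ≠ 0 ∧ cr (hF x (G w)) (g w) = 0) ∧
        cr (G y) q₀ = 0

/-- **Near the critical values.**

Proof. Let `v = hF x c` be one of the finitely many critical values. Its preimages are finitely many
directions. Near a preimage `q'` which is critical, of local degree `e ≤ d`, `cho z q' ^ e ≤ C cho (hF x z) v`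
(in charts: `|f z - v| ≥ c |z - q'|^e`), and `cho z q' ^ d ≤ cho z q' ^ e`. Near a preimage `q'` which is not critical there is
a neighbourhood `V` of `q'` mapped homeomorphically onto a neighbourhood of `v`, with a holomorphic local inverse,
defined on the disc of radius `s₀` about `v`; compose it with `g`. For `s₀` small the preimage of this disc is
contained in the union of these neighbourhoods (compactness), with disjoint neighbourhoods. -/
def S_LSS : Prop :=
  ∀ (d : ℕ) (x : CV d), 2 ≤ d → ND x → ∃ C > (0 : ℝ), ∃ s₀ > (0 : ℝ), ∀ z c : ℂ × ℂ, z ≠ 0 →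
    c ≠ 0 → wr x c = 0 → cho (hF x z) (hF x c) < s₀ →
      (∃ c' : ℂ × ℂ, c' ≠ 0 ∧ wr x c' = 0 ∧ cho z c' ^ d ≤ C * cho (hF x z) (hF x c)) ∨
      ∀ (g : ℂ → ℂ × ℂ) (y : ℂ) (R : ℝ), 0 < R → DifferentiableOn ℂ g (ball y R) →
        (∀ w ∈ ball y R, g w ≠ 0 ∧ cho (g w) (hF x c) < s₀) → cr (g y) (hF x z) = 0 →
        ∃ G : ℂ → ℂ × ℂ, DifferentiableOn ℂ G (ball y R) ∧
          (∀ w ∈ ball y R, G w ≠ 0 ∧ cr (hF x (G w)) (g w) = 0) ∧ cr (G y) z = 0

/-- **Omitted points.**

Proof. By `LEO` with `δ = 1/4` there is `N`; for `n ≥ N` take a direction `p` orthogonal to `a`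
(`cho p a = 1`) and `q` with `cho p q < 1/4`, `cr ((hF x)^[n] q) (1, 0) = 0`: then `cho q a ≥ 3/4` and
`cr ((hF x)^[n] q) (w, 1) ≠ 0` for all `w`. For the finitely many `n < N`: the `n`-th iterate is not constant
on any open set; if the statement fails for all `R₁ = 1/m` there are `y_m`, `a_m → a` with
`{q | 1/2 ≤ cho q a_m}` mapped into the chordally small disc `ball y_m (1/m)`; in the limit the iterate is constant on the
interior of `{q | 1/2 ≤ cho q a}`, so constant, which contradicts `ND`, `d ≥ 2` (e.g. it is surjective on directions). -/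
def S_OMIT : Prop :=
  ∀ (d : ℕ) (x : CV d), 2 ≤ d → ND x → LEO x → ∃ R₁ > (0 : ℝ), ∀ (n : ℕ) (y : ℂ) (a : ℂ × ℂ), a ≠ 0 →
    ∃ q : ℂ × ℂ, q ≠ 0 ∧ 1 / 2 ≤ cho q a ∧ ∀ w ∈ ball y R₁, cr ((hF x)^[n] q) (w, 1) ≠ 0

/-- **Hit lemma on the sphere.** (Assume `S_CHO`, `S_LIFT`, `S_LSS`, `S_OMIT`.)

Proof. As `S_HIT` in `Pool/Agent/H211/AD/Stm.lean`, proved in `Pool/Agent/H44/AD211/HIT.lean` (adapt it). Let `μ > 1` be
smaller than the Collet-Eckmann rates, `1 < θ < μ`, `κ = θ / μ`; the Koebe constants with margins (`exists_MG`, radii `RR R τ j`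
between `R` and `2 R`, `Pool/Graph/R_seed8/Y298/CE/Kmar.lean`). By induction on `j ≤ n` there is a branch
`g_j` (`Br x j y (RR R τ j) g_j`) with `cr (g_j y) ((hF x)^[n-j] (z, 1)) = 0`, or there was a hit. `g_0 w = (w, 1)`.
Step: if some `w'` in the ball of radius `RR R τ (j+1)` has `cr (g_j w') (hF x c) = 0`, `c` critical: let `q` be given by `S_OMIT`
for `a = hF x c`, `n = j` (`2 R ≤ R₁`); `cr (g_j w) q ≠ 0` on the ball of radius `RR R τ j ≤ 2 R`. The function
`h w = cr (g_j w) v* / cr (g_j w) q` with `v* = hF x c` (normalise `N2 = 1`) is holomorphic and injective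
(if `g_j w ∥ g_j w₂` then `w = w₂`), `h w' = 0`, `|h' w'|` is comparable to the speed of `g_j` at `w'`, which is
`1 / ((1 + |w'|²) sdn x j v*) ≤ 1 / (C μ ^ j)` (`S_CHO` for `(hF x)^[j] ∘ g_j`, parallel to `(w, 1)`). By Koebe with margins
`|h w| ≤ A θ ^ j R |h' w'|` on the ball of radius `RR R τ (j+1)`, so `cho (g_j w) v* ≤ C R κ ^ j < s₀` there. Apply `S_LSS` to
`z₁ = (hF x)^[n-1-j] (z, 1)`: a hit, or a lift `g_{j+1}`. If there is no such `w'` use `S_LIFT`. -/
def S_HIT : Prop :=
  ∀ (d : ℕ) (x : CV d), 2 ≤ d → ND x → CE x → LEO x → HIT x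

/-- **Conical points.**

Proof. `ν = |H| dA` is a nonzero finite measure, invariant under the iterates of `f = pf x` (`Equ`). Critical
directions are `(c, 1)`, finitely many (`Nrm`; `S_FACT`). Fix `R` small. For each `n`, the set of the `z` without a
branch is contained (a.e.: `f^[n] z` is the plane coordinate of `(hF x)^[n] (z, 1)` for a.e. `z`) in the union over `j < n`
and `c` of the measurable sets `{z | cho ((hF x)^[n-1-j] (z, 1)) (c, 1) ^ d ≤ C R κ ^ j}`, whose `ν`-measure is
`ν {w | cho (w, 1) (c, 1) ^ d ≤ C R κ ^ j} ≤ ν (ball c (C' (C R κ ^ j) ^ (1/d))) ≤ K' (R κ ^ j) ^ (1/d)` by `sm` (for `R` small).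
The sum is `≤ C'' R ^ (1/d) ≤ ν(ℂ) / 4`. Also `ν {‖f^[n] z‖ > L} = ν {‖w‖ > L} ≤ ν(ℂ) / 4` for `L` large. So for each `n` there is
a measurable set of `ν`-measure `≥ ν(ℂ) / 2` of good points, and their upper limit has measure `≥ ν(ℂ) / 2`. -/
def S_CON : Prop :=
  ∀ (d : ℕ) (x : CV d) (H : ℂ → ℂ) (K : ℝ), 2 ≤ d → ND x → Nrm x → Fix x H K → Equ x H → HIT x →
    ¬ (∀ᵐ z : ℂ, H z = 0) → ∃ R > (0 : ℝ), ∃ L : ℝ, volume {z : ℂ | H z ≠ 0 ∧ z ∈ Con x R L} ≠ 0

/-- **Branches shrink.** (Assume `S_CHO`.)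

Proof. For `n` large, `LEO` gives `q` with `cho q (g y) ≥ 1/2` and `cr ((hF x)^[n] q) (1, 0) = 0`, so `g` omits the
direction `q`. `h w = cr (g w) u / cr (g w) q` (`u` the unit vector parallel to `g y`) is holomorphic and injective
on `ball y R`, `h y = 0`. By Koebe (`Pool/Graph/R_seed8/W746/LD/Koebe.lean`) the image of `h` contains the disc of radius
`c |h' y| R`, so the image of `g` contains a chordal disc about `g y` of radius `c' min 1 (|h' y| R)`. By `LEO` (for `n ≥ N(η)` the
iterate of a disc of radius `η` contains `∞`, which is not in `ball y R`) this radius is `< η`. And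
`|h w| ≤ C |h' y| R` on `ball y (R / 2)`, so `cho (g w) (g y) ≤ C' η`. -/
def S_SHR : Prop :=
  ∀ (d : ℕ) (x : CV d), 2 ≤ d → ND x → LEO x → Shr x

/-- **Blowing up at a conical point.** (Assume `S_CHO`.)

Proof. Choose `p` with `H p ≠ 0`, `p ∈ Con x R L`, `p` a Lebesgue point of `H` (a.e. point is one). Let `n → ∞` in the
infinite set of times, with `y_n → y*` (subsequence), and branches `g_n` on `ball y_n R`, `g_n(y_n) ∥ (p, 1)`. By `Shr` the
plane coordinate `G_n = (g_n).1 / (g_n).2` is finite, holomorphic and injective on `ball y_n (R / 2)`, converges uniformly to `p`.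
By Koebe, on `ball y_n (R / 8)`: `|G_n'|` is comparable to `r_n = |G_n'(y_n)|`, and `G_n` maps it into `ball p (C R r_n)`. Since
`p` is a Lebesgue point, `r_n ^ (-2) ∫_{ball p (C R r_n)} |H - H p| → 0`, so (change of variables)
`∫_{ball y_n (R/8)} |H (G_n w) - H p| dA(w) → 0`. By `Equ` (`(pf x)^[n] (G_n w) = w`, and
`deriv (pf x)^[n] (G_n w) * G_n' w = 1` a.e.): `H (G_n w) (G_n' w)² = a H w`, `a ≥ 0`. With
`k_n w = H p * (G_n' w)² / r_n²`: `∫ |a_n w H w - k_n w| dA(w) → 0` for some real `a_n w ≥ 0`. The `k_n` are uniformly bounded above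
and below in modulus on `ball y_n (R/8)`; a subsequence converges locally uniformly on `ball y* (R/16)` to a nonvanishing
holomorphic `k` (`montel` in `Pool/Graph/R_seed8/Helper114/MontelSol.lean`), and for a further subsequence
`a_n w H w → k w` a.e. So for a.e. `w`: `H w ≠ 0` and `k w / H w` is a limit of nonnegative reals, so it is positive. -/
def S_DENS : Prop :=
  ∀ (d : ℕ) (x : CV d) (H : ℂ → ℂ) (K R L : ℝ), 2 ≤ d → ND x → Fix x H K → Equ x H → Shr x →
    0 < R → volume {z : ℂ | H z ≠ 0 ∧ z ∈ Con x R L} ≠ 0 → Hol H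

/-- **Real multiples of a holomorphic function are constant multiples.**

Proof. It is enough to work on a smaller concentric disc `B'` (any). Write
`1 / k z = 1 / k p + (z - p) r_p z`. So `G = H / k` is, a.e. on `B'`, `∑_{p_j ∈ B} n_j / (z - p_j) + h z` with `n_j = a_j / k (p_j)`
(sum over `p_j` in a slightly larger disc), `∑ |n_j| < ∞`, `h` holomorphic, and `G` is real a.e.
For a.e. rectangle `[x₁, x₂] × [y₁, y₂] ⊆ B'` (no `p_j` on the boundary lines, the series of absolute values integrable on the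
four sides, `G` real a.e. on the sides: Fubini) `∮ G dz = 2 π i ∑_{p_j inside} n_j`. The imaginary part of the left
side is the difference of the integrals of `G` over the vertical sides, which tends to zero as `y₁, y₂ → y₀`
(dominated convergence on the lines `x = x₁`, `x = x₂`). So `∑ {Re n_j : Im p_j = y₀, x₁ < Re p_j < x₂} = 0` for all `y₀` and a.e.
`x₁ < x₂`, whence the total real mass at each point is zero; the same for the imaginary parts (thin vertical
rectangles). So all total masses vanish, `G = h` a.e. is holomorphic and real, so constant. Alternative: test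
functions: `∫ G ∂φ/∂z̄ = - π ∑ n_j φ(p_j)` for real `φ ∈ C¹_c`, take real and imaginary parts, and
`φ(x, y) = X(x) Y((y - y₀) / ε)`, `ε → 0`, then concentrate `X`. -/
def S_CONST : Prop :=
  ∀ (H : ℂ → ℂ) (a p : ℕ → ℂ), (Summable fun j => ‖a j‖) →
    (∀ᵐ z : ℂ, (Summable fun j => ‖a j / (z - p j)‖) ∧ H z = ∑' j, a j / (z - p j)) →
    ∀ (y : ℂ) (R : ℝ) (k : ℂ → ℂ), 0 < R → DifferentiableOn ℂ k (ball y R) →
      (∀ w ∈ ball y R, k w ≠ 0) → (∀ᵐ w : ℂ, w ∈ ball y R → ∃ t : ℝ, H w = (t : ℂ) * k w) →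
      ∃ t : ℝ, ∀ᵐ w : ℂ, w ∈ ball y R → H w = (t : ℂ) * k w

/-- **`H` is holomorphic outside a finite set.** (Assume `S_CONST`, `S_CHO`.)

Proof. By `S_CONST` `H = t k` a.e. on `B = ball y R`, `t > 0`. By `LEO` there is `N` with: every direction `(τ, 1)` is
parallel to `(hF x)^[N] (w, 1)` for some `w ∈ B` (a chordal disc about `(y, 1)` is contained in the cone over `B`). Let `E`
be the finite set of the plane coordinates of the `(hF x)^[j] c`, `c` critical, `1 ≤ j ≤ N`. For `τ ∉ E` take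
such a `w₀ ∈ B`; none of the points `(hF x)^[i] (w₀, 1)`, `i < N`, is critical, so there is a local inverse `ψ` of the `N`-th
iterate (in the coordinates; inverse function theorem) near `τ`, `ψ τ = w₀`. For a.e. `u` near `τ`, by `Equ` at `w = ψ u`:
`H u = a⁻¹ t k (ψ u) (ψ' u)²`, `a > 0` (as `H (ψ u) ≠ 0`). By `S_CONST`, `H` is a.e. near `τ` equal to a nonvanishing
holomorphic function (the constant is positive). These local functions agree on overlaps (equal a.e. and
continuous), so they define `h` on `Eᶜ`. -/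
def S_PROP : Prop :=
  ∀ (d : ℕ) (x : CV d) (H : ℂ → ℂ) (K : ℝ), 2 ≤ d → ND x → LEO x → Fix x H K → Equ x H → Hol H →
    ∃ (E : Finset ℂ) (h : ℂ → ℂ), DifferentiableOn ℂ h (E : Set ℂ)ᶜ ∧
      (∀ z ∉ E, h z ≠ 0) ∧ ∀ᵐ z : ℂ, H z = h z

/-- **An integrable holomorphic function on a finitely punctured plane is rational.**

Proof. Mean value: `|h z| ≤ (π ρ²)⁻¹ ∫_{ball z ρ} |h|`. With `ρ = |z - e| / 2`: `(z - e)² h z → 0` as `z → e`, so
`(z - e) h z` has a removable singularity (`(z-e)² h z` extends with the value zero). With `ρ = |z| / 2`: `z² h z → 0` at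
infinity. So `h z * ∏_{e ∈ E} (z - e)` is entire (after extension) and `o(|z| ^ (|E| - 2))`, so it is a polynomial `A₀` of degree
`≤ |E| - 3` (Liouville; if it is not zero). Divide `A₀` and `∏ (X - e)` by their greatest common divisor. -/
def S_MERO : Prop :=
  ∀ (E : Finset ℂ) (h : ℂ → ℂ), DifferentiableOn ℂ h (E : Set ℂ)ᶜ → (∃ z ∉ E, h z ≠ 0) →
    ∫⁻ z : ℂ, ‖h z‖ₑ ≠ ⊤ → ∃ A B : ℂ[X], IsCoprime A B ∧ A ≠ 0 ∧ A.natDegree + 3 ≤ B.natDegree ∧
      ∀ z ∉ E, B.eval z ≠ 0 ∧ h z = A.eval z / B.eval z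

/-- **The algebraic end.**

Proof. `f = P / Q`, `P = pol x 0`, `Q = pol x 1`. By `Equ` (`n = 1`) the rational function `H w / (f'(w)² H (f w))` is real
(positive) for a.e. `w`, so it is a constant `a` (a holomorphic real function on a connected open set), and
by `inv` for a generic `z` with `d` simple preimages `H z = ∑_w a H z = d a H z`, so `H (f w) f'(w)² = d H w`. Let `Â, B̂` be
the homogenisations: `q p = p.2 ^ (-4) (A/B)(p.1 / p.2) = Â p / B̂ p` with coprime forms, `deg B̂ = deg Â + 4` (if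
`deg B - deg A = 3` then `B̂` has the factor `p.2`). Since `f'(w) = wr x (w, 1) / (d Q²)`:
`q (hF x p) wr x p ^ 2 = d³ q p`. If `Â` is not constant, let `Z` be its (finite, nonempty) set of zero directions:
if `hF x p ∈ Z` then `q p = 0`, so `p ∈ Z`. As `f` is onto, `f⁻¹ (Z) ⊆ Z` implies that `f` permutes `Z` and every point of `Z` has
exactly one preimage, which is critical (`d ≥ 2`); so a critical point is mapped to a critical point by an
iterate, which contradicts `CE` (the factors of `sdn` are positive). So `Â` is a nonzero constant and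
`B̂ = quar r` up to this constant, `quar r p * wr x p ^ 2 = d³ quar r (hF x p)`: first for generic `p`, then everywhere by
continuity. -/
def S_ALG : Prop :=
  ∀ (d : ℕ) (x : CV d) (H : ℂ → ℂ) (K : ℝ) (A B : ℂ[X]), 2 ≤ d → ND x → CE x → Fix x H K →
    Equ x H → IsCoprime A B → A ≠ 0 → A.natDegree + 3 ≤ B.natDegree →
    (∀ᵐ z : ℂ, H z = A.eval z / B.eval z) → Lat x

end Pool.Agent.H211.HY
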