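import Pool.Agent.H211.HY.AsmE
import Pool.Agent.H100.HY211.FACT
import Pool.Agent.H177.HY211.MM
import Pool.Agent.H190.HY211.SOLVE
import Pool.Agent.H221.HY211.DENS
import Pool.Agent.H249.HY211.SCALE
import Pool.Agent.H263.HY211.DCR
import Pool.Agent.H274.HY211.TG2
import Pool.Agent.H284.HY211.EQ
import Pool.Agent.H295.HY211.DIST
import Pool.Agent.H335.HY211.ALG
import Pool.Agent.H337.HY211.TG1
import Pool.Agent.H344.HY211.CONST
import Pool.Agent.H37.HY211.HYPC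
import Pool.Agent.H390.HY211.SHR
import Pool.Agent.H400.HY211.TRIP
import Pool.Agent.H401.HY211.DUAL
import Pool.Agent.H51.HY211.LIFT
import Pool.Agent.H51.HY211.OMIT
import Pool.Agent.H548.HY211.MERO
import Pool.Agent.H549.HY211.ZERO
import Pool.Agent.H685.HY211.ORBS
import Pool.Agent.H720.HY211.FOL
import Pool.Agent.H726.HY211.INV
import Pool.Agent.H729.HY211.FUNC
import Pool.Agent.H734.HY211.HIT
import Pool.Agent.H746.HY211.LEO
import Pool.Agent.H747.HY211.CHO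
import Pool.Agent.H766.HY211.PROP
import Pool.Agent.H803.HY211.L1
import Pool.Agent.H860.HY211.UNIF
import Pool.Agent.H870.HY211.LSS
import Pool.Agent.H921.HY211.DER
import Pool.Agent.H922.HY211.NORM
import Pool.Agent.H980.HY211.Conic
import Pool.Agent.H286.HY211.FAM
import Pool.Agent.H980.HY211.JUL
import Pool.Agent.H980.HY211.LEOJ
import Pool.Agent.H230.HY211.OMITJ
import Pool.Agent.H390.HY211.SHJ
import Pool.Agent.H766.HY211.DEEPJ
import Pool.Agent.H551.HY211.NFE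
import Pool.Agent.H721.HY211.NORM2
import Pool.Agent.H225.HY211.NINJ
import Pool.Agent.H221.HY211.HITL

/-! The pieces put together -/

set_option autoImplicit false

namespace Pool.Agent.H211.HY

theorem p_CHO : S_CHO := Pool.Agent.H747.HY211.t_CHO
theorem p_MM : S_MM := Pool.Agent.H177.HY211.t_MM
theorem p_TRIP : S_TRIP := Pool.Agent.H400.HY211.t_TRIP
theorem p_DCR : S_DCR := Pool.Agent.H263.HY211.t_DCR p_CHO p_MM
theorem p_LEO : S_LEO := Pool.Agent.H746.HY211.t_LEO p_CHO p_MM p_TRIP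
theorem p_HYPC : S_HYPC := Pool.Agent.H37.HY211.t_HYPC
theorem p_NORM : S_NORM := Pool.Agent.H922.HY211.t_NORM
theorem p_FACT : S_FACT := Pool.Agent.H100.HY211.t_FACT
theorem p_UNIF : S_UNIF := Pool.Agent.H860.HY211.t_UNIF
theorem p_DER : S_DER := Pool.Agent.H921.HY211.t_DER
theorem p_DIST : S_DIST := Pool.Agent.H295.HY211.t_DIST p_UNIF p_DER
theorem p_FUNC : S_FUNC := Pool.Agent.H729.HY211.t_FUNC p_DER
theorem p_TG1 : S_TG1 := Pool.Agent.H337.HY211.t_TG1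
theorem p_TG2 : S_TG2 := Pool.Agent.H274.HY211.t_TG2
theorem p_ORBS : S_ORBS := Pool.Agent.H685.HY211.t_ORBS p_CHO p_FUNC
theorem p_DUAL : S_DUAL := Pool.Agent.H401.HY211.t_DUAL
theorem p_INV : S_INV := Pool.Agent.H726.HY211.t_INV
theorem p_L1 : S_L1 := Pool.Agent.H803.HY211.t_L1
theorem p_ZERO : S_ZERO := Pool.Agent.H549.HY211.t_ZERO
theorem p_SCALE : S_SCALE := Pool.Agent.H249.HY211.t_SCALE
theorem p_FOL : S_FOL := Pool.Agent.H720.HY211.t_FOL
theorem p_SOLVE : S_SOLVE := Pool.Agent.H190.HY211.t_SOLVE p_SCALE p_FOL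
theorem p_EQ : S_EQ := Pool.Agent.H284.HY211.t_EQ
theorem p_LIFT : S_LIFT := Pool.Agent.H51.HY211.t_LIFT
theorem p_LSS : S_LSS := Pool.Agent.H870.HY211.t_LSS
theorem p_OMIT : S_OMIT := Pool.Agent.H51.HY211.t_OMIT
theorem p_HIT : S_HIT := Pool.Agent.H734.HY211.t_HIT p_CHO p_LIFT p_LSS p_OMIT
theorem p_CON : S_CON := Pool.Agent.H980.HY211.t_CON
theorem p_SHR : S_SHR := Pool.Agent.H390.HY211.t_SHR p_CHO
theorem p_DENS : S_DENS := Pool.Agent.H221.HY211.t_DENS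
theorem p_CONST : S_CONST := Pool.Agent.H344.HY211.t_CONST
theorem p_PROP : S_PROP := Pool.Agent.H766.HY211.t_PROP p_CONST p_CHO
theorem p_MERO : S_MERO := Pool.Agent.H548.HY211.t_MERO
theorem p_ALG : S_ALG := Pool.Agent.H335.HY211.t_ALG
theorem p_LINE : S_LINE := asm_line p_EQ p_HIT p_CON p_SHR p_DENS p_PROP p_MERO p_ALG

theorem p_FAM : S_FAM := Pool.Agent.H286.HY211.t_FAM
theorem p_JUL : S_JUL := Pool.Agent.H980.HY211.t_JUL
theorem p_LEOJ : S_LEOJ := Pool.Agent.H980.HY211.t_LEOJ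
theorem p_OMITJ : S_OMITJ := Pool.Agent.H230.HY211.t_OMITJ p_JUL
theorem p_SHJ : S_SHJ := Pool.Agent.H390.HY211.t_SHJ p_CHO p_OMITJ
theorem p_HITL : S_HITL := Pool.Agent.H221.HY211.HITL.t_HITL p_CHO p_LIFT p_OMITJ
theorem p_DEEPJ : S_DEEPJ := Pool.Agent.H766.HY211.t_DEEPJ p_CHO p_JUL p_SHJ p_HITL
theorem p_NFE : S_NFE := Pool.Agent.H551.HY211.t_NFE p_CHO p_MM p_JUL p_LIFT
theorem p_NORM2 : S_NORM2 := Pool.Agent.H721.HY211.t_NORM2
theorem p_NINJ : S_NINJ := Pool.Agent.H225.HY211.t_NINJ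

theorem main1 : S_MAIN :=
  asm_main p_SOLVE p_DCR p_LEO p_HYPC p_NORM p_FACT p_UNIF p_DIST p_FUNC p_TG1 p_TG2 p_FAM
    p_ORBS p_DUAL p_INV p_L1 p_ZERO p_LINE

/-- **Rational maps all of whose critical points are Collet-Eckmann are limits of hyperbolic
maps.** -/
theorem main2 : S_MAIN2 :=
  asm_main2 p_SOLVE p_DCR p_LEO p_HYPC p_FACT p_UNIF p_DIST p_FUNC p_TG1 p_TG2 p_FAM p_ORBS
    p_DUAL p_INV p_L1 p_ZERO p_LINE p_LEOJ p_DEEPJ p_NFE p_NORM2

end Pool.Agent.H211.HY
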