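import Pool.Agent.H211.HY.Stm5

/-!
# Statements, part 6: quantitative openness
-/

set_option autoImplicit false

open Topology Filter Metric Set MeasureTheory Polynomial

namespace Pool.Agent.H211.HY

open Pool.Agent.H790R3.RB

/-- **Uniform estimates near a map.**

Proof. `η` small: all `w` with `‖w - x‖ ≤ η` satisfy `c₀ ≤ N2 (hF w p) ≤ C₀` for unit vectors `p` (compactness, `ND x`). The
constants are obtained by compactness / explicit polynomials: (a) Lipschitz constant of `hF w` for the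
chordal distance: as the last item of `S_CHO` (`Pool/Agent/H747/HY211/CHO.lean`), uniformly in `w`; (b) for unit
vectors `cr (hF w p) (hF z p)` is at most `C ‖w - z‖`; (c) at a critical direction `c` of `z` the map is quadratic:
in the affine coordinate `t ↦ c + t c^⊥` (unit vectors) `cr (hF z (c + t c^⊥)) (hF z c)` vanishes at `t = 0` to second
order (its derivative is `cr (fderiv .. c^⊥) (hF z c)`, a multiple of `wr z c = 0` by Euler, see the docstring of
`S_CHO`); (d) `wr z` is `a ∏ cr (·) (c i)` with unit vectors `c i` (a binary form of degree `2 d - 2` splits), `|a| ≥ sup |wr z|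
≥ a₀` on the unit sphere (compactness; `wr z ≠ 0` as a form for `ND z`), so `|wr z p| ≥ a₀ ∏ cho p (c i)`; at a
critical direction `p` of `w`, `|wr z p| = |wr z p - wr w p| ≤ C ‖z - w‖`, so some `cho p (c i)` is at most
`(C ‖z - w‖ / a₀) ^ (1 / (2 d - 2))`. -/
def S_UE : Prop :=
  ∀ (d : ℕ) (x : CV d), 2 ≤ d → ND x → ∃ η > (0 : ℝ), ∃ K ≥ (1 : ℝ),
    (∀ w : CV d, ‖w - x‖ ≤ η → ND w) ∧
    (∀ w : CV d, ‖w - x‖ ≤ η → ∀ p q : ℂ × ℂ, p ≠ 0 → q ≠ 0 → cho (hF w p) (hF w q) ≤ K * cho p q) ∧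
    (∀ w z : CV d, ‖w - x‖ ≤ η → ‖z - x‖ ≤ η → ∀ p : ℂ × ℂ, p ≠ 0 →
      cho (hF w p) (hF z p) ≤ K * ‖w - z‖) ∧
    (∀ z : CV d, ‖z - x‖ ≤ η → ∀ p q : ℂ × ℂ, p ≠ 0 → q ≠ 0 → wr z p = 0 →
      cho (hF z p) (hF z q) ≤ K * cho p q ^ 2) ∧
    (∀ w z : CV d, ‖w - x‖ ≤ η → ‖z - x‖ ≤ η → ∀ p : ℂ × ℂ, p ≠ 0 → wr w p = 0 →
      ∃ q : ℂ × ℂ, q ≠ 0 ∧ wr z q = 0 ∧ cho p q ^ (2 * d - 2) ≤ K * ‖w - z‖)

/-- **Quantitative openness.** (Assume `S_CHO`, `S_UE`.)

Proof. `η, K` from `S_UE` (take `η / 2` here). Let `PCFn z n`. There are at most `2 d - 2` critical directions of `z`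
(`StWR`), so every critical direction `c` is mapped by `(hF z)^[j]` with `j ≤ 2 d n` to a critical direction
`c*` which is periodic with period `p ≤ 2 d n`, `p ≥ 1` (see `Pool/Agent/H37/HY211/HYPC.lean`). For `q` with
`cho c* q ≤ ρ = K ^ (-p) / 4`: `cho c* ((hF z)^[p] q) ≤ K ^ (p-1) K cho c* q ^ 2 ≤ ρ / 4`. For `w` with
`‖w - z‖ ≤ δ`: `cho ((hF w)^[i] q) ((hF z)^[i] q) ≤ i K ^ i δ`, so if `p K ^ p δ ≤ ρ / 4` the `p`-th iterate of `hF w` maps the disc
`D = {cho c* q ≤ ρ}` into `{cho c* q ≤ ρ / 2}`. In an affine coordinate at `c*` it is a holomorphic map of a disc to a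
smaller concentric disc, so by the Schwarz-Pick lemma (or `S_EH` and Montel, or the contraction of the Poincaré
metric; or directly Banach's fixed point theorem: choose `ρ` smaller by a factor so that the derivative is at
most `1/2` by Cauchy) all orbits in `D` converge to a fixed point `a` of the `p`-th iterate, uniformly. Every critical
direction `c'` of `w` is near a critical direction `c` of `z`: `cho c' c ^ (2 d - 2) ≤ K δ`, and
`cho ((hF w)^[j] c') c* ≤ K ^ j cho c' c + j K ^ j δ ≤ ρ` if `δ ≤ 2 ^ (- C n)` with `C` large, depending only on `K`, `d`. So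
the orbit of `c'` enters `D`, and its iterates under the `p`-th iterate converge to a point of the cycle of `a`.
(`pr`, `sp`: see `StSP`; convergence of `cho` to `0` is convergence on the sphere.) -/
def S_OPENQ : Prop :=
  ∀ (d : ℕ) (x : CV d), 2 ≤ d → ND x → ∃ η > (0 : ℝ), ∃ C : ℕ, ∀ n ≥ 1, ∀ z : CV d,
    ‖z - x‖ ≤ η → PCFn z n → ∀ w : CV d, ‖w - z‖ ≤ (1 / 2 : ℝ) ^ (C * n) → ND w ∧ HypTop (sp w)

end Pool.Agent.H211.HY
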