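import Pool.Agent.H211.HY.Fin4
import Pool.Agent.H211.HY.Stm6
import Pool.Agent.H233.HY211.UE
import Pool.Agent.H385.HY211.OPENQ

/-! The pieces put together, with the rate and the quantitative openness -/

set_option autoImplicit false

open Topology Filter Metric Set MeasureTheory Polynomial

namespace Pool.Agent.H211.HY

open Pool.Agent.H790R3.RB

theorem p_UE : S_UE := Pool.Agent.H233.HY211.t_UE
theorem p_OPENQ : S_OPENQ := Pool.Agent.H385.HY211.t_OPENQ p_CHO p_UE

theorem PCFn.mono {d : ℕ} {x : CV d} {n n' : ℕ} (h : PCFn x n) (hn : n ≤ n') : PCFn x n' := by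
  intro c hc hw
  obtain ⟨j, h1, h2, h3⟩ := h c hc hw
  exact ⟨j, h1, h2.trans hn, h3⟩

/-- **Exponential rate, and balls of hyperbolic maps.** -/
theorem rate2 {d : ℕ} {x : CV d} (hx : Hyp0 x) : ∃ a > (0 : ℝ), ∃ A : ℝ, ∃ n₀ : ℕ, ∀ n ≥ n₀,
    ∃ z : CV d, ‖z - x‖ ≤ Real.exp (-(a * n)) ∧ ND z ∧ PCFn z n ∧ SameM x z ∧
      ∀ w : CV d, ‖w - z‖ ≤ Real.exp (-(A * n)) → ND w ∧ HypTop (sp w) := by
  obtain ⟨B, T₀, K, hr⟩ := rate d x hx
  obtain ⟨η, hη, C, ho⟩ := p_OPENQ d x hx.hd hx.nd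
  have hl2 : 0 < Real.log 2 := Real.log_pos (by norm_num)
  have hB : (0 : ℝ) < (B : ℝ) + 1 := by positivity
  have hhalf : ∀ t : ℕ, (1 / 2 : ℝ) ^ t = Real.exp (-(Real.log 2 * t)) := by
    intro t
    rw [← Real.rpow_natCast, Real.rpow_def_of_pos (by norm_num)]
    congr 1
    rw [one_div, Real.log_inv]
    ring
  set a : ℝ := Real.log 2 / (2 * (B + 1)) with ha
  have ha0 : 0 < a := by positivity
  -- `K * 2 * exp (- log 2 * n / (B + 1)) ≤ exp (- a n)` for large `n`
  have hlim : Tendsto (fun n : ℕ => |K| * 2 * Real.exp (-(a * n))) atTop (𝓝 0) := by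
    have h1 : Tendsto (fun n : ℕ => Real.exp (-(a * n))) atTop (𝓝 0) := by
      refine Real.tendsto_exp_neg_atTop_nhds_zero.comp ?_
      exact Tendsto.const_mul_atTop ha0 tendsto_natCast_atTop_atTop
    have h2 := h1.const_mul (|K| * 2)
    rwa [mul_zero] at h2
  have hev1 := hlim.eventually_lt_const (zero_lt_one)
  have hev2 : ∀ᶠ n : ℕ in atTop, Real.exp (-(a * n)) < η := by
    have h1 : Tendsto (fun n : ℕ => Real.exp (-(a * n))) atTop (𝓝 0) := by
      refine Real.tendsto_exp_neg_atTop_nhds_zero.comp ?_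
      exact Tendsto.const_mul_atTop ha0 tendsto_natCast_atTop_atTop
    exact h1.eventually_lt_const hη
  obtain ⟨n₁, hn₁⟩ := eventually_atTop.1 (hev1.and hev2)
  refine ⟨a, ha0, Real.log 2 * C, max n₁ (max 1 ((B + 1) * T₀)), fun n hn => ?_⟩
  have hn1 : n₁ ≤ n := (le_max_left _ _).trans hn
  have hn2 : 1 ≤ n := ((le_max_left _ _).trans (le_max_right _ _)).trans hn
  have hn3 : (B + 1) * T₀ ≤ n := ((le_max_right _ _).trans (le_max_right _ _)).trans hn
  set T : ℕ := n / (B + 1) with hT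
  have hTT : T₀ ≤ T := (Nat.le_div_iff_mul_le (by omega)).2 (by rw [mul_comm]; exact hn3)
  have hTn : (B + 1) * T ≤ n := by rw [mul_comm]; exact Nat.div_mul_le_self n (B + 1)
  have hnT : n < (B + 1) * (T + 1) := by
    rw [mul_comm]
    exact Nat.lt_mul_of_div_lt (by omega) (by omega)
  obtain ⟨z, h1, h2, h3, h4⟩ := hr T hTT
  have hnT' : (n : ℝ) < (B + 1) * (T + 1) := by exact_mod_cast hnT
  have h5 : ‖z - x‖ ≤ Real.exp (-(a * n)) := by
    have e1 : (1 / 2 : ℝ) ^ T ≤ 2 * Real.exp (-(2 * a * n)) := by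
      rw [hhalf]
      have e2 : (2 : ℝ) = Real.exp (Real.log 2) := (Real.exp_log (by norm_num)).symm
      have e3 : 2 * Real.exp (-(2 * a * n)) = Real.exp (Real.log 2 + -(2 * a * n)) := by
        rw [Real.exp_add, Real.exp_log (by norm_num)]
      rw [e3]
      refine Real.exp_le_exp.2 ?_
      have e4 : 2 * a * n = Real.log 2 * (n / (B + 1)) := by
        rw [ha]
        field_simp
      rw [e4]
      have e5 : (n : ℝ) / (B + 1) ≤ T + 1 := by
        rw [div_le_iff₀ hB]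
        nlinarith
      nlinarith
    have e6 : Real.exp (-(2 * a * n)) = Real.exp (-(a * n)) * Real.exp (-(a * n)) := by
      rw [← Real.exp_add]
      congr 1
      ring
    have e7 := (hn₁ n hn1).1
    calc ‖z - x‖ ≤ K * (1 / 2 : ℝ) ^ T := h1
      _ ≤ |K| * (1 / 2 : ℝ) ^ T := mul_le_mul_of_nonneg_right (le_abs_self K) (by positivity)
      _ ≤ |K| * (2 * Real.exp (-(2 * a * n))) := mul_le_mul_of_nonneg_left e1 (abs_nonneg K)
      _ = (|K| * 2 * Real.exp (-(a * n))) * Real.exp (-(a * n)) := by rw [e6]; ring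
      _ ≤ 1 * Real.exp (-(a * n)) := mul_le_mul_of_nonneg_right e7.le (Real.exp_pos _).le
      _ = _ := one_mul _
  have h6 : PCFn z n := h3.mono (by nlinarith)
  refine ⟨z, h5, h2, h6, h4, fun w hw => ?_⟩
  refine ho n hn2 z (h5.trans (hn₁ n hn1).2.le) h6 w ?_
  rw [hhalf]
  refine hw.trans_eq ?_
  congr 1
  push_cast
  ring

end Pool.Agent.H211.HY
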