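import Pool.Agent.H211.HY.AsmC0

/-! Assembly C: the local data of the critical orbits -/

set_option autoImplicit false

open Topology Filter Metric Set MeasureTheory Polynomial

namespace Pool.Agent.H211.HY

open Pool.Agent.H790R3.RB

/-- the step maps -/
noncomputable def cf {d k : ℕ} (x₀ : CV d) (X : (Fin k → ℂ) → CV d) (c : ℂ) (n : ℕ)
    (s : Fin k → ℂ) (w : ℂ) : ℂ := GG (X s) (tau (qo x₀ c (n + 1))) (tau (qo x₀ c (n + 2))) w

/-- the critical value -/
noncomputable def cv {d k : ℕ} (x₀ : CV d) (X : (Fin k → ℂ) → CV d) (c : ℂ)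
    (cc : (Fin k → ℂ) → ℂ) (s : Fin k → ℂ) : ℂ := lc (tau (qo x₀ c 1)) (hF (X s) (cc s, 1))

/-- the orbit -/
noncomputable def cz {d : ℕ} (x₀ : CV d) (c : ℂ) (n : ℕ) : ℂ := zc (qo x₀ c (n + 1))

theorem dn_tau_ne {p : ℂ × ℂ} (hp : p ≠ 0) : dn (tau p) p ≠ 0 := by
  unfold dn tau
  by_cases h : ‖p.1‖ ≤ ‖p.2‖
  · simp only [h, decide_true, if_true]
    intro h2
    rw [h2, norm_zero] at h
    exact hp (Prod.ext (norm_le_zero_iff.1 h) h2)
  · simp only [h, decide_false]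
    intro h1
    apply h
    have h1' : p.1 = 0 := h1
    rw [h1', norm_zero]
    exact norm_nonneg _

theorem iot_zc {p : ℂ × ℂ} (hp : p ≠ 0) : p = dn (tau p) p • iot (tau p) (zc p) := by
  have h := dn_tau_ne hp
  unfold zc lc iot dn at *
  by_cases ht : tau p = true
  · simp only [ht, if_true] at h ⊢
    ext
    · simp only [Prod.smul_fst, smul_eq_mul]
      field_simp
    · simp
  · simp only [Bool.not_eq_true] at ht
    simp only [ht] at h ⊢
    have h' : p.1 ≠ 0 := h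
    ext
    · simp
    · simp only [Prod.smul_snd, smul_eq_mul, Bool.false_eq_true, if_false]
      field_simp

theorem iot_ne (τ : Bool) (z : ℂ) : iot τ z ≠ 0 := by
  unfold iot
  cases τ
  · intro h
    have := congrArg Prod.fst h
    simp at this
  · intro h
    have := congrArg Prod.snd h
    simp at this

theorem lc_smul (τ : Bool) {a : ℂ} (ha : a ≠ 0) (p : ℂ × ℂ) : lc τ (a • p) = lc τ p := by
  unfold lc
  cases τ
  · simp only [Prod.smul_fst, Prod.smul_snd, smul_eq_mul, Bool.false_eq_true, if_false]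
    rw [mul_div_mul_left _ _ ha]
  · simp only [Prod.smul_fst, Prod.smul_snd, smul_eq_mul, if_true]
    rw [mul_div_mul_left _ _ ha]

theorem lc_cr {τ : Bool} {p : ℂ × ℂ} (hp : dn τ p ≠ 0) : cr p (iot τ (lc τ p)) = 0 := by
  unfold dn lc iot at *
  cases τ
  · simp only [Bool.false_eq_true, if_false] at hp ⊢
    simp only [cr]
    field_simp
    ring
  · simp only [if_true] at hp ⊢
    simp only [cr]
    field_simp
    ring

theorem norm_zc {p : ℂ × ℂ} : ‖zc p‖ ≤ 1 := by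
  unfold zc lc tau
  by_cases h : ‖p.1‖ ≤ ‖p.2‖
  · simp only [h, decide_true, if_true]
    rw [norm_div]
    exact div_le_one_of_le₀ h (norm_nonneg _)
  · simp only [h, decide_false, Bool.false_eq_true, if_false]
    rw [norm_div]
    exact div_le_one_of_le₀ (not_le.1 h).le (norm_nonneg _)

theorem ddiv {V : Type} [NormedAddCommGroup V] [NormedSpace ℂ V] {A B : V → ℂ} {s : V}
    (hA : DifferentiableAt ℂ A s) (hB : DifferentiableAt ℂ B s) (h : B s ≠ 0) :
    DifferentiableAt ℂ (fun s => A s / B s) s := by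
  have h1 : DifferentiableAt ℂ (fun s => (B s)⁻¹) s := hB.inv h
  have h2 : DifferentiableAt ℂ (fun s => A s * (B s)⁻¹) s := hA.mul h1
  have h3 : (fun s => A s / B s) = fun s => A s * (B s)⁻¹ := by
    funext s
    exact div_eq_mul_inv _ _
  rw [h3]
  exact h2

theorem hF_lin {d : ℕ} (a : ℂ) (b b' : CV d) (p : ℂ × ℂ) :
    hF (a • b + b') p = a • hF b p + hF b' p := by
  unfold hF
  ext
  · simp only [Pi.add_apply, Pi.smul_apply, smul_eq_mul, Prod.fst_add, Prod.smul_fst]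
    rw [Finset.mul_sum, ← Finset.sum_add_distrib]
    refine Finset.sum_congr rfl fun j _ => ?_
    ring
  · simp only [Pi.add_apply, Pi.smul_apply, smul_eq_mul, Prod.snd_add, Prod.smul_snd]
    rw [Finset.mul_sum, ← Finset.sum_add_distrib]
    refine Finset.sum_congr rfl fun j _ => ?_
    ring

theorem hst_lin {d : ℕ} (x : CV d) (c : ℂ) (a : ℂ) (b b' : CV d) (j : ℕ) :
    hst x c (a • b + b') j = a * hst x c b j + hst x c b' j := by
  unfold hst
  rw [hF_lin]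
  simp only [cr, Prod.fst_add, Prod.snd_add, Prod.smul_fst, Prod.smul_snd, smul_eq_mul]
  ring

theorem HS_lin {d : ℕ} {x : CV d} {c : ℂ} (hs : ∀ b, Summable (hst x c b)) (a : ℂ)
    (b b' : CV d) : HS x c (a • b + b') = a * HS x c b + HS x c b' := by
  unfold HS
  have h : hst x c (a • b + b') = fun j => a * hst x c b j + hst x c b' j := by
    funext j
    exact hst_lin x c a b b' j
  rw [h, ((hs b).mul_left a).tsum_add (hs b'), tsum_mul_left]

theorem HS_zero {d : ℕ} (x : CV d) (c : ℂ) : HS x c 0 = 0 := by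
  unfold HS
  have h : hst x c 0 = fun _ => 0 := by
    funext j
    unfold hst hF
    simp [cr]
  rw [h, tsum_zero]

theorem HS_sum {d : ℕ} {x : CV d} {c : ℂ} (hs : ∀ b, Summable (hst x c b)) {ι : Type}
    (S : Finset ι) (a : ι → ℂ) (b : ι → CV d) :
    HS x c (∑ l ∈ S, a l • b l) = ∑ l ∈ S, a l * HS x c (b l) := by
  classical
  induction S using Finset.induction_on with
  | empty => simp [HS_zero]
  | insert i S hi ih =>
    rw [Finset.sum_insert hi, Finset.sum_insert hi, HS_lin hs, ih]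

theorem good_of (hUNIF : S_UNIF) (hDIST : S_DIST) (hFUNC : S_FUNC) {d k : ℕ} {x₀ : CV d}
    (hx : Hyp x₀) (hn : Nrm x₀) {c₀ : Fin k → ℂ} {m : Fin k → ℕ} (hf : Fac x₀ k c₀ m)
    {X : (Fin k → ℂ) → CV d} {c : Fin k → (Fin k → ℂ) → ℂ} {ρ : ℝ} (hX : Fami x₀ k c₀ m X c ρ)
    (hb : ∀ i l, HS x₀ (c₀ i) (fderiv ℂ X 0 (Pi.single l 1)) = if l = i then 1 else 0) :
    ∃ (ρ' C K μ : ℝ) (κ : Fin k → ℂ) (xx : Fin k → ℕ → ℝ), 0 < ρ' ∧ ρ' ≤ ρ ∧
      (∀ i, Good i (cf x₀ X (c₀ i)) (cv x₀ X (c₀ i) (c i)) (cz x₀ (c₀ i)) (xx i) ρ' C K μ (κ i)) ∧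
      (∀ i n, ∀ s ∈ ball (0 : Fin k → ℂ) ρ', ∀ w ∈ ball (cz x₀ (c₀ i) n) ρ',
        cr (hF (X s) (iot (tau (qo x₀ (c₀ i) (n + 1))) w))
          (iot (tau (qo x₀ (c₀ i) (n + 2))) (cf x₀ X (c₀ i) n s w)) = 0) ∧
      (∀ i, ∀ s ∈ ball (0 : Fin k → ℂ) ρ', cr (hF (X s) (c i s, 1))
        (iot (tau (qo x₀ (c₀ i) 1)) (cv x₀ X (c₀ i) (c i) s)) = 0) ∧
      (∀ i n, (∀ j, xx i n ≤ cho (qo x₀ (c₀ i) (n + 1)) (c₀ j, 1)) ∧
        ∃ j, cho (qo x₀ (c₀ i) (n + 1)) (c₀ j, 1) ≤ xx i n) := by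
  have hd := hx.hd
  have hk : 0 < k := hf.kpos hd
  have : Nonempty (Fin k) := ⟨⟨0, hk⟩⟩
  -- the distances
  have hxx : ∀ p : ℂ × ℂ, ∃ t : ℝ, (∀ j, t ≤ cho p (c₀ j, 1)) ∧ ∃ j, cho p (c₀ j, 1) ≤ t := by
    intro p
    obtain ⟨j, hj⟩ := Finite.exists_min (fun j => cho p (c₀ j, 1))
    exact ⟨cho p (c₀ j, 1), hj, j, le_rfl⟩
  choose tt htt using hxx
  set xx : Fin k → ℕ → ℝ := fun i n => tt (qo x₀ (c₀ i) (n + 1)) with hxxd
  have hq : ∀ i n, qo x₀ (c₀ i) n ≠ 0 := fun i n => qo_ne hx.nd _ _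
  have hxx0 : ∀ i n, 0 < xx i n ∧ xx i n ≤ 1 := by
    intro i n
    obtain ⟨h1, j, hj⟩ := htt (qo x₀ (c₀ i) (n + 1))
    constructor
    · refine lt_of_lt_of_le (cho_pos (hq i _) (one_ne (c₀ j)) ?_) hj
      intro h0
      exact noncrit hx.ce (hf.crit i) n (wr_of_par hd x₀ (hq i _) (one_ne _) h0 (hf.crit j))
    · refine (h1 ⟨0, hk⟩).trans ?_
      -- the chordal distance is at most one
      unfold cho
      refine div_le_one_of_le₀ ?_ (Real.sqrt_nonneg _)
      refine Real.le_sqrt_of_sq_le ?_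
      have h3 : ∀ p q : ℂ × ℂ, ‖cr p q‖ ^ 2 ≤ N2 p * N2 q := by
        intro p q
        have h4 : ‖cr p q‖ ≤ ‖p.1‖ * ‖q.2‖ + ‖p.2‖ * ‖q.1‖ := by
          unfold cr
          calc ‖p.1 * q.2 - p.2 * q.1‖ ≤ ‖p.1 * q.2‖ + ‖p.2 * q.1‖ := norm_sub_le _ _
            _ = _ := by rw [norm_mul, norm_mul]
        have h5 : ‖cr p q‖ ^ 2 ≤ (‖p.1‖ * ‖q.2‖ + ‖p.2‖ * ‖q.1‖) ^ 2 :=
          pow_le_pow_left₀ (norm_nonneg _) h4 2
        unfold N2
        nlinarith [sq_nonneg (‖p.1‖ * ‖q.1‖ - ‖p.2‖ * ‖q.2‖)]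
      exact h3 _ _
  -- uniform domains
  obtain ⟨ρ₁, hρ₁, hρ₁ρ, M, hM⟩ := hUNIF d k x₀ X ρ hd hx.nd hX.ρ0 hX.dif hX.at0
  obtain ⟨ρ₂, hρ₂, K₂, hK₂, hK⟩ := hDIST d k x₀ c₀ m X c ρ hd hx.nd hn.1 hf hX
  -- the functionals
  have hFU := fun i => (hFUNC d k x₀ (c₀ i) hd hx.nd hx.ce (hf.crit i)).2
  choose κ hκ Kf hKf μf hμf hfun using hFU
  have h0ρ : (0 : Fin k → ℂ) ∈ ball (0 : Fin k → ℂ) ρ := mem_ball_self hX.ρ0
  have hXd : DifferentiableAt ℂ X 0 := hX.dif.differentiableAt (isOpen_ball.mem_nhds h0ρ)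
  have hcd : ∀ i, DifferentiableAt ℂ (c i) 0 := fun i =>
    (hX.cdf i).differentiableAt (isOpen_ball.mem_nhds h0ρ)
  -- the domain of the critical value
  have hv : ∀ i, ∃ r > (0 : ℝ), r ≤ ρ ∧ ∀ s ∈ ball (0 : Fin k → ℂ) r,
      dn (tau (qo x₀ (c₀ i) 1)) (hF (X s) (c i s, 1)) ≠ 0 ∧
        ‖cv x₀ X (c₀ i) (c i) s‖ ≤ 2 := by
    intro i
    have hcont : ContinuousAt (fun s => hF (X s) (c i s, 1)) 0 := by
      have h1 : ContinuousAt (fun s => (X s, (c i s, (1 : ℂ)))) 0 :=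
        hXd.continuousAt.prodMk ((hcd i).continuousAt.prodMk continuousAt_const)
      exact (hF_contDiff d 0).continuous.continuousAt.comp h1
    have hval : hF (X 0) (c i 0, 1) = qo x₀ (c₀ i) 1 := by
      rw [hX.at0, hX.c0]
      rfl
    have hdn0 : dn (tau (qo x₀ (c₀ i) 1)) (hF (X 0) (c i 0, 1)) ≠ 0 := by
      rw [hval]
      exact dn_tau_ne (hq i 1)
    have hdnc : Continuous (dn (tau (qo x₀ (c₀ i) 1))) := by
      unfold dn
      split_ifs
      · exact continuous_snd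
      · exact continuous_fst
    have h1 : ∀ᶠ s in 𝓝 (0 : Fin k → ℂ),
        dn (tau (qo x₀ (c₀ i) 1)) (hF (X s) (c i s, 1)) ≠ 0 :=
      (hdnc.continuousAt.comp hcont).eventually_ne hdn0
    have hcvc : ContinuousAt (cv x₀ X (c₀ i) (c i)) 0 := by
      unfold cv lc
      unfold dn at hdn0
      by_cases ht : tau (qo x₀ (c₀ i) 1) = true
      · simp only [ht, if_true] at hdn0 ⊢
        exact (continuous_fst.continuousAt.comp hcont).div
          (continuous_snd.continuousAt.comp hcont) hdn0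
      · simp only [Bool.not_eq_true] at ht
        simp only [ht, Bool.false_eq_true, if_false] at hdn0 ⊢
        exact (continuous_snd.continuousAt.comp hcont).div
          (continuous_fst.continuousAt.comp hcont) hdn0
    have h2 : ‖cv x₀ X (c₀ i) (c i) 0‖ < 2 := by
      have h3 : cv x₀ X (c₀ i) (c i) 0 = zc (qo x₀ (c₀ i) 1) := by
        unfold cv zc
        rw [hval]
      rw [h3]
      exact lt_of_le_of_lt norm_zc (by norm_num)
    have h3 : ∀ᶠ s in 𝓝 (0 : Fin k → ℂ), ‖cv x₀ X (c₀ i) (c i) s‖ < 2 :=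
      hcvc.norm.eventually_lt_const h2
    obtain ⟨r, hr, hr'⟩ := Metric.eventually_nhds_iff_ball.1 (h1.and h3)
    refine ⟨min r ρ, lt_min hr hX.ρ0, min_le_right _ _, fun s hs => ?_⟩
    have := hr' s (ball_subset_ball (min_le_left _ _) hs)
    exact ⟨this.1, this.2.le⟩
  choose rv hrv hrvρ hrv' using hv
  obtain ⟨r₀, hr₀, hr₀'⟩ : ∃ r₀ > (0 : ℝ), ∀ i, r₀ ≤ rv i := by
    obtain ⟨j, hj⟩ := Finite.exists_min rv
    exact ⟨rv j, hrv j, hj⟩
  obtain ⟨Km, hKm, hKm'⟩ : ∃ t > (0 : ℝ), ∀ i, t ≤ Kf i := by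
    obtain ⟨j, hj⟩ := Finite.exists_min Kf
    exact ⟨Kf j, hKf j, hj⟩
  obtain ⟨μm, hμm, hμm'⟩ : ∃ t > (1 : ℝ), ∀ i, t ≤ μf i := by
    obtain ⟨j, hj⟩ := Finite.exists_min μf
    exact ⟨μf j, hμf j, hj⟩
  set ρ' : ℝ := min (min ρ₁ ρ₂) r₀ with hρ'
  have hρ'0 : 0 < ρ' := lt_min (lt_min hρ₁ hρ₂) hr₀
  have hρ'1 : ρ' ≤ ρ₁ := (min_le_left _ _).trans (min_le_left _ _)
  have hρ'2 : ρ' ≤ ρ₂ := (min_le_left _ _).trans (min_le_right _ _)
  have hρ'3 : ρ' ≤ r₀ := min_le_right _ _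
  set C : ℝ := max (max 2 M) K₂ with hC
  have hC2 : 2 ≤ C := (le_max_left _ _).trans (le_max_left _ _)
  have hCM : M ≤ C := (le_max_right _ _).trans (le_max_left _ _)
  have hCK : K₂ ≤ C := le_max_right _ _
  have hC0 : 0 < C := by linarith
  have hst : ∀ i n, qo x₀ (c₀ i) (n + 2) = hF x₀ (qo x₀ (c₀ i) (n + 1)) := fun i n => qo_succ _ _ _
  have hcf0 : ∀ i n, cf x₀ X (c₀ i) n 0 =
      GG x₀ (tau (qo x₀ (c₀ i) (n + 1))) (tau (hF x₀ (qo x₀ (c₀ i) (n + 1)))) := by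
    intro i n
    funext w
    unfold cf
    rw [hX.at0, hst]
  refine ⟨ρ', C, Km, μm, κ, xx, hρ'0, hρ'1.trans hρ₁ρ, fun i => ?_, fun i n s hs w hw => ?_,
    fun i s hs => ?_, fun i n => htt _⟩
  · have hfi := hfun i X (c i) hXd hX.at0 (hcd i) (hX.c0 i) (cf x₀ X (c₀ i)) (cv x₀ X (c₀ i) (c i))
      (cz x₀ (c₀ i)) rfl rfl rfl
    refine ⟨hρ'0, by linarith, hKm, hμm, hκ i, ?_, ?_, ?_, ?_, ?_, ?_, hxx0 i, ?_, ?_, ?_, ?_⟩
    · -- v0
      unfold cv cz zc
      rw [hX.at0, hX.c0]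
      rfl
    · -- vd
      intro s hs
      have hs1 : s ∈ ball (0 : Fin k → ℂ) ρ := ball_subset_ball (hρ'1.trans hρ₁ρ) hs
      have hs2 := (hrv' i s (ball_subset_ball (hρ'3.trans (hr₀' i)) hs)).1
      have hd1 : DifferentiableAt ℂ (fun s => hF (X s) (c i s, 1)) s := by
        have h1 : DifferentiableAt ℂ (fun s => (X s, (c i s, (1 : ℂ)))) s :=
          (hX.dif.differentiableAt (isOpen_ball.mem_nhds hs1)).prodMk
            (((hX.cdf i).differentiableAt (isOpen_ball.mem_nhds hs1)).prodMk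
              (differentiableAt_const _))
        have h2 : Differentiable ℂ (fun q : CV d × (ℂ × ℂ) => hF q.1 q.2) :=
          (hF_contDiff d 1).differentiable (by norm_num)
        exact (h2 _).comp s h1
      refine DifferentiableAt.differentiableWithinAt ?_
      unfold cv lc
      unfold dn at hs2
      by_cases ht : tau (qo x₀ (c₀ i) 1) = true
      · simp only [ht, if_true] at hs2 ⊢
        have hA : DifferentiableAt ℂ (fun s => (hF (X s) (c i s, 1)).1) s := hd1.fst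
        have hB : DifferentiableAt ℂ (fun s => (hF (X s) (c i s, 1)).2) s := hd1.snd
        exact ddiv (A := fun s => (hF (X s) (c i s, 1)).1) (B := fun s => (hF (X s) (c i s, 1)).2) hA hB hs2
      · simp only [Bool.not_eq_true] at ht
        simp only [ht, Bool.false_eq_true, if_false] at hs2 ⊢
        have hA : DifferentiableAt ℂ (fun s => (hF (X s) (c i s, 1)).1) s := hd1.fst
        have hB : DifferentiableAt ℂ (fun s => (hF (X s) (c i s, 1)).2) s := hd1.snd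
        exact ddiv (A := fun s => (hF (X s) (c i s, 1)).2) (B := fun s => (hF (X s) (c i s, 1)).1) hB hA hs2
    · -- vb
      intro s hs
      exact (hrv' i s (ball_subset_ball (hρ'3.trans (hr₀' i)) hs)).2.trans hC2
    · -- fz
      intro n
      rw [hcf0]
      unfold GG cz
      have h1 := iot_zc (hq i (n + 1))
      have h2 : hF x₀ (qo x₀ (c₀ i) (n + 1)) =
          dn (tau (qo x₀ (c₀ i) (n + 1))) (qo x₀ (c₀ i) (n + 1)) ^ d •
            hF x₀ (iot (tau (qo x₀ (c₀ i) (n + 1))) (zc (qo x₀ (c₀ i) (n + 1)))) := by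
        conv_lhs => rw [h1]
        rw [hF_smul]
      have h3 : zc (qo x₀ (c₀ i) (n + 1 + 1)) =
          lc (tau (hF x₀ (qo x₀ (c₀ i) (n + 1)))) (hF x₀ (qo x₀ (c₀ i) (n + 1))) := by
        unfold zc
        rw [qo_succ x₀ (c₀ i) (n + 1)]
      rw [h3]
      conv_rhs => rw [h2]
      rw [lc_smul _ (pow_ne_zero _ (dn_tau_ne (hq i (n + 1))))]
      congr 1
      rw [← h2]
    · -- fd
      intro n p hp
      obtain ⟨h1, h2⟩ := hp
      have h3 := (hM (qo x₀ (c₀ i) (n + 1)) (hq i _) p.1 (ball_subset_ball hρ'1 h1) p.2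
        (ball_subset_ball hρ'1 h2)).2.2.2
      refine DifferentiableAt.differentiableWithinAt ?_
      unfold cf
      rw [hst]
      exact h3
    · -- fb
      intro n s hs w hw
      have h3 := (hM (qo x₀ (c₀ i) (n + 1)) (hq i _) s (ball_subset_ball hρ'1 hs) w
        (ball_subset_ball hρ'1 hw)).2.2.1
      unfold cf
      rw [hst]
      exact h3.trans hCM
    · -- dx
      intro n
      have h4 := hK (qo x₀ (c₀ i) (n + 1)) (xx i n) (hq i _) (hxx0 i n).1 (htt _).1 (htt _).2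
      rw [hcf0]
      refine ⟨h4.2.1, h4.1.trans ?_⟩
      exact mul_le_mul_of_nonneg_right hCK (hxx0 i n).1.le
    · -- ds
      intro n s hs w hw hsw
      have h4 := hK (qo x₀ (c₀ i) (n + 1)) (xx i n) (hq i _) (hxx0 i n).1 (htt _).1 (htt _).2
      rw [hcf0]
      have h5 : cf x₀ X (c₀ i) n s =
          GG (X s) (tau (qo x₀ (c₀ i) (n + 1))) (tau (hF x₀ (qo x₀ (c₀ i) (n + 1)))) := by
        funext w
        unfold cf
        rw [hst]
      rw [h5]
      have h6 : ‖s‖ + ‖w - zc (qo x₀ (c₀ i) (n + 1))‖ ≤ xx i n / K₂ := by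
        refine hsw.trans ?_
        exact div_le_div_of_nonneg_left (hxx0 i n).1.le (by linarith) hCK
      refine (h4.2.2 s (ball_subset_ball hρ'2 hs) w (ball_subset_ball hρ'2 hw) h6).trans ?_
      have h7 : 0 ≤ (‖s‖ + ‖w - cz x₀ (c₀ i) n‖) / xx i n :=
        div_nonneg (by positivity) (hxx0 i n).1.le
      refine mul_le_mul_of_nonneg_right ?_ h7
      exact mul_le_mul_of_nonneg_right hCK (norm_nonneg _)
    · -- gr
      intro n
      refine le_trans ?_ (hfi.1 n)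
      refine mul_le_mul (hKm' i) (pow_le_pow_left₀ (by linarith) (hμm' i) n) (by positivity)
        (hKf i).le
    · -- fn
      intro b
      have h8 := hfi.2 b
      have h9 : HS x₀ (c₀ i) (fderiv ℂ X 0 b) = b i := by
        have h10 : b = ∑ l, b l • (Pi.single l (1 : ℂ) : Fin k → ℂ) := by
          funext j
          simp [Finset.sum_apply, Pi.single_apply]
        have h11 : fderiv ℂ X 0 b = ∑ l, b l • fderiv ℂ X 0 (Pi.single l 1) := by
          conv_lhs => rw [h10]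
          rw [map_sum]
          refine Finset.sum_congr rfl fun l _ => ?_
          rw [map_smul]
        rw [h11, HS_sum (hFUNC d k x₀ (c₀ i) hd hx.nd hx.ce (hf.crit i)).1]
        simp only [hb]
        simp
      rw [h9] at h8
      exact h8
  · have h3 := (hM (qo x₀ (c₀ i) (n + 1)) (hq i _) s (ball_subset_ball hρ'1 hs) w
      (ball_subset_ball hρ'1 hw)).2.1
    unfold cf
    rw [hst]
    exact h3
  · have hs2 := (hrv' i s (ball_subset_ball (hρ'3.trans (hr₀' i)) hs)).1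
    exact lc_cr hs2

end Pool.Agent.H211.HY
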