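import Pool.Agent.H211.HY.Stm1
import Pool.Graph.R_seed8.H790R3.RB.Basic
import Pool.Graph.R_seed8.H790R3.RB.TWR

/-! Assembly C0: small facts -/

set_option autoImplicit false

open Topology Filter Metric Set MeasureTheory Polynomial

namespace Pool.Agent.H211.HY

open Pool.Agent.H790R3.RB

theorem wr_of_par {d : ℕ} (hd : 2 ≤ d) (x : CV d) {p q : ℂ × ℂ} (hp : p ≠ 0) (hq : q ≠ 0)
    (h : cr p q = 0) (hw : wr x q = 0) : wr x p = 0 := by
  obtain ⟨a, ha, rfl⟩ := (cr_eq_zero_iff hp hq).1 h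
  rw [(WR d x hd).1, hw, mul_zero]

theorem one_ne (ζ : ℂ) : ((ζ, 1) : ℂ × ℂ) ≠ 0 := by
  intro h
  have := congrArg Prod.snd h
  simp at this

theorem Fac.crit {d k : ℕ} {x : CV d} {c : Fin k → ℂ} {m : Fin k → ℕ} (h : Fac x k c m)
    (i : Fin k) : wr x (c i, 1) = 0 := by
  rw [h.fac]
  have h1 : ∏ j, (c i - c j) ^ m j = 0 := by
    refine Finset.prod_eq_zero (Finset.mem_univ i) ?_
    rw [sub_self, zero_pow]
    have := h.pos i
    omega
  rw [h1, mul_zero]

theorem Fac.kpos {d k : ℕ} {x : CV d} {c : Fin k → ℂ} {m : Fin k → ℕ} (hd : 2 ≤ d)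
    (h : Fac x k c m) : 0 < k := by
  rcases Nat.eq_zero_or_pos k with h0 | h0
  · subst h0
    have := h.deg
    simp at this
    omega
  · exact h0

/-- all critical directions of a map of the family -/
theorem crit_dir {d k : ℕ} {x : CV d} {c : Fin k → ℂ} {m : Fin k → ℕ} (hd : 2 ≤ d)
    (h0 : wr x (1, 0) ≠ 0) (hf : ∀ ζ : ℂ, wr x (ζ, 1) = wr x (1, 0) * ∏ i, (ζ - c i) ^ m i)
    {p : ℂ × ℂ} (hp : p ≠ 0) (hw : wr x p = 0) : ∃ i, cr p (c i, 1) = 0 := by
  by_cases h2 : p.2 = 0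
  · exfalso
    apply h0
    have h1 : p.1 ≠ 0 := by
      intro h1
      exact hp (Prod.ext h1 h2)
    have h10 : ((1, 0) : ℂ × ℂ) ≠ 0 := by
      intro h
      have := congrArg Prod.fst h
      simp at this
    refine wr_of_par hd x h10 hp ?_ hw
    simp [cr, h2]
  · have h1 : wr x (p.1 / p.2, 1) = 0 := by
      refine wr_of_par hd x (one_ne _) hp ?_ hw
      simp only [cr]
      field_simp
      ring
    rw [hf] at h1
    have h3 := (mul_eq_zero.1 h1).resolve_left h0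
    obtain ⟨i, -, hi⟩ := Finset.prod_eq_zero_iff.1 h3
    refine ⟨i, ?_⟩
    have h5 : p.1 / p.2 - c i = 0 := eq_zero_of_pow_eq_zero hi
    have h6 : p.1 = c i * p.2 := by
      have : p.1 / p.2 = c i := sub_eq_zero.1 h5
      field_simp at this
      linear_combination this
    simp only [cr, h6]
    ring

theorem qo_succ {d : ℕ} (x : CV d) (c : ℂ) (n : ℕ) : qo x c (n + 1) = hF x (qo x c n) := by
  unfold qo
  rw [Function.iterate_succ_apply']

theorem qo_ne {d : ℕ} {x : CV d} (hx : ND x) (c : ℂ) (n : ℕ) : qo x c n ≠ 0 :=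
  hx.iter_ne n (one_ne c)

theorem N2_pos {p : ℂ × ℂ} (hp : p ≠ 0) : 0 < N2 p := by
  unfold N2
  by_cases h1 : p.1 = 0
  · have h2 : p.2 ≠ 0 := fun h2 => hp (Prod.ext h1 h2)
    have := norm_pos_iff.2 h2
    positivity
  · have := norm_pos_iff.2 h1
    positivity

theorem cho_pos {p q : ℂ × ℂ} (hp : p ≠ 0) (hq : q ≠ 0) (h : cr p q ≠ 0) : 0 < cho p q := by
  unfold cho
  have h1 := N2_pos hp
  have h2 := N2_pos hq
  have := norm_pos_iff.2 h
  positivity

/-- the forward orbits of the critical points are not critical -/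
theorem noncrit {d : ℕ} {x : CV d} (hce : CE x) {c : ℂ} (hc : wr x (c, 1) = 0) (n : ℕ) :
    wr x (qo x c (n + 1)) ≠ 0 := by
  obtain ⟨C, hC, μ, hμ, h⟩ := hce (c, 1) (one_ne c) hc
  have h1 := h (n + 1)
  have h2 : 0 < sdn x (n + 1) (hF x (c, 1)) := lt_of_lt_of_le (by positivity) h1
  intro h0
  have h3 : sdn x (n + 1) (hF x (c, 1)) = 0 := by
    unfold sdn
    refine Finset.prod_eq_zero (Finset.mem_range.2 (Nat.lt_succ_self n)) ?_
    have h4 : (hF x)^[n] (hF x (c, 1)) = qo x c (n + 1) := by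
      unfold qo
      rw [Function.iterate_succ_apply]
    rw [h4]
    simp [sd, h0]
  linarith

end Pool.Agent.H211.HY
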