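import Pool.Agent.H211.HY.Stm3

/-!
# Statements, part 5: exponential rate of the approximation, inside the stratum
-/

set_option autoImplicit false

open Topology Filter Metric Set MeasureTheory Polynomial

namespace Pool.Agent.H211.HY

open Pool.Agent.H790R3.RB

/-- **Good scales, with a rate.** As `S_SCALE` (proved in `Pool/Agent/H249/HY211/SCALE.lean`; adapt it).

Proof. See the docstring of `S_SCALE` in `Stm1.lean`: for large `T'` the number of the `m < T'` which are bad for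
some `i` is less than `T' / 2`. Take `T' = 2 T`: some `m` with `T ≤ m < 2 T` is good for all `i`; `r = 2 ^ (-m)`, and
`N i m ≤ c₁ m + c₂ ≤ B T`. -/
def S_SCALE2 : Prop :=
  ∀ (k : ℕ) (C c μ : ℝ) (p x : Fin k → ℕ → ℝ), 1 ≤ C → 0 < c → 1 < μ →
    (∀ i, p i 0 = 1) → (∀ i n, c * μ ^ n ≤ p i n) → (∀ i n, 0 < x i n ∧ x i n ≤ 1) →
    (∀ i n, p i (n + 1) ≤ C * x i n * p i n) →
    ∀ θ > (0 : ℝ), ∀ A > (0 : ℝ), ∃ ε > (0 : ℝ), ∃ B T₀ : ℕ, ∀ T ≥ T₀, ∃ r : ℝ,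
      (1 / 2 : ℝ) ^ (2 * T) ≤ r ∧ r ≤ (1 / 2 : ℝ) ^ T ∧
      ∀ i, ∃ N ≤ B * T, ∑ n ∈ Finset.range N, r * p i n / x i n ≤ θ ∧
        (ε ≤ r * p i N ∨ A * x i N ≤ r * p i N)

/-- **Solving the equations, with a rate.** (Assume `S_SCALE2` and `S_FOL`.) As `S_SOLVE` (proved in
`Pool/Agent/H190/HY211/SOLVE.lean`; adapt it). The targets have an additional parameter `M` (a bound for the
time which they need). -/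
def S_SOLVE2 : Prop :=
  ∀ (k : ℕ) (f : Fin k → ℕ → (Fin k → ℂ) → ℂ → ℂ) (v : Fin k → (Fin k → ℂ) → ℂ)
    (z : Fin k → ℕ → ℂ) (x : Fin k → ℕ → ℝ) (ρ C c μ : ℝ) (κ : Fin k → ℂ),
    (∀ i, Good i (f i) (v i) (z i) (x i) ρ C c μ (κ i)) →
    ∀ Tg : ℕ → Fin k → ℕ → ℝ → ((Fin k → ℂ) → ℂ) → Prop,
      (∃ η > (0 : ℝ), ∃ A > (0 : ℝ), ∃ ρ₁ > (0 : ℝ), ∃ L : ℝ, ∀ i n, x i n ≤ η →
        ∃ q, Tg 0 i n ρ₁ q ∧ IsT q ρ₁ L ∧ ‖q 0 - z i n‖ ≤ A * x i n) →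
      (∀ ε > (0 : ℝ), ∃ ρ₁ > (0 : ℝ), ∃ L : ℝ, ∃ M : ℕ, ∀ i n,
        ∃ q, Tg M i n ρ₁ q ∧ IsT q ρ₁ L ∧ ‖q 0 - z i n‖ ≤ ε) →
      ∃ B M T₀ : ℕ, ∀ T ≥ T₀, ∃ s : Fin k → ℂ, ‖s‖ ≤ (1 / 2 : ℝ) ^ T ∧
        ∀ i, ∃ N ≤ B * T, ∃ (ρ₁ : ℝ) (q : (Fin k → ℂ) → ℂ),
          (Tg 0 i N ρ₁ q ∨ Tg M i N ρ₁ q) ∧ ‖s‖ < ρ₁ ∧ YY (f i) (v i) N s = q s ∧
            ∀ n < N, ‖YY (f i) (v i) n s - z i n‖ < ρ

/-- **Targets everywhere, with a bound for the time.** As `S_TG2` (proved in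
`Pool/Agent/H274/HY211/TG2.lean`; adapt it): the compactness argument gives finitely many `n`. -/
def S_TG2B : Prop :=
  ∀ (d k : ℕ) (x₀ : CV d) (c₀ : Fin k → ℂ) (m : Fin k → ℕ) (X : (Fin k → ℂ) → CV d)
    (c : Fin k → (Fin k → ℂ) → ℂ) (ρ : ℝ), 2 ≤ d → ND x₀ → DCR x₀ → wr x₀ (1, 0) ≠ 0 →
    Fac x₀ k c₀ m → Fami x₀ k c₀ m X c ρ → ∀ ε > (0 : ℝ), ∃ ρ₁ > (0 : ℝ), ρ₁ ≤ ρ ∧ ∃ (L : ℝ) (M : ℕ),
      ∀ (τ : Bool) (z : ℂ), ‖z‖ ≤ 1 → ∃ q : (Fin k → ℂ) → ℂ, IsT q ρ₁ L ∧ ‖q 0 - z‖ ≤ ε ∧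
        ∃ n ≤ M, ∃ j : Fin k, ∀ s ∈ ball (0 : Fin k → ℂ) ρ₁,
          cr ((hF (X s))^[n] (iot τ (q s))) (c j s, 1) = 0

/-- All critical points are mapped to critical points by one of the first `n` iterates. -/
def PCFn {d : ℕ} (x : CV d) (n : ℕ) : Prop :=
  ∀ c : ℂ × ℂ, c ≠ 0 → wr x c = 0 → ∃ j : ℕ, 1 ≤ j ∧ j ≤ n ∧ ∃ c' : ℂ × ℂ, c' ≠ 0 ∧ wr x c' = 0 ∧
    cr ((hF x)^[j] c) c' = 0

/-- The critical points of the two maps have the same multiplicities. -/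
def SameM {d : ℕ} (x z : CV d) : Prop :=
  ∃ (k : ℕ) (m : Fin k → ℕ) (c c' : Fin k → ℂ × ℂ) (a a' : ℂ), a ≠ 0 ∧ a' ≠ 0 ∧ (∀ i, 1 ≤ m i) ∧
    (∀ i j, i ≠ j → cr (c i) (c j) ≠ 0 ∧ cr (c' i) (c' j) ≠ 0) ∧
    (∀ p, wr x p = a * ∏ i, cr p (c i) ^ m i) ∧ ∀ p, wr z p = a' * ∏ i, cr p (c' i) ^ m i

/-- exponentially good approximation inside the stratum -/
def RateP {d : ℕ} (x : CV d) : Prop :=
  ∃ (B T₀ : ℕ) (K : ℝ), ∀ T ≥ T₀, ∃ z : CV d, ‖z - x‖ ≤ K * (1 / 2 : ℝ) ^ T ∧ ND z ∧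
    PCFn z (B * T) ∧ SameM x z

/-- **Normalisation, with the rate.** As `S_NORM2` (proved in `Pool/Agent/H721/HY211/NORM2.lean`; adapt it). The
linear conjugation of coefficient vectors is linear, so Lipschitz; `cr (L p) (L q) = cr p q` for `L` of
determinant `1` and `wr y (L p) = wr x p`, so factorisations are transformed to factorisations. -/
def S_NORM4 : Prop :=
  ∀ (d : ℕ) (x : CV d), Hyp0 x → (∀ y : CV d, Hyp0 y → Nrm y → RateP y) → RateP x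

/-- **The same multiplicities**, from the factorisations in the plane.

Proof. `wr x (ζ, 1) = wr x (1, 0) ∏ (ζ - c i) ^ m i`; `wr x` is homogeneous of degree `2 d - 2 = ∑ m i` (`StWR`), and
`cr (u, v) (c, 1) = u - v c`. For `p = (u, v)` with `v ≠ 0` scale; for `v = 0` scale `(1, 0)`. -/
def S_SAME : Prop :=
  ∀ (d k : ℕ) (x z : CV d) (m : Fin k → ℕ) (c c' : Fin k → ℂ), 2 ≤ d → Fac x k c m →
    wr x (1, 0) ≠ 0 → wr z (1, 0) ≠ 0 →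
    (∀ ζ : ℂ, wr z (ζ, 1) = wr z (1, 0) * ∏ i, (ζ - c' i) ^ m i) → Function.Injective c' →
    SameM x z

end Pool.Agent.H211.HY
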