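import Pool.Agent.H211.HY.Stm2

/-! Assembly A: the line field theorem -/

set_option autoImplicit false

open Topology Filter Metric Set MeasureTheory Polynomial

namespace Pool.Agent.H211.HY

open Pool.Agent.H790R3.RB

theorem asm_line (hEQ : S_EQ) (hHIT : S_HIT) (hCON : S_CON) (hSHR : S_SHR) (hDENS : S_DENS)
    (hPROP : S_PROP) (hMERO : S_MERO) (hALG : S_ALG) : S_LINE := by
  intro d x H K hd hnd hce hnrm hleo hfix hH
  have heq : Equ x H := hEQ d x H K hd hnd hfix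
  have hhit : HIT x := hHIT d x hd hnd hce hleo
  obtain ⟨R, hR, L, hv⟩ := hCON d x H K hd hnd hnrm hfix heq hhit hH
  have hshr : Shr x := hSHR d x hd hnd hleo
  have hhol : Hol H := hDENS d x H K R L hd hnd hfix heq hshr hR hv
  obtain ⟨E, h, hdiff, hne, hae⟩ := hPROP d x H K hd hnd hleo hfix heq hhol
  have hint : ∫⁻ z : ℂ, ‖h z‖ₑ ≠ ⊤ := by
    have h1 : ∫⁻ z : ℂ, ‖h z‖ₑ = ∫⁻ z : ℂ, ‖H z‖ₑ := by
      refine lintegral_congr_ae ?_
      filter_upwards [hae] with z hz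
      rw [hz]
    rw [h1]
    exact hfix.int
  have hex : ∃ z ∉ E, h z ≠ 0 := by
    obtain ⟨z, hz⟩ := Infinite.exists_notMem_finset E
    exact ⟨z, hz, hne z hz⟩
  obtain ⟨A, B, hco, hA, hdeg, hAB⟩ := hMERO E h hdiff hex hint
  refine hALG d x H K A B hd hnd hce hfix heq hco hA hdeg ?_
  have hE : ∀ᵐ z : ℂ, z ∉ E := by
    filter_upwards [E.countable_toSet.ae_notMem volume] with z hz
    exact fun h => hz (Finset.mem_coe.2 h)
  filter_upwards [hae, hE] with z hz hzE
  rw [hz, (hAB z hzE).2]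

end Pool.Agent.H211.HY
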