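import Pool.Agent.H211.HY.Stm1

/-! Assembly B: transversality and the choice of the directions -/

set_option autoImplicit false

open Topology Filter Metric Set MeasureTheory Polynomial

namespace Pool.Agent.H211.HY

open Pool.Agent.H790R3.RB

theorem asm_tr (hINV : S_INV) (hL1 : S_L1) (hZERO : S_ZERO) (hLINE : S_LINE)
    {d k : ℕ} {x : CV d} (hx : Hyp x) (hn : Nrm x) (hleo : LEO x) {c : Fin k → ℂ} {m : Fin k → ℕ}
    {v α : Fin k → ℕ → ℂ} {K μ : ℝ} (ho : Orbs (pol x 0) (pol x 1) d k c m v α K μ)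
    (β : Fin k → ℂ) (hβ : ∀ S : ℂ[X], S.natDegree ≤ 2 * d → Tng (pol x 1) c m S →
      ∑ i, β i * WF (pol x 0) (pol x 1) c v α i S = 0) : β = 0 := by
  obtain ⟨h1, h2, h3, h4⟩ := hINV _ _ d k c m v α K μ β ho hβ
  obtain ⟨g1, g2, ⟨K', g3⟩, g4⟩ := hL1 _ _ d k c m v α K μ β ho h2 h3 h4
  have hfix : Fix x (HH v α β) K' := ⟨g1, g2, g3, h1, g4⟩
  refine hZERO _ _ d k c m v α K μ β ho hβ ?_
  by_contra hcon
  exact hx.lat (hLINE d x _ K' hx.hd hx.nd hx.ce hn hleo hfix hcon)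

/-- The directions `b l`, tangent to the stratum, with the dual functionals. -/
theorem asm_dir (hINV : S_INV) (hL1 : S_L1) (hZERO : S_ZERO) (hLINE : S_LINE) (hORBS : S_ORBS)
    (hDUAL : S_DUAL) {d k : ℕ} {x : CV d} (hx : Hyp x) (hn : Nrm x) (hleo : LEO x)
    {c : Fin k → ℂ} {m : Fin k → ℕ} (hf : Fac x k c m) :
    ∃ b : Fin k → CV d, (∀ l, Tng (pol x 1) c m (Up x (b l))) ∧
      ∀ i l, HS x (c i) (b l) = if l = i then 1 else 0 := by
  obtain ⟨v, α, K, μ, ho, hHS⟩ := hORBS d k x c m hx.hd hx.nd hx.ce hn hf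
  obtain ⟨b, hb1, hb2⟩ := hDUAL d k x c m v α K μ hx.hd hx.nd ho
    (fun β hβ => asm_tr hINV hL1 hZERO hLINE hx hn hleo ho β hβ)
  refine ⟨b, hb1, fun i l => ?_⟩
  rw [hHS]
  exact hb2 i l

end Pool.Agent.H211.HY
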