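import Pool.Agent.H211.HY.Bridge

/-! Assembly F: the final form -/

set_option autoImplicit false

open Topology Filter Metric Set MeasureTheory Polynomial

namespace Pool.Agent.H211.HY

open Pool.Agent.H790R3.RB

theorem asm_main3 (h2 : S_MAIN2) (hATM : S_ATM) : S_MAIN3 := by
  intro d x hd hnd hL hcr ε hε
  by_cases hce : CE x
  · obtain ⟨z, h3, h4, h5, h6⟩ := h2 d x ⟨hd, hnd, hce, hL⟩ ε hε
    exact ⟨z, h3, h4, h5, fun _ => h6⟩
  · have h3 : ∃ c : ℂ × ℂ, c ≠ 0 ∧ AT x c := by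
      by_contra hcon
      push Not at hcon
      refine hce fun c hc hw => ?_
      rcases hcr c hc hw with h | h
      · exact absurd h (hcon c hc)
      · exact h
    obtain ⟨z, h4, h5, h6⟩ := hATM d x hd hnd hcr h3 ε hε
    exact ⟨z, h4, h5, h6, fun h => absurd h hce⟩

/-- `PCF` in terms of the map of the sphere. -/
theorem pcf_sp {d : ℕ} (hd : 2 ≤ d) {z : CV d} (hz : ND z) (h : PCF z) (c : OnePoint ℂ)
    (hcc : ¬ ∃ U ∈ 𝓝 c, InjOn (sp z) U) :
    ∃ n : ℕ, 1 ≤ n ∧ ¬ ∃ U ∈ 𝓝 ((sp z)^[n] c), InjOn (sp z) U := by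
  obtain ⟨-, hsp, hpr, hhc, -⟩ := SP d z (by omega) hz
  have h1 : wr z (hc c) = 0 := by
    by_contra hne
    have h2 := INJL SP WR d z (hc c) hd hz (hhc c).2 hne
    rw [(hhc c).1] at h2
    exact hcc h2
  obtain ⟨n, hn, c', hc', hw', hcr⟩ := h (hc c) (hhc c).2 h1
  refine ⟨n, hn, ?_⟩
  have h5 : ∀ m : ℕ, (hF z)^[m] (hc c) ≠ 0 := by
    intro m
    induction m with
    | zero => exact (hhc c).2
    | succ m ih =>
      rw [Function.iterate_succ_apply']
      exact fun h6 => ih (hz _ h6)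
  have h3 : (sp z)^[n] c = pr c' := by
    have h4 := hsp (hc c) (hhc c).2 n
    rw [(hhc c).1] at h4
    rw [h4]
    exact (hpr _ _ (h5 n) hc').2 hcr
  rw [h3]
  exact p_NINJ d z c' hd hz hc' hw'

end Pool.Agent.H211.HY
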