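import Pool.Agent.H211.HY.AsmE
import Pool.Agent.H211.HY.Stm5

/-! Assembly G: exponential rate -/

set_option autoImplicit false

open Topology Filter Metric Set MeasureTheory Polynomial

namespace Pool.Agent.H211.HY

open Pool.Agent.H790R3.RB

theorem main_nrm4 (hSOLVE : S_SOLVE2) (hDCR : S_DCR) (hLEO : S_LEO)
    (hFACT : S_FACT) (hUNIF : S_UNIF) (hDIST : S_DIST) (hFUNC : S_FUNC) (hTG1 : S_TG1)
    (hTG2 : S_TG2B) (hSAME : S_SAME) (hFAM : S_FAM) (hORBS : S_ORBS) (hDUAL : S_DUAL) (hINV : S_INV) (hL1 : S_L1)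
    (hZERO : S_ZERO) (hLINE : S_LINE) {d : ℕ} {x : CV d} (hx : Hyp x) (hn : Nrm x) :
    RateP x := by
  have hd := hx.hd
  have hdcr : DCR x := hDCR d x hd hx.nd hx.ce hx.jul
  have hleo : LEO x := hLEO d x hd hx.nd hx.ce hdcr
  obtain ⟨k, c₀, m, hf⟩ := hFACT d x hd hn.1
  obtain ⟨b, hb1, hb2⟩ := asm_dir hINV hL1 hZERO hLINE hORBS hDUAL hx hn hleo hf
  have hQ : ∀ i, (pol x 1).eval (c₀ i) ≠ 0 := by
    intro i
    have h1 := hn.2 (c₀ i, 1) (one_ne _) (hf.crit i) 1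
    rw [Function.iterate_one, hF_pol] at h1
    exact h1
  obtain ⟨ρ, X, c, hX, hXb⟩ := hFAM d k x c₀ m b hd hx.nd hn.1 hf hQ hb1
  obtain ⟨ρ', C, K, μ, κ, xx, hρ', hρ'ρ, hgood, hstep, hval, hxx⟩ :=
    good_of hUNIF hDIST hFUNC hx hn hf hX (fun i l => by rw [hXb l]; exact hb2 i l)
  set Tg : ℕ → Fin k → ℕ → ℝ → ((Fin k → ℂ) → ℂ) → Prop := fun M i n ρ₁ q =>
    ρ₁ ≤ ρ ∧ ∃ l ≤ M, ∃ j : Fin k, ∀ s ∈ ball (0 : Fin k → ℂ) ρ₁,
      cr ((hF (X s))^[l] (iot (tau (qo x (c₀ i) (n + 1))) (q s))) (c j s, 1) = 0 with hTg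
  have hT1 : ∃ η > (0 : ℝ), ∃ A > (0 : ℝ), ∃ ρ₁ > (0 : ℝ), ∃ L : ℝ, ∀ i n, xx i n ≤ η →
      ∃ q, Tg 0 i n ρ₁ q ∧ IsT q ρ₁ L ∧ ‖q 0 - cz x (c₀ i) n‖ ≤ A * xx i n := by
    obtain ⟨η, hη, A, hA, ρ₁, hρ₁, hρ₁ρ, L, h⟩ := hTG1 d k x c₀ m X c ρ hX
    refine ⟨η, hη, A, hA, ρ₁, hρ₁, L, fun i n hin => ?_⟩
    obtain ⟨-, j, hj⟩ := hxx i n
    obtain ⟨q, hq1, hq2, hq3⟩ := h (qo x (c₀ i) (n + 1)) j (qo_ne hx.nd _ _) (hj.trans hin)
    refine ⟨q, ⟨hρ₁ρ, 0, le_rfl, j, fun s hs => ?_⟩, hq1, hq2.trans (mul_le_mul_of_nonneg_left hj hA.le)⟩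
    exact hq3 s hs
  have hT2 : ∀ ε > (0 : ℝ), ∃ ρ₁ > (0 : ℝ), ∃ L : ℝ, ∃ M : ℕ, ∀ i n,
      ∃ q, Tg M i n ρ₁ q ∧ IsT q ρ₁ L ∧ ‖q 0 - cz x (c₀ i) n‖ ≤ ε := by
    intro ε' hε'
    obtain ⟨ρ₁, hρ₁, hρ₁ρ, L, M, h⟩ := hTG2 d k x c₀ m X c ρ hd hx.nd hdcr hn.1 hf hX ε' hε'
    refine ⟨ρ₁, hρ₁, L, M, fun i n => ?_⟩
    obtain ⟨q, hq1, hq2, l, hl, j, hq3⟩ := h (tau (qo x (c₀ i) (n + 1))) (cz x (c₀ i) n) norm_zc
    exact ⟨q, ⟨hρ₁ρ, l, hl, j, hq3⟩, hq1, hq2⟩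
  -- closeness
  have h0ρ : (0 : Fin k → ℂ) ∈ ball (0 : Fin k → ℂ) ρ := mem_ball_self hX.ρ0
  have hXd : DifferentiableAt ℂ X 0 := hX.dif.differentiableAt (isOpen_ball.mem_nhds h0ρ)
  obtain ⟨K₀, hK₀, hcl⟩ : ∃ K₀ : ℝ, 0 < K₀ ∧ ∀ᶠ s in 𝓝 (0 : Fin k → ℂ), ‖X s - x‖ ≤ K₀ * ‖s‖ := by
    obtain ⟨K₀, hK₀, h⟩ := hXd.isBigO_sub.exists_pos
    refine ⟨K₀, hK₀, ?_⟩
    filter_upwards [h.bound] with s hs
    rw [hX.at0, sub_zero] at hs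
    exact hs
  have hinj : ∀ᶠ s in 𝓝 (0 : Fin k → ℂ), Function.Injective fun i => c i s := by
    have h1 : ∀ i j : Fin k, ∀ᶠ s in 𝓝 (0 : Fin k → ℂ), i ≠ j → c i s ≠ c j s := by
      intro i j
      by_cases hij : i = j
      · exact Eventually.of_forall fun s h => absurd hij h
      · have e1 : ContinuousAt (c i) 0 :=
          ((hX.cdf i).differentiableAt (isOpen_ball.mem_nhds h0ρ)).continuousAt
        have e2 : ContinuousAt (c j) 0 :=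
          ((hX.cdf j).differentiableAt (isOpen_ball.mem_nhds h0ρ)).continuousAt
        have e3 : c i 0 ≠ c j 0 := by
          rw [hX.c0, hX.c0]
          exact fun h => hij (hf.inj h)
        have e4 : ∀ᶠ s in 𝓝 (0 : Fin k → ℂ), c i s - c j s ≠ 0 :=
          (e1.sub e2).eventually_ne (sub_ne_zero.2 e3)
        filter_upwards [e4] with s hs _
        exact sub_ne_zero.1 hs
    have h2 : ∀ᶠ s in 𝓝 (0 : Fin k → ℂ), ∀ i j : Fin k, i ≠ j → c i s ≠ c j s :=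
      Filter.eventually_all.2 fun i => Filter.eventually_all.2 fun j => h1 i j
    filter_upwards [h2] with s hs i j hij
    by_contra hne
    exact hs i j hne hij
  obtain ⟨r, hr, hr'⟩ := Metric.eventually_nhds_iff_ball.1 (hcl.and hinj)
  obtain ⟨B, M, T₀, hall⟩ := hSOLVE k (fun i => cf x X (c₀ i)) (fun i => cv x X (c₀ i) (c i))
    (fun i => cz x (c₀ i)) xx ρ' C K μ κ hgood Tg hT1 hT2
  obtain ⟨T₁, hT₁⟩ : ∃ T₁ : ℕ, ∀ T ≥ T₁, (1 / 2 : ℝ) ^ T < min r ρ' := by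
    have h1 : Tendsto (fun T : ℕ => (1 / 2 : ℝ) ^ T) atTop (𝓝 0) :=
      tendsto_pow_atTop_nhds_zero_of_lt_one (by norm_num) (by norm_num)
    exact Filter.eventually_atTop.1 (h1.eventually_lt_const (lt_min hr hρ'))
  refine ⟨B + M + 1, max T₀ (max T₁ 1), K₀, fun T hT => ?_⟩
  have hTT₀ : T₀ ≤ T := (le_max_left _ _).trans hT
  have hTT₁ : T₁ ≤ T := ((le_max_left _ _).trans (le_max_right _ _)).trans hT
  have hT1' : 1 ≤ T := ((le_max_right _ _).trans (le_max_right _ _)).trans hT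
  obtain ⟨s, hs, hsol⟩ := hall T hTT₀
  have hs' : ‖s‖ < min r ρ' := hs.trans_lt (hT₁ T hTT₁)
  have hsr : s ∈ ball (0 : Fin k → ℂ) r := mem_ball_zero_iff.2 (hs'.trans_le (min_le_left _ _))
  have hsρ' : s ∈ ball (0 : Fin k → ℂ) ρ' := mem_ball_zero_iff.2 (hs'.trans_le (min_le_right _ _))
  have hsρ : s ∈ ball (0 : Fin k → ℂ) ρ := ball_subset_ball hρ'ρ hsρ'
  refine ⟨X s, (hr' s hsr).1.trans (mul_le_mul_of_nonneg_left hs hK₀.le), hX.nd s hsρ,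
    fun p hp hw => ?_, hSAME d k x (X s) m c₀ (fun i => c i s) hd hf hn.1 (hX.ne s hsρ)
      (hX.fac s hsρ) (hr' s hsr).2⟩
  obtain ⟨i, hi⟩ := crit_dir hd (hX.ne s hsρ) (hX.fac s hsρ) hp hw
  obtain ⟨N, hN, ρ₁, q, hTgq, hsρ₁, heq, hnear⟩ := hsol i
  obtain ⟨hρ₁, l, hl, j, hq⟩ : ρ₁ ≤ ρ ∧ ∃ l ≤ M, ∃ j : Fin k, ∀ s ∈ ball (0 : Fin k → ℂ) ρ₁,
      cr ((hF (X s))^[l] (iot (tau (qo x (c₀ i) (N + 1))) (q s))) (c j s, 1) = 0 := by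
    rcases hTgq with ⟨h1, l, hl, h2⟩ | h
    · exact ⟨h1, l, hl.trans (Nat.zero_le _), h2⟩
    · exact h
  have hNDs := hX.nd s hsρ
  -- the orbit in the charts
  have horb : ∀ n ≤ N, cr ((hF (X s))^[n + 1] (c i s, 1))
      (iot (tau (qo x (c₀ i) (n + 1))) (YY (cf x X (c₀ i)) (cv x X (c₀ i) (c i)) n s)) = 0 := by
    intro n
    induction n with
    | zero => exact fun _ => hval i s hsρ'
    | succ n ih =>
      intro hn'
      have h1 := ih (by omega)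
      have h2 : YY (cf x X (c₀ i)) (cv x X (c₀ i) (c i)) n s ∈ ball (cz x (c₀ i) n) ρ' := by
        rw [mem_ball_iff_norm]
        exact hnear n (by omega)
      have h3 := hstep i n s hsρ' _ h2
      have h4 := cr_iter (X s) 1 (hNDs.iter_ne (n + 1) (one_ne (c i s))) (iot_ne _ _) h1
      rw [Function.iterate_one, ← Function.iterate_succ_apply' (hF (X s)) (n + 1)] at h4
      exact cr_trans (hNDs.iter_ne 1 (iot_ne _ _)) h4 h3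
  have h1 := horb N le_rfl
  rw [heq] at h1
  have h2 := cr_iter (X s) l (hNDs.iter_ne (N + 1) (one_ne (c i s))) (iot_ne _ _) h1
  have h3 := hq s (mem_ball_zero_iff.2 hsρ₁)
  have h4 := cr_trans (hNDs.iter_ne l (iot_ne _ _)) h2 h3
  have h5 := cr_iter (X s) (l + (N + 1)) hp (one_ne (c i s)) hi
  rw [← Function.iterate_add_apply] at h4
  have hbd : l + (N + 1) ≤ (B + M + 1) * T := by
    have e1 : M ≤ M * T := Nat.le_mul_of_pos_right _ (by omega)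
    have e2 : (B + M + 1) * T = B * T + M * T + T := by ring
    omega
  refine ⟨l + (N + 1), by omega, hbd, (c j s, 1), one_ne _, ?_, ?_⟩
  · rw [hX.fac s hsρ]
    have h6 : ∏ i', (c j s - c i' s) ^ m i' = 0 := by
      refine Finset.prod_eq_zero (Finset.mem_univ j) ?_
      rw [sub_self, zero_pow]
      have := hf.pos j
      omega
    rw [h6, mul_zero]
  · exact cr_trans (hNDs.iter_ne _ (one_ne (c i s))) h5 h4



/-- **The rate.** -/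
def S_RATE : Prop := ∀ (d : ℕ) (x : CV d), Hyp0 x → RateP x

theorem asm_rate (hSOLVE : S_SOLVE2) (hDCR : S_DCR) (hLEO : S_LEO)
    (hFACT : S_FACT) (hUNIF : S_UNIF) (hDIST : S_DIST) (hFUNC : S_FUNC)
    (hTG1 : S_TG1) (hTG2 : S_TG2B) (hSAME : S_SAME) (hFAM : S_FAM) (hORBS : S_ORBS)
    (hDUAL : S_DUAL) (hINV : S_INV) (hL1 : S_L1) (hZERO : S_ZERO) (hLINE : S_LINE)
    (hLEOJ : S_LEOJ) (hDEEPJ : S_DEEPJ) (hNFE : S_NFE) (hNORM4 : S_NORM4) : S_RATE := by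
  intro d x hx
  refine hNORM4 d x hx fun y hy hny => ?_
  have hy' : Hyp y := asm_jul hLEOJ hDEEPJ hNFE hFACT hy hny
  exact main_nrm4 hSOLVE hDCR hLEO hFACT hUNIF hDIST hFUNC hTG1 hTG2 hSAME hFAM
    hORBS hDUAL hINV hL1 hZERO hLINE hy' hny

end Pool.Agent.H211.HY
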