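import Pool.Agent.H211.HY.Stm3
import Pool.Agent.H211.LR.Dirs
import Pool.Graph.R_seed8.H792R2.CE.Defs

/-!
# Statements, part 4: some critical points are attracted by attracting cycles
-/

set_option autoImplicit false

open Topology Filter Metric Set MeasureTheory Polynomial
open scoped OnePoint

namespace Pool.Agent.H211.HY

open Pool.Agent.H790R3.RB

/-- the point `c` is attracted by an attracting cycle (of the point `z`) -/
def AT {d : ℕ} (x : CV d) (c : ℂ × ℂ) : Prop :=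
  ∃ n : ℕ, 0 < n ∧ ∃ z : ℂ × ℂ, z ≠ 0 ∧ cr ((hF x)^[n] z) z = 0 ∧ sdn x n z < 1 ∧
    Tendsto (fun k : ℕ => cho ((hF x)^[n * k] c) z) atTop (𝓝 0)

/-- the Collet-Eckmann condition at `c` -/
def CEp {d : ℕ} (x : CV d) (c : ℂ × ℂ) : Prop :=
  ∃ C > (0 : ℝ), ∃ μ > (1 : ℝ), ∀ n : ℕ, C * μ ^ n ≤ sdn x n (hF x c)

/-- infinity is attracted by an attracting cycle which does not contain it -/
def ATN {d : ℕ} (x : CV d) : Prop :=
  ∃ n : ℕ, 0 < n ∧ ∃ z : ℂ × ℂ, z ≠ 0 ∧ cr ((hF x)^[n] z) z = 0 ∧ sdn x n z < 1 ∧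
    (∀ i : ℕ, ((hF x)^[i] z).2 ≠ 0) ∧
    Tendsto (fun k : ℕ => cho ((hF x)^[n * k] (1, 0)) z) atTop (𝓝 0)

/-- **Multipliers and derivatives in the plane.** (Assume `S_CHO`.) Elementary comparison of the notions in
homogeneous coordinates with the ones of `Pool/Graph/R_seed8/H792R2/CE/Defs.lean` (`Att`, `sph`, `rf`).

Proof. `sph d (pol x 0) (pol x 1) (pr' p) = pr' (hF x p)` (`(hF x (z, 1)) = ((pol x 0).eval z, (pol x 1).eval z)` and
`hF x (1, 0) = (coefficients)`), so `f^[i]` of the point with coordinates `p` is the point with coordinates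
`(hF x)^[i] p`. The point `(1, 0)` is not periodic (it is attracted by a cycle which does not contain it: if
`(hF x)^[m] (1, 0) ∥ (1, 0)` then `cho ((hF x)^[n m k] (1, 0)) z = cho (1, 0) z` does not tend to `0`, for `z` not
parallel to `(1, 0)`), so no periodic cycle contains it. For `w : ℂ` with `((hF x)^[i] (w, 1)).2 ≠ 0` for `i ≤ n`:
`rf^[n]` is differentiable at `w`, `(hF x)^[n] (ζ, 1) = t (ζ) • (rf^[n] ζ, 1)` near `w`, so by the first part of the last
item of `S_CHO` with `h ζ = (ζ, 1)`: `‖deriv (rf^[n]) w‖ / (1 + ‖rf^[n] w‖²) = sdn x n (w, 1) / (1 + ‖w‖²)`.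
(a) If `z` is periodic the two factors cancel. Convergence of `cho` to `0` for a finite point `z` is convergence in
`OnePoint ℂ`. (b) `‖deriv (rf^[n]) (rf c)‖ ≥ sdn x n (hF x (c, 1)) / (1 + ‖rf c‖²) ≥ C' μ ^ n ≥ μ' ^ n` for large `n`, where
`1 < μ' < μ`; if the orbit of `c` contains `∞` then `c` is attracted since `∞` is. -/
def S_ATP : Prop :=
  ∀ (d : ℕ) (x : CV d), 2 ≤ d → ND x → ATN x →
    (pol x 1).natDegree = d ∧ Pool.Agent.H792R2.CE.Att d (pol x 0) (pol x 1) ∞ ∧
    ∀ c : ℂ, AT x (c, 1) ∨ CEp x (c, 1) →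
      Pool.Agent.H792R2.CE.Att d (pol x 0) (pol x 1) (c : OnePoint ℂ) ∨
      ∃ μ : ℝ, 1 < μ ∧ ∀ᶠ n : ℕ in atTop,
        μ ^ n ≤ ‖deriv ((Pool.Agent.H792R2.CE.rf (pol x 0) (pol x 1))^[n])
          (Pool.Agent.H792R2.CE.rf (pol x 0) (pol x 1) c)‖

/-- **The normalised case.** (Assume `S_ATP`.)

Proof. `Pool.Agent.H211.AD.rfinal` (`Pool/Agent/H211/AD/RFin.lean`), applied to `x` (`PP x = pol x 0`, `QQ x = pol x 1`; a
zero `c` of `Pool.Agent.H792R2.CE.wr (PP x) (QQ x)` satisfies `wr x (c, 1) = d * _ = 0`, see `wr_one` in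
`Pool/Agent/H335/HY211/ALG.lean`): the proportion of `rbad d` in `ball x r` tends to `0`, so `ball x ε` contains a
point `z` which is not in `rbad d`, and `Pool.Agent.H211.LR.good_hyp` (`Pool/Agent/H211/LR/Final.lean`) says that `z`
defines a hyperbolic map; `PQ` (`TPQ.lean` in RB, `StPQ`) identifies the map `f` with `sp z` (`ND z` from
coprimality and the degree). -/
def S_ATQ : Prop :=
  ∀ (d : ℕ) (x : CV d), 2 ≤ d → ND x → ATN x →
    (∀ c : ℂ × ℂ, c ≠ 0 → wr x c = 0 → AT x c ∨ CEp x c) →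
    ∀ ε : ℝ, 0 < ε → ∃ z : CV d, ‖z - x‖ < ε ∧ ND z ∧ HypTop (sp z)

/-- **Normalisation.** (Assume `S_CHO`, `S_ATQ`.)

Proof. Let the cycle of `z`, of period `n`, be attracting, `sdn x n z < 1`. There is a small disc about the
direction `z` in which all orbits under the iterates of the `n`-th iterate converge to `z` (in a local
coordinate the `n`-th iterate has at the fixed point `z` a derivative of modulus `< 1`; or with the chordal
distance: `cho ((hF x)^[n] q) z ≤ λ cho q z` for `q` near `z`, with `sdn x n z < λ < 1`, by the formula of `S_CHO` for the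
speed). The cycle is finite; choose in this disc a direction `q` which is not in the cycle, and a linear map
of determinant `1` which maps `q` to `(1, 0)`. Conjugate by it as in `t_NORM` (`Pool/Agent/H922/HY211/NORM.lean`: `Rel`,
`CE_L`, ...): the hypotheses are invariant (`sdn` of a cycle is invariant, chordal distances change at most
by bounded factors), and `ATN` holds for the conjugate. -/
def S_ATM : Prop :=
  ∀ (d : ℕ) (x : CV d), 2 ≤ d → ND x →
    (∀ c : ℂ × ℂ, c ≠ 0 → wr x c = 0 → AT x c ∨ CEp x c) →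
    (∃ c : ℂ × ℂ, c ≠ 0 ∧ AT x c) →
    ∀ ε : ℝ, 0 < ε → ∃ z : CV d, ‖z - x‖ < ε ∧ ND z ∧ HypTop (sp z)

/-- **The main theorem**, third version: all critical points are attracted or Collet-Eckmann. -/
def S_MAIN3 : Prop :=
  ∀ (d : ℕ) (x : CV d), 2 ≤ d → ND x → ¬ Lat x →
    (∀ c : ℂ × ℂ, c ≠ 0 → wr x c = 0 → AT x c ∨ CEp x c) →
    ∀ ε : ℝ, 0 < ε → ∃ z : CV d, ‖z - x‖ < ε ∧ ND z ∧ HypTop (sp z) ∧ (CE x → PCF z)

end Pool.Agent.H211.HY
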