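import Pool.Agent.H211.HY.Fin
import Pool.Agent.H211.HY.Stm4
import Pool.Graph.R_seed8.H790R3.RB.TINJL
import Pool.Graph.R_seed8.H790R3.RB.TPQ
import Pool.Graph.R_seed8.H790R3.RB.TSP
import Pool.Graph.R_seed8.H790R3.RB.TWR

/-! Translation between coefficient vectors and pairs of polynomials -/

set_option autoImplicit false

open Topology Filter Metric Set MeasureTheory Polynomial

namespace Pool.Agent.H211.HY

open Pool.Agent.H790R3.RB

/-- The homogeneous map of `ℂ²` which induces the rational map `P / Q` of degree `d`. -/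
noncomputable def lft (d : ℕ) (P Q : ℂ[X]) (p : ℂ × ℂ) : ℂ × ℂ :=
  (∑ j ∈ Finset.range (d + 1), P.coeff j * p.1 ^ j * p.2 ^ (d - j),
   ∑ j ∈ Finset.range (d + 1), Q.coeff j * p.1 ^ j * p.2 ^ (d - j))

theorem lft_eq {d : ℕ} (x : CV d)
    (h : ∀ i : Fin 2, ∀ j : Fin (d + 1), (pol x i).coeff (j : ℕ) = x (i, j)) :
    lft d (pol x 0) (pol x 1) = hF x := by
  funext p
  have h1 : ∀ i : Fin 2, ∑ j ∈ Finset.range (d + 1), (pol x i).coeff j * p.1 ^ j * p.2 ^ (d - j) =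
      ∑ j : Fin (d + 1), x (i, j) * (p.1 ^ (j : ℕ) * p.2 ^ (d - (j : ℕ))) := by
    intro i
    rw [Finset.sum_range]
    refine Finset.sum_congr rfl fun j _ => ?_
    rw [h i j, mul_assoc]
  unfold lft hF
  rw [h1 0, h1 1]

theorem det_eq (A : ℂ × ℂ →L[ℂ] ℂ × ℂ) : A.det = cr (A (1, 0)) (A (0, 1)) := by
  have h : LinearMap.det (A : ℂ × ℂ →ₗ[ℂ] ℂ × ℂ) = cr (A (1, 0)) (A (0, 1)) := by
    rw [← LinearMap.det_toMatrix (Module.Basis.finTwoProd ℂ), Matrix.det_fin_two]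
    simp only [LinearMap.toMatrix_apply, Module.Basis.finTwoProd_zero,
      Module.Basis.finTwoProd_one, Module.Basis.coe_finTwoProd_repr, cr,
      ContinuousLinearMap.coe_coe, Matrix.cons_val_zero, Matrix.cons_val_one]
    ring
  exact h

theorem jac_eq {d : ℕ} (hd : 2 ≤ d) (x : CV d) (p : ℂ × ℂ) :
    (fderiv ℂ (hF x) p).det = wr x p := by
  rw [det_eq, (WR d x hd).2.2 p (1, 0) (0, 1)]
  simp [cr]

end Pool.Agent.H211.HY
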