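import Mathlib
import Pool.Graph.R_seed8.H790R3.RB.St2

/-!
# Collet-Eckmann maps with Julia set the sphere are limits of hyperbolic maps: definitions

A rational map of degree `d` is given by its coefficient vector `x : CV d`, it acts on directions of
`ℂ × ℂ` by the homogeneous map `hF x`; `cr p q = 0` says that `p`, `q` have the same direction,
`wr x` is the Jacobian determinant, whose zeros are the critical points, `ND x` says that the degree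
is exactly `d` (see `Pool/Graph/R_seed8/H790R3/RB/Defs.lean`, `St.lean`, `St2.lean`).
-/

set_option autoImplicit false

open Topology Filter Metric Set MeasureTheory Polynomial

namespace Pool.Agent.H211.HY

open Pool.Agent.H790R3.RB

/-- the square of the Euclidean norm of `ℂ²` -/
noncomputable def N2 (p : ℂ × ℂ) : ℝ := ‖p.1‖ ^ 2 + ‖p.2‖ ^ 2

/-- the chordal distance of the directions of `p` and `q`; it is at most `1` -/
noncomputable def cho (p q : ℂ × ℂ) : ℝ := ‖cr p q‖ / Real.sqrt (N2 p * N2 q)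

/-- the spherical derivative of the rational map at the direction `p` -/
noncomputable def sd {d : ℕ} (x : CV d) (p : ℂ × ℂ) : ℝ := ‖wr x p‖ * N2 p / ((d : ℝ) * N2 (hF x p))

/-- the spherical derivative of the `n`-th iterate -/
noncomputable def sdn {d : ℕ} (x : CV d) (n : ℕ) (p : ℂ × ℂ) : ℝ :=
  ∏ j ∈ Finset.range n, sd x ((hF x)^[j] p)

/-- All critical points satisfy the Collet-Eckmann condition. -/
def CE {d : ℕ} (x : CV d) : Prop :=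
  ∀ c : ℂ × ℂ, c ≠ 0 → wr x c = 0 → ∃ C > (0 : ℝ), ∃ μ > (1 : ℝ), ∀ n : ℕ,
    C * μ ^ n ≤ sdn x n (hF x c)

/-- `p` belongs to the Julia set: the iterates are not equicontinuous at `p`. -/
def Jul {d : ℕ} (x : CV d) (p : ℂ × ℂ) : Prop :=
  ∃ ε > (0 : ℝ), ∀ δ > (0 : ℝ), ∃ q : ℂ × ℂ, q ≠ 0 ∧ cho p q < δ ∧
    ∃ n : ℕ, ε ≤ cho ((hF x)^[n] p) ((hF x)^[n] q)

/-- the binary quartic form with coefficients `r` -/
noncomputable def quar (r : Fin 5 → ℂ) (p : ℂ × ℂ) : ℂ :=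
  ∑ j : Fin 5, r j * (p.1 ^ (j : ℕ) * p.2 ^ (4 - (j : ℕ)))

/-- Flexible Lattès maps: the quadratic differential `(v du - u dv)² / R(u, v)` is multiplied by `d`
by the pullback, for some quartic form `R`. -/
def Lat {d : ℕ} (x : CV d) : Prop :=
  ∃ r : Fin 5 → ℂ, r ≠ 0 ∧ ∀ p : ℂ × ℂ, quar r p * wr x p ^ 2 = (d : ℂ) ^ 3 * quar r (hF x p)

/-- Normalisation: infinity is not critical and does not belong to the orbits of the critical
points. -/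
def Nrm {d : ℕ} (x : CV d) : Prop :=
  wr x (1, 0) ≠ 0 ∧ ∀ c : ℂ × ℂ, c ≠ 0 → wr x c = 0 → ∀ n : ℕ, ((hF x)^[n] c).2 ≠ 0

/-- All the hypotheses. -/
structure Hyp {d : ℕ} (x : CV d) : Prop where
  hd : 2 ≤ d
  nd : ND x
  ce : CE x
  jul : ∀ p : ℂ × ℂ, p ≠ 0 → Jul x p
  lat : ¬ Lat x

/-- `c i` are the critical points, `m i` their multiplicities. -/
structure Fac {d : ℕ} (x : CV d) (k : ℕ) (c : Fin k → ℂ) (m : Fin k → ℕ) : Prop where
  inj : Function.Injective c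
  pos : ∀ i, 1 ≤ m i
  deg : ∑ i, m i = 2 * d - 2
  fac : ∀ ζ : ℂ, wr x (ζ, 1) = wr x (1, 0) * ∏ i, (ζ - c i) ^ m i

/-- Every disc is mapped onto the sphere by all iterates from some time on. -/
def LEO {d : ℕ} (x : CV d) : Prop :=
  ∀ δ > (0 : ℝ), ∃ N : ℕ, ∀ n ≥ N, ∀ p a : ℂ × ℂ, p ≠ 0 → a ≠ 0 →
    ∃ q : ℂ × ℂ, q ≠ 0 ∧ cho p q < δ ∧ cr ((hF x)^[n] q) a = 0

/-- Preimages of critical points are dense. -/
def DCR {d : ℕ} (x : CV d) : Prop :=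
  ∀ δ > (0 : ℝ), ∀ p : ℂ × ℂ, p ≠ 0 → ∃ q : ℂ × ℂ, q ≠ 0 ∧ cho p q < δ ∧
    ∃ n : ℕ, wr x ((hF x)^[n] q) = 0

/-- spherical speed of a map to `ℂ²` (to the sphere) -/
noncomputable def spd (h : ℂ → ℂ × ℂ) (z : ℂ) : ℝ := ‖cr (deriv h z) (h z)‖ / N2 (h z)

/-! ### Charts -/

/-- which of the two charts contains `p` -/
noncomputable def tau (p : ℂ × ℂ) : Bool := open Classical in decide (‖p.1‖ ≤ ‖p.2‖)

/-- the charts -/
def iot (τ : Bool) (z : ℂ) : ℂ × ℂ := if τ then (z, 1) else (1, z)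

/-- the denominators of the local coordinates -/
def dn (τ : Bool) (p : ℂ × ℂ) : ℂ := if τ then p.2 else p.1

/-- the local coordinates -/
noncomputable def lc (τ : Bool) (p : ℂ × ℂ) : ℂ := if τ then p.1 / p.2 else p.2 / p.1

/-- the sign of a chart -/
def sg (τ : Bool) : ℂ := if τ then 1 else -1

/-- the coordinate of `p` in its chart -/
noncomputable def zc (p : ℂ × ℂ) : ℂ := lc (tau p) p

/-- the rational map in the charts -/
noncomputable def GG {d : ℕ} (x : CV d) (τ τ' : Bool) (w : ℂ) : ℂ := lc τ' (hF x (iot τ w))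

/-! ### Non-autonomous orbits with parameters -/

/-- the orbit of the curve `v` -/
def YY {k : ℕ} (f : ℕ → (Fin k → ℂ) → ℂ → ℂ) (v : (Fin k → ℂ) → ℂ) : ℕ → (Fin k → ℂ) → ℂ
  | 0, s => v s
  | n + 1, s => f n s (YY f v n s)

/-- the derivatives along the orbit `z` at the parameter `0` -/
noncomputable def DD {k : ℕ} (f : ℕ → (Fin k → ℂ) → ℂ → ℂ) (z : ℕ → ℂ) (n : ℕ) : ℂ :=
  ∏ j ∈ Finset.range n, deriv (f j 0) (z j)

/-- The orbit `z` of the critical value `v 0`, in charts, at the parameter `0`; `x n` is (comparable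
to) the distance of `z n` to the critical points. -/
structure Good {k : ℕ} (i : Fin k) (f : ℕ → (Fin k → ℂ) → ℂ → ℂ) (v : (Fin k → ℂ) → ℂ)
    (z : ℕ → ℂ) (x : ℕ → ℝ) (ρ C c μ : ℝ) (κ : ℂ) : Prop where
  ρ0 : 0 < ρ
  C1 : 1 ≤ C
  c0 : 0 < c
  μ1 : 1 < μ
  κ0 : κ ≠ 0
  v0 : v 0 = z 0
  vd : DifferentiableOn ℂ v (ball 0 ρ)
  vb : ∀ s ∈ ball (0 : Fin k → ℂ) ρ, ‖v s‖ ≤ C
  fz : ∀ n, f n 0 (z n) = z (n + 1)
  fd : ∀ n, DifferentiableOn ℂ (fun p : (Fin k → ℂ) × ℂ => f n p.1 p.2)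
    (ball 0 ρ ×ˢ ball (z n) ρ)
  fb : ∀ n, ∀ s ∈ ball (0 : Fin k → ℂ) ρ, ∀ w ∈ ball (z n) ρ, ‖f n s w‖ ≤ C
  xx : ∀ n, 0 < x n ∧ x n ≤ 1
  dx : ∀ n, deriv (f n 0) (z n) ≠ 0 ∧ ‖deriv (f n 0) (z n)‖ ≤ C * x n
  ds : ∀ n, ∀ s ∈ ball (0 : Fin k → ℂ) ρ, ∀ w ∈ ball (z n) ρ, ‖s‖ + ‖w - z n‖ ≤ x n / C →
    ‖deriv (f n s) w - deriv (f n 0) (z n)‖ ≤
      C * ‖deriv (f n 0) (z n)‖ * ((‖s‖ + ‖w - z n‖) / x n)
  gr : ∀ n, c * μ ^ n ≤ ‖DD f z n‖
  fn : ∀ b : Fin k → ℂ, Tendsto (fun n : ℕ => fderiv ℂ v 0 b +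
    ∑ j ∈ Finset.range n, fderiv ℂ (fun s => f j s (z j)) 0 b / DD f z (j + 1)) atTop
      (𝓝 (κ * b i))

/-- Lipschitz functions of the parameter near `0` (targets) -/
def IsT {k : ℕ} (κ : (Fin k → ℂ) → ℂ) (ρ L : ℝ) : Prop :=
  ∀ s ∈ ball (0 : Fin k → ℂ) ρ, ∀ s' ∈ ball (0 : Fin k → ℂ) ρ, ‖κ s - κ s'‖ ≤ L * ‖s - s'‖

/-! ### Polynomials -/

/-- numerator of the derivative of `P / Q` -/
noncomputable def Wp (P Q : ℂ[X]) : ℂ[X] := derivative P * Q - P * derivative Q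

/-- numerator of the variation of `P / Q` in the direction `b` -/
noncomputable def Up {d : ℕ} (x b : CV d) : ℂ[X] := pol b 0 * pol x 1 - pol b 1 * pol x 0

/-- `S / Q²` is constant to the order `m i` at the critical points `c i`: variations which keep the
multiplicities of the critical points (to first order) -/
def Tng (Q : ℂ[X]) {k : ℕ} (c : Fin k → ℂ) (m : Fin k → ℕ) (S : ℂ[X]) : Prop :=
  ∀ i, ∃ a : ℂ, (X - C (c i)) ^ m i ∣ S - C a * Q ^ 2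

/-- orbit of the critical point `c` in homogeneous coordinates -/
noncomputable def qo {d : ℕ} (x : CV d) (c : ℂ) (j : ℕ) : ℂ × ℂ := (hF x)^[j] (c, 1)

/-- homogeneous derivatives along the orbit of the critical value -/
noncomputable def Lam {d : ℕ} (x : CV d) (c : ℂ) (j : ℕ) : ℂ :=
  ∏ l ∈ Finset.range j, (wr x (qo x c (l + 1)) / (d : ℂ))

/-- the terms of the variation of the critical orbit, relative to the derivatives -/
noncomputable def hst {d : ℕ} (x : CV d) (c : ℂ) (b : CV d) (j : ℕ) : ℂ :=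
  cr (hF b (qo x c j)) (hF x (qo x c j)) / Lam x c j

/-- the total variation of the critical orbit, relative to the derivatives -/
noncomputable def HS {d : ℕ} (x : CV d) (c : ℂ) (b : CV d) : ℂ := ∑' j, hst x c b j

/-- the orbits `v i` of the critical values in the plane, and the inverses `α i` of the derivatives
along them -/
structure Orbs (P Q : ℂ[X]) (d k : ℕ) (c : Fin k → ℂ) (m : Fin k → ℕ) (v α : Fin k → ℕ → ℂ)
    (K μ : ℝ) : Prop where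
  hd : 2 ≤ d
  cop : IsCoprime P Q
  deg : max P.natDegree Q.natDegree = d
  inj : Function.Injective c
  pos : ∀ i, 1 ≤ m i
  dgm : ∑ i, m i = 2 * d - 2
  fac : ∃ a : ℂ, a ≠ 0 ∧ Wp P Q = C a * ∏ i, (X - C (c i)) ^ m i
  Qc : ∀ i, Q.eval (c i) ≠ 0
  v0 : ∀ i, v i 0 = P.eval (c i) / Q.eval (c i)
  vs : ∀ i j, v i (j + 1) = P.eval (v i j) / Q.eval (v i j)
  Qv : ∀ i j, Q.eval (v i j) ≠ 0
  Wv : ∀ i j, (Wp P Q).eval (v i j) ≠ 0
  α0 : ∀ i, α i 0 = 1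
  αs : ∀ i j, α i (j + 1) = α i j * (Q.eval (v i j) ^ 2 / (Wp P Q).eval (v i j))
  μ0 : 0 < μ
  μ1 : μ < 1
  gr : ∀ i j, ‖α i j‖ * (1 + ‖v i j‖ ^ 2) ≤ K * μ ^ j

/-- the variation of the `i`-th critical orbit in the direction `S / Q²` -/
noncomputable def WF (P Q : ℂ[X]) {k : ℕ} (c : Fin k → ℂ) (v α : Fin k → ℕ → ℂ) (i : Fin k)
    (S : ℂ[X]) : ℂ :=
  S.eval (c i) / Q.eval (c i) ^ 2 + ∑' j, S.eval (v i j) / (Wp P Q).eval (v i j) * α i j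

/-- the combination of the Cauchy series of the critical orbits -/
noncomputable def HH {k : ℕ} (v α : Fin k → ℕ → ℂ) (β : Fin k → ℂ) (x : ℂ) : ℂ :=
  ∑ i, β i * ∑' j, α i j / (x - v i j)

/-- the family inside the stratum of `x₀` -/
structure Fami {d : ℕ} (x₀ : CV d) (k : ℕ) (c₀ : Fin k → ℂ) (m : Fin k → ℕ)
    (X : (Fin k → ℂ) → CV d) (c : Fin k → (Fin k → ℂ) → ℂ) (ρ : ℝ) : Prop where
  ρ0 : 0 < ρ
  dif : DifferentiableOn ℂ X (ball 0 ρ)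
  at0 : X 0 = x₀
  cdf : ∀ i, DifferentiableOn ℂ (c i) (ball 0 ρ)
  c0 : ∀ i, c i 0 = c₀ i
  nd : ∀ s ∈ ball (0 : Fin k → ℂ) ρ, ND (X s)
  ne : ∀ s ∈ ball (0 : Fin k → ℂ) ρ, wr (X s) (1, 0) ≠ 0
  fac : ∀ s ∈ ball (0 : Fin k → ℂ) ρ, ∀ ζ : ℂ,
    wr (X s) (ζ, 1) = wr (X s) (1, 0) * ∏ i, (ζ - c i s) ^ m i

/-! ### The invariant line field -/

/-- the rational map as a function on the plane (junk value at the poles) -/
noncomputable def pf {d : ℕ} (x : CV d) (z : ℂ) : ℂ := (pol x 0).eval z / (pol x 1).eval z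

/-- `H` is an integrable fixed point of the Ruelle operator, the Cauchy transform of an atomic
measure -/
structure Fix {d : ℕ} (x : CV d) (H : ℂ → ℂ) (K : ℝ) : Prop where
  meas : Measurable H
  int : ∫⁻ z : ℂ, ‖H z‖ₑ ≠ ⊤
  sm : ∀ (y : ℂ) (ρ : ℝ), 0 < ρ → ∫⁻ z in ball y ρ, ‖H z‖ₑ ≤ ENNReal.ofReal (K * ρ)
  inv : ∀ᵐ z : ℂ, H z = ∑ w ∈ (pol x 0 - C z * pol x 1).roots.toFinset,
    (pol x 1).eval w ^ 4 / (Wp (pol x 0) (pol x 1)).eval w ^ 2 * H w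
  ato : ∃ a p : ℕ → ℂ, (Summable fun j => ‖a j‖) ∧
    ∀ᵐ z : ℂ, (Summable fun j => ‖a j / (z - p j)‖) ∧ H z = ∑' j, a j / (z - p j)

/-- Equality in the triangle inequality: `H dz²` has, up to a nonnegative real factor, the pullback
of itself under the iterates, and the measure `|H| dA` is invariant. -/
def Equ {d : ℕ} (x : CV d) (H : ℂ → ℂ) : Prop :=
  (∀ n : ℕ, ∀ᵐ w : ℂ, ∃ a : ℝ, 0 ≤ a ∧ (H w ≠ 0 → 0 < a) ∧ DifferentiableAt ℂ ((pf x)^[n]) w ∧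
    H w = (a : ℂ) * deriv ((pf x)^[n]) w ^ 2 * H ((pf x)^[n] w)) ∧
  ∀ (n : ℕ) (A : Set ℂ), MeasurableSet A →
    ∫⁻ w in (pf x)^[n] ⁻¹' A, ‖H w‖ₑ = ∫⁻ w in A, ‖H w‖ₑ

/-- `g` is a branch of the inverse of the `n`-th iterate on the ball (with values on the sphere) -/
def Br {d : ℕ} (x : CV d) (n : ℕ) (y : ℂ) (R : ℝ) (g : ℂ → ℂ × ℂ) : Prop :=
  DifferentiableOn ℂ g (ball y R) ∧ ∀ w ∈ ball y R, g w ≠ 0 ∧ cr ((hF x)^[n] (g w)) (w, 1) = 0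

/-- hit lemma: branches exist unless the orbit passes very close to a critical point -/
def HIT {d : ℕ} (x : CV d) : Prop :=
  ∃ C > (0 : ℝ), ∃ κ > (0 : ℝ), κ < 1 ∧ ∃ R₁ > (0 : ℝ), ∀ R : ℝ, 0 < R → R ≤ R₁ → ∀ (n : ℕ) (z y : ℂ),
    cr ((hF x)^[n] (z, 1)) (y, 1) = 0 →
      (∃ g, Br x n y R g ∧ cr (g y) (z, 1) = 0) ∨
      ∃ j < n, ∃ c : ℂ × ℂ, c ≠ 0 ∧ wr x c = 0 ∧
        cho ((hF x)^[n - 1 - j] (z, 1)) c ^ d ≤ C * R * κ ^ j

/-- the points with infinitely many branches on balls of the radius `R` -/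
def Con {d : ℕ} (x : CV d) (R L : ℝ) : Set ℂ :=
  {z | ∃ᶠ n : ℕ in atTop, ∃ y : ℂ, ‖y‖ ≤ L ∧ cr ((hF x)^[n] (z, 1)) (y, 1) = 0 ∧
    ∃ g, Br x n y R g ∧ cr (g y) (z, 1) = 0}

/-- the branches shrink uniformly -/
def Shr {d : ℕ} (x : CV d) : Prop :=
  ∀ R > (0 : ℝ), ∀ ε > (0 : ℝ), ∃ N : ℕ, ∀ n ≥ N, ∀ (y : ℂ) (g : ℂ → ℂ × ℂ), Br x n y R g →
    ∀ w ∈ ball y (R / 2), cho (g w) (g y) < ε

/-- on some disc `H` is a positive multiple of a holomorphic function -/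
def Hol (H : ℂ → ℂ) : Prop :=
  ∃ (y : ℂ) (R : ℝ) (k : ℂ → ℂ), 0 < R ∧ DifferentiableOn ℂ k (ball y R) ∧
    (∀ w ∈ ball y R, k w ≠ 0) ∧ ∀ᵐ w : ℂ, w ∈ ball y R → ∃ t : ℝ, 0 < t ∧ H w = (t : ℂ) * k w

end Pool.Agent.H211.HY
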