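import Pool.Agent.H211.HY.AsmF
import Pool.Agent.H233.HY211.ATP
import Pool.Agent.H376.HY211.ATM
import Pool.Agent.H51.HY211.ATQ

/-! The pieces put together, third version -/

set_option autoImplicit false

namespace Pool.Agent.H211.HY

theorem p_ATP : S_ATP := Pool.Agent.H233.HY211.t_ATP
theorem p_ATQ : S_ATQ := Pool.Agent.H51.HY211.t_ATQ p_ATP
theorem p_ATM : S_ATM := Pool.Agent.H376.HY211.t_ATM p_ATQ

/-- **Rational maps all of whose critical points are attracted or Collet-Eckmann are limits of
hyperbolic maps.** -/
theorem main3 : S_MAIN3 := asm_main3 main2 p_ATM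

end Pool.Agent.H211.HY
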