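import Pool.Agent.H211.HY.Fin3
import Pool.Agent.H211.HY.AsmG
import Pool.Agent.H721.HY211.SCALE2
import Pool.Agent.H307.HY211.SOLVE2
import Pool.Agent.H277.HY211.TG2B
import Pool.Agent.H345.HY211.NORM4
import Pool.Agent.H230.HY211.SAME

/-! The pieces put together, with the rate -/

set_option autoImplicit false

namespace Pool.Agent.H211.HY

theorem p_SCALE2 : S_SCALE2 := Pool.Agent.H721.HY211.t_SCALE2
theorem p_SOLVE2 : S_SOLVE2 := Pool.Agent.H307.HY211.t_SOLVE2 p_SCALE2 p_FOL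
theorem p_TG2B : S_TG2B := Pool.Agent.H277.HY211.t_TG2B
theorem p_NORM4 : S_NORM4 := Pool.Agent.H345.HY211.t_NORM4
theorem p_SAME : S_SAME := Pool.Agent.H230.HY211.t_SAME

/-- **Exponential rate.** -/
theorem rate : S_RATE :=
  asm_rate p_SOLVE2 p_DCR p_LEO p_FACT p_UNIF p_DIST p_FUNC p_TG1 p_TG2B p_SAME p_FAM p_ORBS
    p_DUAL p_INV p_L1 p_ZERO p_LINE p_LEOJ p_DEEPJ p_NFE p_NORM4

end Pool.Agent.H211.HY
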